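import Mathlib

/-!
# Perfect matchings of finite vertex sets, barriers

`HasPM G Z`: the subgraph of `G` induced by the finite set `Z` has a perfect matching, given by an
involution along edges.
-/

namespace Pool.Agent.H9.MMN

variable {V : Type*}

/-- `G` restricted to `Z` has a perfect matching (given by an involution along edges) -/
def HasPM (G : SimpleGraph V) (Z : Finset V) : Prop :=
  ∃ f : V → V, ∀ v ∈ Z, f v ∈ Z ∧ G.Adj v (f v) ∧ f (f v) = v

section Basic

variable {G : SimpleGraph V} {Z Z' : Finset V}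

theorem HasPM.empty (G : SimpleGraph V) : HasPM G ∅ := ⟨id, fun _ h => absurd h (by simp)⟩

theorem HasPM.mono' {H : SimpleGraph V} (h : ∀ v ∈ Z, ∀ w ∈ Z, G.Adj v w → H.Adj v w)
    (hG : HasPM G Z) : HasPM H Z := by
  obtain ⟨f, hf⟩ := hG
  exact ⟨f, fun v hv => ⟨(hf v hv).1, h v hv _ (hf v hv).1 (hf v hv).2.1, (hf v hv).2.2⟩⟩

variable [DecidableEq V]

theorem HasPM.union (h : HasPM G Z) (h' : HasPM G Z') (hd : Disjoint Z Z') :
    HasPM G (Z ∪ Z') := by
  obtain ⟨f, hf⟩ := h
  obtain ⟨f', hf'⟩ := h'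
  refine ⟨fun v => if v ∈ Z then f v else f' v, fun v hv => ?_⟩
  by_cases h : v ∈ Z
  · have h1 := hf v h
    simp only [h, if_true, h1.1, h1.2.2, h1.2.1, Finset.mem_union, true_or, and_self]
  · have hv' : v ∈ Z' := by
      rcases Finset.mem_union.mp hv with h1 | h1
      · exact absurd h1 h
      · exact h1
    have h1 := hf' v hv'
    have h2 : f' v ∉ Z := fun h3 => (Finset.disjoint_left.mp hd h3) h1.1
    simp only [h, if_false, h2, h1.1, h1.2.2, h1.2.1, Finset.mem_union, or_true, and_self]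

theorem HasPM.pair {a b : V} (h : G.Adj a b) : HasPM G {a, b} := by
  refine ⟨fun v => if v = a then b else a, fun v hv => ?_⟩
  rw [Finset.mem_insert, Finset.mem_singleton] at hv
  have hab : b ≠ a := h.ne'
  rcases hv with rfl | rfl
  · simp [h, hab]
  · simp [h.symm, hab]

/-- finite disjoint union -/
theorem HasPM.biUnion {ι : Type*} [DecidableEq ι] (s : Finset ι) (F : ι → Finset V)
    (h : ∀ i ∈ s, HasPM G (F i))
    (hd : ∀ i ∈ s, ∀ j ∈ s, i ≠ j → Disjoint (F i) (F j)) : HasPM G (s.biUnion F) := by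
  induction s using Finset.induction_on with
  | empty => simpa using HasPM.empty G
  | insert a s ha ih =>
    rw [Finset.biUnion_insert]
    refine HasPM.union (h a (Finset.mem_insert_self _ _)) (ih (fun i hi => h i
      (Finset.mem_insert_of_mem hi)) fun i hi j hj hij => hd i (Finset.mem_insert_of_mem hi) j
      (Finset.mem_insert_of_mem hj) hij) ?_
    rw [Finset.disjoint_biUnion_right]
    intro i hi
    exact hd a (Finset.mem_insert_self _ _) i (Finset.mem_insert_of_mem hi)
      (fun h => ha (h ▸ hi))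

omit [DecidableEq V] in
/-- restriction of a matching to a closed subset -/
theorem HasPM.of_closed {f : V → V} (hf : ∀ v ∈ Z, f v ∈ Z ∧ G.Adj v (f v) ∧ f (f v) = v)
    (hs : Z' ⊆ Z) (hc : ∀ v ∈ Z', f v ∈ Z') : HasPM G Z' :=
  ⟨f, fun v hv => ⟨hc v hv, (hf v (hs hv)).2.1, (hf v (hs hv)).2.2⟩⟩

/-- removing a matched pair -/
theorem HasPM.sdiff_pair {f : V → V} (hf : ∀ v ∈ Z, f v ∈ Z ∧ G.Adj v (f v) ∧ f (f v) = v)
    {v : V} (hv : v ∈ Z) : HasPM G (Z \ {v, f v}) := by
  refine HasPM.of_closed hf Finset.sdiff_subset fun w hw => ?_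
  rw [Finset.mem_sdiff, Finset.mem_insert, Finset.mem_singleton, not_or] at hw ⊢
  obtain ⟨hw1, hw2, hw3⟩ := hw
  refine ⟨(hf w hw1).1, ?_, ?_⟩
  · intro h
    apply hw3
    rw [← h, (hf w hw1).2.2]
  · intro h
    apply hw2
    rw [← (hf w hw1).2.2, h, (hf v hv).2.2]

omit [DecidableEq V] in
theorem even_of_involution {f : V → V}
    (hf : ∀ v ∈ Z, f v ∈ Z ∧ G.Adj v (f v) ∧ f (f v) = v) : Even Z.card := by
  have h : ∑ x ∈ Z, (1 : ZMod 2) = 0 := by
    refine Finset.sum_involution (fun v _ => f v) (fun _ _ => by decide)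
      (fun a ha _ => (hf a ha).2.1.ne') (fun a ha => (hf a ha).1) fun a ha => (hf a ha).2.2
  rw [Finset.sum_const, nsmul_eq_mul, mul_one] at h
  exact (ZMod.natCast_eq_zero_iff_even).mp h

omit [DecidableEq V] in
theorem HasPM.even (h : HasPM G Z) : Even Z.card := by
  obtain ⟨f, hf⟩ := h
  exact even_of_involution hf

/-- **Alternating path lemma.** -/
theorem alternating (G : SimpleGraph V) : ∀ (n : ℕ) (Z Z0 : Finset V), Z.card = n → Z0 ⊆ Z →
    HasPM G Z → HasPM G Z0 → ∀ s ∈ Z, s ∉ Z0 → ∃ t ∈ Z, t ∉ Z0 ∧ t ≠ s ∧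
      HasPM G (Z \ {s, t}) := by
  intro n
  induction n using Nat.strong_induction_on with
  | _ n ih =>
    intro Z Z0 hn hsub hZ hZ0 s hs hs0
    obtain ⟨f, hf⟩ := hZ
    obtain ⟨g, hg⟩ := hZ0
    obtain ⟨h1, h2, h3⟩ := hf s hs
    by_cases ht : f s ∈ Z0
    · obtain ⟨g1, g2, g3⟩ := hg _ ht
      set t1 := f s with ht1
      set s2 := g t1 with hs2
      have hs2s : s2 ≠ s := fun h => hs0 (h ▸ g1)
      have hs2t : s2 ≠ t1 := g2.ne'
      have ht1s : t1 ≠ s := h2.ne'
      have hZs : HasPM G (Z \ {s, t1}) := HasPM.sdiff_pair hf hs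
      have hZ0s : HasPM G (Z0 \ {t1, s2}) := HasPM.sdiff_pair hg ht
      have hcard : (Z \ {s, t1}).card < n := by
        rw [← hn]
        refine Finset.card_lt_card ?_
        rw [Finset.ssubset_iff_of_subset Finset.sdiff_subset]
        exact ⟨s, hs, by simp⟩
      have hsub' : Z0 \ {t1, s2} ⊆ Z \ {s, t1} := by
        intro z hz
        simp only [Finset.mem_sdiff, Finset.mem_insert, Finset.mem_singleton, not_or] at hz ⊢
        exact ⟨hsub hz.1, fun h => hs0 (h ▸ hz.1), hz.2.1⟩
      have hs2m : s2 ∈ Z \ {s, t1} := by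
        simp only [Finset.mem_sdiff, Finset.mem_insert, Finset.mem_singleton, not_or]
        exact ⟨hsub g1, hs2s, hs2t⟩
      have hs2n : s2 ∉ Z0 \ {t1, s2} := by simp
      obtain ⟨t, ht, htn, hts, hPM⟩ := ih _ hcard _ _ rfl hsub' hZs hZ0s s2 hs2m hs2n
      simp only [Finset.mem_sdiff, Finset.mem_insert, Finset.mem_singleton, not_or] at ht
      have htZ0 : t ∉ Z0 := by
        intro h
        apply htn
        simp only [Finset.mem_sdiff, Finset.mem_insert, Finset.mem_singleton, not_or]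
        exact ⟨h, ht.2.2, hts⟩
      refine ⟨t, ht.1, htZ0, ht.2.1, ?_⟩
      have heq : Z \ {s, t} = ((Z \ {s, t1}) \ {s2, t}) ∪ {t1, s2} := by
        ext z
        simp only [Finset.mem_sdiff, Finset.mem_insert, Finset.mem_singleton, not_or,
          Finset.mem_union]
        constructor
        · rintro ⟨a1, a2, a3⟩
          by_cases b1 : z = t1
          · exact Or.inr (Or.inl b1)
          · by_cases b2 : z = s2
            · exact Or.inr (Or.inr b2)
            · exact Or.inl ⟨⟨a1, a2, b1⟩, b2, a3⟩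
        · rintro (⟨⟨a1, a2, a3⟩, a4, a5⟩ | h | h)
          · exact ⟨a1, a2, a5⟩
          · subst h
            exact ⟨h1, ht1s, fun h => ht.2.2 h.symm⟩
          · subst h
            exact ⟨hsub g1, hs2s, fun h => hts h.symm⟩
      rw [heq]
      refine HasPM.union hPM (HasPM.pair g2) ?_
      rw [Finset.disjoint_left]
      intro z hz hz'
      simp only [Finset.mem_sdiff, Finset.mem_insert, Finset.mem_singleton, not_or] at hz hz'
      rcases hz' with h | h
      · exact hz.1.2.2 h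
      · exact hz.2.1 h
    · exact ⟨f s, h1, ht, h2.ne', HasPM.sdiff_pair hf hs⟩

end Basic

/-! ### Barriers -/

section Barrier

variable [DecidableEq V]

/-- `C` is a partition of `Z \ A` into pairwise nonadjacent nonempty parts -/
structure IsPart (G : SimpleGraph V) (Z A : Finset V) (C : Finset (Finset V)) : Prop where
  sub : A ⊆ Z
  ne : ∀ K ∈ C, K.Nonempty
  mem : ∀ K ∈ C, K ⊆ Z \ A
  disj : ∀ K ∈ C, ∀ L ∈ C, ∀ x, x ∈ K → x ∈ L → K = L
  cover : ∀ z ∈ Z, z ∉ A → ∃ K ∈ C, z ∈ K
  nadj : ∀ K ∈ C, ∀ L ∈ C, ∀ x ∈ K, ∀ y ∈ L, G.Adj x y → K = L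

/-- number of odd parts -/
def oddCount (C : Finset (Finset V)) : ℕ := (C.filter (fun K => Odd K.card)).card

variable {G : SimpleGraph V} {Z A : Finset V} {C : Finset (Finset V)}

theorem IsPart.not_hasPM (h : IsPart G Z A C) (hc : A.card < oddCount C) : ¬ HasPM G Z := by
  rintro ⟨f, hf⟩
  have hne : Nonempty V := by
    by_contra hV
    rw [not_nonempty_iff] at hV
    have hC : C = ∅ := by
      rw [Finset.eq_empty_iff_forall_notMem]
      intro K hK
      obtain ⟨x, -⟩ := h.ne K hK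
      exact hV.elim x
    rw [hC] at hc
    simp [oddCount] at hc
  have key : ∀ K ∈ C.filter (fun K => Odd K.card), ∃ x ∈ K, f x ∉ K := by
    intro K hK
    rw [Finset.mem_filter] at hK
    by_contra hcon
    push Not at hcon
    have hKZ : ∀ v ∈ K, v ∈ Z := fun v hv => (Finset.mem_sdiff.mp (h.mem K hK.1 hv)).1
    have : Even K.card := even_of_involution (G := G) (f := f) fun v hv =>
      ⟨hcon v hv, (hf v (hKZ v hv)).2.1, (hf v (hKZ v hv)).2.2⟩
    exact (Nat.not_even_iff_odd.mpr hK.2) this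
  choose! x hx hfx using key
  have hmaps : ∀ K ∈ C.filter (fun K => Odd K.card), f (x K) ∈ A := by
    intro K hK
    have hKC := (Finset.mem_filter.mp hK).1
    have hxZ : x K ∈ Z := (Finset.mem_sdiff.mp (h.mem K hKC (hx K hK))).1
    by_contra hA
    obtain ⟨L, hL, hfL⟩ := h.cover _ (hf _ hxZ).1 hA
    have := h.nadj K hKC L hL _ (hx K hK) _ hfL (hf _ hxZ).2.1
    exact hfx K hK (this ▸ hfL)
  have hinj : Set.InjOn (fun K => f (x K)) (C.filter (fun K => Odd K.card) : Set (Finset V)) := by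
    intro K hK L hL heq
    have hKC := (Finset.mem_filter.mp (Finset.mem_coe.mp hK)).1
    have hLC := (Finset.mem_filter.mp (Finset.mem_coe.mp hL)).1
    have hxK : x K ∈ Z := (Finset.mem_sdiff.mp (h.mem K hKC (hx K hK))).1
    have hxL : x L ∈ Z := (Finset.mem_sdiff.mp (h.mem L hLC (hx L hL))).1
    have h1 : x K = x L := by
      rw [← (hf _ hxK).2.2, ← (hf _ hxL).2.2]
      exact congrArg f heq
    exact h.disj K hKC L hLC _ (hx K hK) (h1 ▸ hx L hL)
  have := Finset.card_le_card_of_injOn _ hmaps hinj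
  unfold oddCount at hc
  omega

end Barrier

end Pool.Agent.H9.MMN
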