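import Mathlib
import Pool.Agent.H9.MMN.PM

/-!
# Tutte's theorem for `HasPM`, maximal barriers
-/

namespace Pool.Agent.H9.MMN

open SimpleGraph

variable {V : Type*}

/-- perfect matching in the sense of Mathlib from an involution, on a type -/
theorem exists_isPerfectMatching_iff {W : Type*} [Fintype W] (G : SimpleGraph W) :
    (∃ M : G.Subgraph, M.IsPerfectMatching) ↔ HasPM G Finset.univ := by
  constructor
  · rintro ⟨M, hM⟩
    rw [Subgraph.isPerfectMatching_iff] at hM
    choose f hf hf' using hM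
    refine ⟨f, fun v _ => ⟨Finset.mem_univ _, M.adj_sub (hf v), ?_⟩⟩
    exact (hf' (f v) v (hf v).symm).symm
  · rintro ⟨f, hf⟩
    refine ⟨{ verts := Set.univ, Adj := fun v w => w = f v, adj_sub := ?_, edge_vert := ?_,
              symm := ?_ }, ?_⟩
    · rintro v w rfl
      exact (hf v (Finset.mem_univ _)).2.1
    · intro v w _
      trivial
    · constructor
      rintro v w rfl
      exact ((hf v (Finset.mem_univ _)).2.2).symm
    · rw [Subgraph.isPerfectMatching_iff]
      intro v
      exact ⟨f v, rfl, fun w hw => hw⟩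

theorem exists_violator_univ {W : Type*} [Fintype W] [DecidableEq W] (G : SimpleGraph W)
    (h : ¬ HasPM G Finset.univ) :
    ∃ (A : Finset W) (C : Finset (Finset W)), IsPart G Finset.univ A C ∧ A.card < oddCount C := by
  classical
  rw [← exists_isPerfectMatching_iff, SimpleGraph.tutte] at h
  push Not at h
  obtain ⟨u, hu⟩ := h
  unfold IsTutteViolator at hu
  set H := ((⊤ : G.Subgraph).deleteVerts u).coe with hH
  have hadj : ∀ x y : ((⊤ : G.Subgraph).deleteVerts u).verts, G.Adj x.1 y.1 → H.Adj x y := by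
    intro x y hxy
    rw [hH, Subgraph.coe_adj, Subgraph.deleteVerts_adj]
    refine ⟨by trivial, ?_, by trivial, ?_, by simpa using hxy⟩
    · have := x.2; simp only [Subgraph.deleteVerts_verts, Set.mem_sdiff] at this; exact this.2
    · have := y.2; simp only [Subgraph.deleteVerts_verts, Set.mem_sdiff] at this; exact this.2
  let K : H.ConnectedComponent → Finset W := fun c =>
    Finset.univ.filter (fun w => ∃ h : w ∈ ((⊤ : G.Subgraph).deleteVerts u).verts,
      H.connectedComponentMk ⟨w, h⟩ = c)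
  have memK : ∀ c w, w ∈ K c ↔ ∃ h : w ∈ ((⊤ : G.Subgraph).deleteVerts u).verts,
      H.connectedComponentMk ⟨w, h⟩ = c := by
    intro c w; simp only [K, Finset.mem_filter, Finset.mem_univ, true_and]
  have hKne : ∀ c, (K c).Nonempty := by
    intro c
    obtain ⟨v, hv⟩ := c.exists_rep
    exact ⟨v.1, (memK c v.1).mpr ⟨v.2, hv⟩⟩
  have hKinj : Function.Injective K := by
    intro c d hcd
    obtain ⟨x, hx⟩ := hKne c
    have hx' := hcd ▸ hx
    obtain ⟨h1, h2⟩ := (memK c x).mp hx
    obtain ⟨h3, h4⟩ := (memK d x).mp hx'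
    rw [← h2, ← h4]
  have hKcard : ∀ c, (K c).card = c.supp.ncard := by
    intro c
    have : (K c : Set W) = Subtype.val '' c.supp := by
      ext w
      rw [Finset.mem_coe, memK]
      constructor
      · rintro ⟨h1, h2⟩
        exact ⟨⟨w, h1⟩, h2, rfl⟩
      · rintro ⟨⟨w', h1⟩, h2, rfl⟩
        exact ⟨h1, h2⟩
    rw [← Set.ncard_coe_finset, this, Set.ncard_image_of_injective _ Subtype.val_injective]
  refine ⟨u.toFinset, Finset.univ.image K, ?_, ?_⟩
  · refine ⟨Finset.subset_univ _, ?_, ?_, ?_, ?_, ?_⟩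
    · intro L hL
      obtain ⟨c, -, rfl⟩ := Finset.mem_image.mp hL
      exact hKne c
    · intro L hL x hx
      obtain ⟨c, -, rfl⟩ := Finset.mem_image.mp hL
      obtain ⟨h1, -⟩ := (memK c x).mp hx
      simp only [Subgraph.deleteVerts_verts, Set.mem_sdiff] at h1
      simp only [Finset.mem_sdiff, Finset.mem_univ, true_and, Set.mem_toFinset]
      exact h1.2
    · intro L hL L' hL' x hx hx'
      obtain ⟨c, -, rfl⟩ := Finset.mem_image.mp hL
      obtain ⟨d, -, rfl⟩ := Finset.mem_image.mp hL'
      obtain ⟨h1, h2⟩ := (memK c x).mp hx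
      obtain ⟨h3, h4⟩ := (memK d x).mp hx'
      rw [← h2, ← h4]
    · intro z _ hz
      rw [Set.mem_toFinset] at hz
      have h1 : z ∈ ((⊤ : G.Subgraph).deleteVerts u).verts := by
        simp only [Subgraph.deleteVerts_verts, Set.mem_sdiff]
        exact ⟨by trivial, hz⟩
      exact ⟨K (H.connectedComponentMk ⟨z, h1⟩), Finset.mem_image_of_mem _ (Finset.mem_univ _),
        (memK _ _).mpr ⟨h1, rfl⟩⟩
    · intro L hL L' hL' x hx y hy hxy
      obtain ⟨c, -, rfl⟩ := Finset.mem_image.mp hL
      obtain ⟨d, -, rfl⟩ := Finset.mem_image.mp hL'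
      obtain ⟨h1, h2⟩ := (memK c x).mp hx
      obtain ⟨h3, h4⟩ := (memK d y).mp hy
      rw [← h2, ← h4]
      congr 1
      exact ConnectedComponent.connectedComponentMk_eq_of_adj (hadj ⟨x, h1⟩ ⟨y, h3⟩ hxy)
  · have h1 : ((Finset.univ.image K).filter (fun L => Odd L.card) : Set (Finset W)) =
        K '' H.oddComponents := by
      ext L
      simp only [Finset.coe_filter, Finset.mem_image, Finset.mem_univ, true_and, Set.mem_ofPred_eq,
        Set.mem_image]
      constructor
      · rintro ⟨⟨c, rfl⟩, hodd⟩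
        refine ⟨c, ?_, rfl⟩
        rw [hKcard] at hodd
        exact hodd
      · rintro ⟨c, hc, rfl⟩
        refine ⟨⟨c, rfl⟩, ?_⟩
        rw [hKcard]
        exact hc
    have h2 : oddCount (Finset.univ.image K) = H.oddComponents.ncard := by
      unfold oddCount
      rw [← Set.ncard_coe_finset, h1, Set.ncard_image_of_injective _ hKinj]
    rw [h2]
    calc u.toFinset.card = u.ncard := by rw [Set.ncard_eq_toFinset_card']
      _ < _ := hu

/-- **Tutte's theorem**, hard direction, for `HasPM`. -/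
theorem exists_violator [DecidableEq V] (G : SimpleGraph V) (Z : Finset V) (h : ¬ HasPM G Z) :
    ∃ (A : Finset V) (C : Finset (Finset V)), IsPart G Z A C ∧ A.card < oddCount C := by
  classical
  have h' : ¬ HasPM (G.comap (Subtype.val : Z → V)) Finset.univ := by
    rintro ⟨f, hf⟩
    apply h
    refine ⟨fun v => if hv : v ∈ Z then (f ⟨v, hv⟩ : V) else v, fun v hv => ?_⟩
    have h1 := hf ⟨v, hv⟩ (Finset.mem_univ _)
    simp only [hv, dif_pos]
    refine ⟨(f ⟨v, hv⟩).2, h1.2.1, ?_⟩
    have h2 : (f ⟨v, hv⟩ : V) ∈ Z := (f ⟨v, hv⟩).2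
    simp only [h2, dif_pos]
    have : f ⟨(f ⟨v, hv⟩ : V), h2⟩ = ⟨v, hv⟩ := h1.2.2
    rw [this]
  obtain ⟨A, C, hP, hlt⟩ := exists_violator_univ _ h'
  let φ : Z ↪ V := Function.Embedding.subtype _
  have hφ : ∀ z : Z, φ z = z.1 := fun z => rfl
  refine ⟨A.map φ, C.map (Finset.mapEmbedding φ).toEmbedding, ?_, ?_⟩
  · refine ⟨?_, ?_, ?_, ?_, ?_, ?_⟩
    · intro x hx
      obtain ⟨y, -, rfl⟩ := Finset.mem_map.mp hx
      exact y.2
    · intro L hL
      obtain ⟨K, hK, rfl⟩ := Finset.mem_map.mp hL
      exact (Finset.map_nonempty).mpr (hP.ne K hK)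
    · intro L hL x hx
      obtain ⟨K, hK, rfl⟩ := Finset.mem_map.mp hL
      obtain ⟨y, hy, rfl⟩ := Finset.mem_map.mp hx
      refine Finset.mem_sdiff.mpr ⟨y.2, fun hA => ?_⟩
      rw [Finset.mem_map' φ] at hA
      exact (Finset.mem_sdiff.mp (hP.mem K hK hy)).2 hA
    · intro L hL L' hL' x hx hx'
      obtain ⟨K, hK, rfl⟩ := Finset.mem_map.mp hL
      obtain ⟨K', hK', rfl⟩ := Finset.mem_map.mp hL'
      obtain ⟨y, hy, rfl⟩ := Finset.mem_map.mp hx
      have hy' : y ∈ K' := (Finset.mem_map' φ).mp hx'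
      rw [hP.disj K hK K' hK' y hy hy']
    · intro z hz hzA
      obtain ⟨K, hK, hzK⟩ := hP.cover ⟨z, hz⟩ (Finset.mem_univ _) (fun h =>
        hzA (Finset.mem_map.mpr ⟨_, h, rfl⟩))
      exact ⟨K.map φ, Finset.mem_map.mpr ⟨K, hK, rfl⟩, Finset.mem_map.mpr ⟨_, hzK, rfl⟩⟩
    · intro L hL L' hL' x hx y hy hxy
      obtain ⟨K, hK, rfl⟩ := Finset.mem_map.mp hL
      obtain ⟨K', hK', rfl⟩ := Finset.mem_map.mp hL'
      obtain ⟨x', hx', rfl⟩ := Finset.mem_map.mp hx
      obtain ⟨y', hy', rfl⟩ := Finset.mem_map.mp hy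
      rw [hP.nadj K hK K' hK' x' hx' y' hy' hxy]
  · unfold oddCount at hlt ⊢
    rw [Finset.card_map, Finset.filter_map, Finset.card_map]
    refine lt_of_lt_of_eq hlt ?_
    congr 1
    ext K
    simp [Finset.card_map]

/-! ### maximal barriers -/

variable [DecidableEq V]

/-- parity of the number of odd parts -/
theorem IsPart.parity {G : SimpleGraph V} {Z A : Finset V} {C : Finset (Finset V)}
    (h : IsPart G Z A C) : (oddCount C + A.card) % 2 = Z.card % 2 := by
  have h1 : Z.card = A.card + ∑ K ∈ C, K.card := by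
    have hu : Z \ A = C.biUnion id := by
      ext z
      rw [Finset.mem_biUnion]
      constructor
      · intro hz
        rw [Finset.mem_sdiff] at hz
        obtain ⟨K, hK, hzK⟩ := h.cover z hz.1 hz.2
        exact ⟨K, hK, hzK⟩
      · rintro ⟨K, hK, hzK⟩
        exact h.mem K hK hzK
    have hc : (Z \ A).card = ∑ K ∈ C, K.card := by
      rw [hu, Finset.card_biUnion]
      · rfl
      · intro K hK L hL hKL
        change Disjoint K L
        rw [Finset.disjoint_left]
        intro x hx hx'
        exact hKL (h.disj K hK L hL x hx hx')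
    have := Finset.card_sdiff_add_card_eq_card h.sub
    omega
  have h2 : (∑ K ∈ C, K.card) % 2 = oddCount C % 2 := by
    unfold oddCount
    rw [Finset.sum_nat_mod, Finset.card_filter]
    congr 1
    refine Finset.sum_congr rfl fun K _ => ?_
    split_ifs with hK
    · exact Nat.odd_iff.mp hK
    · exact Nat.even_iff.mp (Nat.not_odd_iff_even.mp hK)
  omega

/-- **Maximal barrier.** If `G[Z]` has no perfect matching, there is a barrier all of whose
parts are odd and factor critical. -/
theorem exists_barrier (G : SimpleGraph V) (Z : Finset V) (h : ¬ HasPM G Z) :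
    ∃ (A : Finset V) (C : Finset (Finset V)), IsPart G Z A C ∧ A.card < C.card ∧
      (∀ K ∈ C, Odd K.card) ∧ ∀ K ∈ C, ∀ v ∈ K, HasPM G (K.erase v) := by
  classical
  -- choose a pair maximising `(card Z + 1) * (odd - |A|) + |A|`
  let S : Finset (Finset V × Finset (Finset V)) :=
    (Z.powerset ×ˢ Z.powerset.powerset).filter (fun p => IsPart G Z p.1 p.2 ∧
      p.1.card < oddCount p.2)
  have hmemS : ∀ A C, IsPart G Z A C → A.card < oddCount C → (A, C) ∈ S := by
    intro A C hP hlt
    simp only [S, Finset.mem_filter, Finset.mem_product, Finset.mem_powerset]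
    refine ⟨⟨hP.sub, ?_⟩, hP, hlt⟩
    intro K hK
    rw [Finset.mem_powerset]
    exact (hP.mem K hK).trans Finset.sdiff_subset
  obtain ⟨A0, C0, hP0, hlt0⟩ := exists_violator G Z h
  obtain ⟨⟨A, C⟩, hAC, hmax⟩ := Finset.exists_max_image S
    (fun p => (Z.card + 1) * (oddCount p.2 - p.1.card) + p.1.card) ⟨_, hmemS A0 C0 hP0 hlt0⟩
  simp only [S, Finset.mem_filter, Finset.mem_product, Finset.mem_powerset] at hAC
  obtain ⟨-, hP, hlt⟩ := hAC
  have hbad : ∀ A' C', IsPart G Z A' C' → A.card < A'.card →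
      oddCount C + A'.card ≤ oddCount C' + A.card → False := by
    intro A' C' hP' hc hle
    have h1 := hmax (A', C') (hmemS A' C' hP' (by omega))
    simp only at h1
    have h2 : oddCount C - A.card ≤ oddCount C' - A'.card := by omega
    have h3 := Nat.mul_le_mul_left (Z.card + 1) h2
    omega
  -- refine one part
  have hrefine : ∀ K ∈ C, ∀ v ∈ K, ∀ (B : Finset V) (D : Finset (Finset V)),
      IsPart G (K.erase v) B D → IsPart G Z (insert v (A ∪ B)) (C.erase K ∪ D) ∧
        (insert v (A ∪ B)).card = A.card + B.card + 1 ∧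
        oddCount (C.erase K ∪ D) + (if Odd K.card then 1 else 0) = oddCount C + oddCount D := by
    intro K hK v hv B D hD
    have hKZ : ∀ x ∈ K, x ∈ Z ∧ x ∉ A := fun x hx => Finset.mem_sdiff.mp (hP.mem K hK hx)
    have hBK : ∀ x ∈ B, x ∈ K ∧ x ≠ v := fun x hx => by
      have := hD.sub hx
      rw [Finset.mem_erase] at this
      exact ⟨this.2, this.1⟩
    have hDK : ∀ L ∈ D, ∀ x ∈ L, x ∈ K ∧ x ≠ v ∧ x ∉ B := fun L hL x hx => by
      have := hD.mem L hL hx
      rw [Finset.mem_sdiff, Finset.mem_erase] at this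
      exact ⟨this.1.2, this.1.1, this.2⟩
    have hdisj : Disjoint (C.erase K) D := by
      rw [Finset.disjoint_left]
      intro L hL hL'
      rw [Finset.mem_erase] at hL
      obtain ⟨x, hx⟩ := hP.ne L hL.2
      exact hL.1 (hP.disj L hL.2 K hK x hx (hDK L hL' x hx).1)
    refine ⟨⟨?_, ?_, ?_, ?_, ?_, ?_⟩, ?_, ?_⟩
    · intro x hx
      rw [Finset.mem_insert, Finset.mem_union] at hx
      rcases hx with rfl | hx | hx
      · exact (hKZ _ hv).1
      · exact hP.sub hx
      · exact (hKZ _ (hBK x hx).1).1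
    · intro L hL
      rw [Finset.mem_union, Finset.mem_erase] at hL
      rcases hL with hL | hL
      · exact hP.ne L hL.2
      · exact hD.ne L hL
    · intro L hL x hx
      rw [Finset.mem_union, Finset.mem_erase] at hL
      rw [Finset.mem_sdiff, Finset.mem_insert, Finset.mem_union, not_or, not_or]
      rcases hL with hL | hL
      · have h1 := Finset.mem_sdiff.mp (hP.mem L hL.2 hx)
        have hxK : x ∉ K := fun h => hL.1 (hP.disj L hL.2 K hK x hx h)
        exact ⟨h1.1, fun h => hxK (h ▸ hv), h1.2, fun h => hxK (hBK x h).1⟩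
      · have h1 := hDK L hL x hx
        have h2 := hKZ x h1.1
        exact ⟨h2.1, h1.2.1, h2.2, h1.2.2⟩
    · intro L hL L' hL' x hx hx'
      rw [Finset.mem_union, Finset.mem_erase] at hL hL'
      rcases hL with hL | hL <;> rcases hL' with hL' | hL'
      · exact hP.disj L hL.2 L' hL'.2 x hx hx'
      · exact absurd (hP.disj L hL.2 K hK x hx (hDK L' hL' x hx').1) hL.1
      · exact absurd (hP.disj L' hL'.2 K hK x hx' (hDK L hL x hx).1) hL'.1
      · exact hD.disj L hL L' hL' x hx hx'
    · intro z hz hzn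
      rw [Finset.mem_insert, Finset.mem_union, not_or, not_or] at hzn
      obtain ⟨L, hL, hzL⟩ := hP.cover z hz hzn.2.1
      by_cases hLK : L = K
      · subst hLK
        obtain ⟨M, hM, hzM⟩ := hD.cover z (Finset.mem_erase.mpr ⟨hzn.1, hzL⟩) hzn.2.2
        exact ⟨M, Finset.mem_union_right _ hM, hzM⟩
      · exact ⟨L, Finset.mem_union_left _ (Finset.mem_erase.mpr ⟨hLK, hL⟩), hzL⟩
    · intro L hL L' hL' x hx y hy hxy
      rw [Finset.mem_union, Finset.mem_erase] at hL hL'
      rcases hL with hL | hL <;> rcases hL' with hL' | hL'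
      · exact hP.nadj L hL.2 L' hL'.2 x hx y hy hxy
      · exact absurd (hP.nadj L hL.2 K hK x hx y (hDK L' hL' y hy).1 hxy) hL.1
      · exact absurd (hP.nadj L' hL'.2 K hK y hy x (hDK L hL x hx).1 hxy.symm) hL'.1
      · exact hD.nadj L hL L' hL' x hx y hy hxy
    · rw [Finset.card_insert_of_notMem, Finset.card_union_of_disjoint]
      · rw [Finset.disjoint_left]
        intro x hx hx'
        exact (hKZ x (hBK x hx').1).2 hx
      · rw [Finset.mem_union, not_or]
        exact ⟨(hKZ v hv).2, fun h => (hBK v h).2 rfl⟩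
    · unfold oddCount
      rw [Finset.filter_union, Finset.card_union_of_disjoint
        (Finset.disjoint_filter_filter hdisj), Finset.filter_erase]
      split_ifs with hodd
      · have hm : K ∈ C.filter (fun K => Odd K.card) := Finset.mem_filter.mpr ⟨hK, hodd⟩
        rw [Finset.card_erase_of_mem hm]
        have := Finset.card_pos.mpr ⟨K, hm⟩
        omega
      · rw [Finset.erase_eq_of_notMem]
        · omega
        · intro hm
          exact hodd (Finset.mem_filter.mp hm).2
  have hodd : ∀ K ∈ C, Odd K.card := by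
    intro K hK
    by_contra hKe
    obtain ⟨v, hv⟩ := hP.ne K hK
    -- the trivial partition of `K.erase v`
    have hcard : (K.erase v).card = K.card - 1 := Finset.card_erase_of_mem hv
    have hKpos : 0 < K.card := Finset.card_pos.mpr ⟨v, hv⟩
    have hoddE : Odd (K.erase v).card := by
      rw [hcard]
      rw [Nat.not_odd_iff_even] at hKe
      obtain ⟨m, hm⟩ := hKe
      exact ⟨m - 1, by omega⟩
    have hne : (K.erase v).Nonempty := by
      rw [← Finset.card_pos]
      rcases hoddE with ⟨m, hm⟩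
      omega
    have hD : IsPart G (K.erase v) ∅ {K.erase v} := by
      refine ⟨Finset.empty_subset _, ?_, ?_, ?_, ?_, ?_⟩
      · intro L hL; rw [Finset.mem_singleton.mp hL]; exact hne
      · intro L hL; rw [Finset.mem_singleton.mp hL]; simp
      · intro L hL L' hL' _ _ _
        rw [Finset.mem_singleton.mp hL, Finset.mem_singleton.mp hL']
      · intro z hz _; exact ⟨_, Finset.mem_singleton_self _, hz⟩
      · intro L hL L' hL' _ _ _ _ _
        rw [Finset.mem_singleton.mp hL, Finset.mem_singleton.mp hL']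
    obtain ⟨h1, h2, h3⟩ := hrefine K hK v hv _ _ hD
    have h4 : oddCount {K.erase v} = 1 := by
      unfold oddCount
      rw [Finset.filter_singleton, if_pos hoddE, Finset.card_singleton]
    rw [if_neg hKe, h4] at h3
    rw [Finset.card_empty] at h2
    exact hbad _ _ h1 (by omega) (by omega)
  refine ⟨A, C, hP, ?_, hodd, ?_⟩
  · unfold oddCount at hlt
    exact lt_of_lt_of_le hlt (Finset.card_filter_le _ _)
  · intro K hK v hv
    by_contra hno
    obtain ⟨B, D, hD, hltD⟩ := exists_violator G (K.erase v) hno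
    have hpar := hD.parity
    have hcard : (K.erase v).card = K.card - 1 := Finset.card_erase_of_mem hv
    have hKo := hodd K hK
    have hpar' : (K.card - 1) % 2 = 0 := by
      obtain ⟨m, hm⟩ := hKo
      omega
    rw [hcard, hpar'] at hpar
    obtain ⟨h1, h2, h3⟩ := hrefine K hK v hv _ _ hD
    rw [if_pos hKo] at h3
    exact hbad _ _ h1 (by omega) (by omega)

end Pool.Agent.H9.MMN
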