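import Mathlib
import Pool.Agent.H9.MMN.PM

/-!
# Alternating matrices and perfect matchings

`NS A Z`: the principal submatrix of `A` on `Z` is nonsingular (stated with vectors supported on `Z`).
-/

namespace Pool.Agent.H9.MMN

open Matrix

variable {V : Type*} [Fintype V] [DecidableEq V]

/-- skew-symmetric matrix -/
def Skew (A : Matrix V V ℚ) : Prop := ∀ v w, A v w = - A w v

/-- `A[Z]` is nonsingular -/
def NS (A : Matrix V V ℚ) (Z : Finset V) : Prop :=
  ∀ x : V → ℚ, (∀ v, v ∉ Z → x v = 0) → (∀ v ∈ Z, (A *ᵥ x) v = 0) → x = 0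

variable {A : Matrix V V ℚ} {Z : Finset V}

omit [DecidableEq V] in
theorem Skew.dot (hA : Skew A) (x y : V → ℚ) : x ⬝ᵥ (A *ᵥ y) = - (y ⬝ᵥ (A *ᵥ x)) := by
  simp only [dotProduct, mulVec, Finset.mul_sum]
  rw [Finset.sum_comm, ← Finset.sum_neg_distrib]
  refine Finset.sum_congr rfl fun w _ => ?_
  rw [← Finset.sum_neg_distrib]
  refine Finset.sum_congr rfl fun v _ => ?_
  rw [hA v w]
  ring

omit [DecidableEq V] in
theorem Skew.dot_self (hA : Skew A) (x : V → ℚ) : x ⬝ᵥ (A *ᵥ x) = 0 := by
  have := hA.dot x x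
  linarith

omit [DecidableEq V] in
theorem dot_of_supp {x y : V → ℚ} {b : V} (hx : ∀ v, v ∉ Z → x v = 0) (hb : b ∈ Z)
    (hy : ∀ v ∈ Z, v ≠ b → y v = 0) : x ⬝ᵥ y = x b * y b := by
  rw [dotProduct]
  refine Finset.sum_eq_single b (fun v _ hv => ?_) (fun h => absurd (Finset.mem_univ _) h)
  by_cases hvZ : v ∈ Z
  · rw [hy v hvZ hv, mul_zero]
  · rw [hx v hvZ, zero_mul]

omit [DecidableEq V] in
theorem dot_congr_supp {x y y' : V → ℚ} (hx : ∀ v, v ∉ Z → x v = 0)
    (hy : ∀ v ∈ Z, y v = y' v) : x ⬝ᵥ y = x ⬝ᵥ y' := by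
  rw [dotProduct, dotProduct]
  refine Finset.sum_congr rfl fun v _ => ?_
  by_cases hvZ : v ∈ Z
  · rw [hy v hvZ]
  · rw [hx v hvZ, zero_mul, zero_mul]

/-- solution operator -/
theorem NS.exists_solve (h : NS A Z) : ∃ R : (V → ℚ) →ₗ[ℚ] (V → ℚ),
    ∀ r, (∀ v, v ∉ Z → R r v = 0) ∧ ∀ v ∈ Z, (A *ᵥ (R r)) v = r v := by
  classical
  -- restriction to `Z`
  let P : (V → ℚ) →ₗ[ℚ] (V → ℚ) :=
    { toFun := fun x v => if v ∈ Z then x v else 0
      map_add' := by
        intro x y; ext v
        by_cases hv : v ∈ Z <;> simp [hv]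
      map_smul' := by
        intro c x; ext v
        by_cases hv : v ∈ Z <;> simp [hv] }
  have hP : ∀ x v, P x v = if v ∈ Z then x v else 0 := fun x v => rfl
  let L : (V → ℚ) →ₗ[ℚ] (V → ℚ) := P ∘ₗ (Matrix.mulVecLin A) ∘ₗ P + (LinearMap.id - P)
  have hL : ∀ x v, L x v = (if v ∈ Z then (A *ᵥ (P x)) v else 0) + (x v - P x v) := fun x v => rfl
  have hinj : Function.Injective L := by
    rw [injective_iff_map_eq_zero]
    intro x hx
    have h1 : ∀ v, v ∉ Z → x v = 0 := by
      intro v hv
      have := congrFun hx v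
      rw [hL, hP] at this
      simpa [hv] using this
    have hPx : P x = x := by
      ext v
      rw [hP]
      split_ifs with hv
      · rfl
      · exact (h1 v hv).symm
    refine h x h1 fun v hv => ?_
    have := congrFun hx v
    rw [hL, hPx] at this
    simpa [hv] using this
  let e := LinearEquiv.ofInjectiveEndo L hinj
  have he : ∀ r, L (e.symm r) = r := fun r => by
    have := e.apply_symm_apply r
    rwa [LinearEquiv.coe_ofInjectiveEndo] at this
  refine ⟨e.symm.toLinearMap ∘ₗ P, fun r => ?_⟩
  have h1 := he (P r)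
  have h2 : ∀ v, v ∉ Z → (e.symm (P r)) v = 0 := by
    intro v hv
    have := congrFun h1 v
    rw [hL, hP, hP] at this
    simpa [hv] using this
  have hPx : P (e.symm (P r)) = e.symm (P r) := by
    ext v
    rw [hP]
    split_ifs with hv
    · rfl
    · exact (h2 v hv).symm
  refine ⟨h2, fun v hv => ?_⟩
  have := congrFun h1 v
  rw [hL, hPx, hP] at this
  simpa [hv] using this

theorem NS.ext (h : NS A Z) {x y : V → ℚ} (hx : ∀ v, v ∉ Z → x v = 0)
    (hy : ∀ v, v ∉ Z → y v = 0) (he : ∀ v ∈ Z, (A *ᵥ x) v = (A *ᵥ y) v) : x = y := by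
  have := h (x - y) (fun v hv => by simp [hx v hv, hy v hv])
    (fun v hv => by rw [mulVec_sub, Pi.sub_apply, he v hv, sub_self])
  exact sub_eq_zero.mp this

/-- removing a pair with nonzero inverse entry -/
theorem NS.sdiff_pair (hA : Skew A) (h : NS A Z) {b b' : V} (hb : b ∈ Z) (hb' : b' ∈ Z)
    {r : V → ℚ} (hr : ∀ v, v ∉ Z → r v = 0) (hAr : ∀ v ∈ Z, (A *ᵥ r) v = if v = b then 1 else 0)
    (hrb : r b' ≠ 0) : NS A (Z \ {b, b'}) ∧ b ≠ b' := by
  have hrb0 : r b = 0 := by
    have h1 := hA.dot_self r
    rw [dot_of_supp hr hb (fun v hv hvb => by rw [hAr v hv, if_neg hvb]), hAr b hb, if_pos rfl,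
      mul_one] at h1
    exact h1
  have hbb : b ≠ b' := fun h => hrb (h ▸ hrb0)
  refine ⟨?_, hbb⟩
  obtain ⟨R, hR⟩ := h.exists_solve
  set r' := R (fun v => if v = b' then 1 else 0) with hr'
  obtain ⟨hr'1, hr'2⟩ := hR (fun v => if v = b' then 1 else 0)
  have hr'b : r' b = - r b' := by
    have h1 := hA.dot r' r
    rw [dot_of_supp hr'1 hb (fun v hv hvb => by rw [hAr v hv, if_neg hvb]), hAr b hb, if_pos rfl,
      dot_of_supp hr hb' (fun v hv hvb => by rw [hr'2 v hv, if_neg hvb]), hr'2 b' hb', if_pos rfl,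
      mul_one, mul_one] at h1
    exact h1
  have hr'b' : r' b' = 0 := by
    have h1 := hA.dot_self r'
    rw [dot_of_supp hr'1 hb' (fun v hv hvb => by rw [hr'2 v hv, if_neg hvb]), hr'2 b' hb',
      if_pos rfl, mul_one] at h1
    exact h1
  intro w hw hAw
  have hwZ : ∀ v, v ∉ Z → w v = 0 := fun v hv => hw v (fun h => hv (Finset.mem_sdiff.mp h).1)
  set α := (A *ᵥ w) b with hα
  set β := (A *ᵥ w) b' with hβ
  have heq : w = α • r + β • r' := by
    refine h.ext hwZ ?_ ?_
    · intro v hv
      rw [Pi.add_apply, Pi.smul_apply, Pi.smul_apply, hr v hv, show r' v = 0 from hr'1 v hv]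
      simp
    · intro v hv
      rw [mulVec_add, mulVec_smul, mulVec_smul, Pi.add_apply, Pi.smul_apply, Pi.smul_apply,
        hAr v hv, hr'2 v hv]
      by_cases h1 : v = b
      · subst h1
        simp [hbb, hα]
      · by_cases h2 : v = b'
        · subst h2
          simp [h1, hβ]
        · have := hAw v (by
            rw [Finset.mem_sdiff, Finset.mem_insert, Finset.mem_singleton, not_or]
            exact ⟨hv, h1, h2⟩)
          simp [h1, h2, this]
  have hwb : w b = 0 := hw b (by simp)
  have hwb' : w b' = 0 := hw b' (by simp)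
  have e1 : w b = α * r b + β * r' b := by rw [heq]; simp
  have e2 : w b' = α * r b' + β * r' b' := by rw [heq]; simp
  rw [hwb, hrb0, hr'b] at e1
  rw [hwb', hr'b'] at e2
  have hβ0 : β = 0 := by
    have : β * r b' = 0 := by linarith
    rcases mul_eq_zero.mp this with h | h
    · exact h
    · exact absurd h hrb
  have hα0 : α = 0 := by
    have : α * r b' = 0 := by linarith
    rcases mul_eq_zero.mp this with h | h
    · exact h
    · exact absurd h hrb
  rw [heq, hα0, hβ0]
  simp

/-- **A nonsingular skew-symmetric matrix supported on a graph gives a perfect matching.** -/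
theorem hasPM_of_NS {G : SimpleGraph V} (hA : Skew A) (hG : ∀ v w, A v w ≠ 0 → G.Adj v w) :
    ∀ (n : ℕ) (Z : Finset V), Z.card = n → NS A Z → HasPM G Z := by
  intro n
  induction n using Nat.strong_induction_on with
  | _ n ih =>
    intro Z hn h
    rcases Z.eq_empty_or_nonempty with rfl | ⟨v, hv⟩
    · exact HasPM.empty G
    obtain ⟨R, hR⟩ := h.exists_solve
    obtain ⟨hr1, hr2⟩ := hR (fun w => if w = v then 1 else 0)
    set r := R (fun w => if w = v then 1 else 0) with hr
    have h1 : (A *ᵥ r) v = 1 := by rw [hr2 v hv, if_pos rfl]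
    have h2 : ∃ w, A v w * r w ≠ 0 := by
      by_contra hcon
      push Not at hcon
      have : (A *ᵥ r) v = 0 := by
        rw [mulVec, dotProduct]
        exact Finset.sum_eq_zero fun w _ => hcon w
      rw [this] at h1
      exact zero_ne_one h1
    obtain ⟨w, hw⟩ := h2
    have hw1 : A v w ≠ 0 := left_ne_zero_of_mul hw
    have hw2 : r w ≠ 0 := right_ne_zero_of_mul hw
    have hwZ : w ∈ Z := by
      by_contra hwZ
      exact hw2 (hr1 w hwZ)
    obtain ⟨h3, -⟩ := h.sdiff_pair hA hv hwZ hr1 hr2 hw2
    have hlt : (Z \ {v, w}).card < n := by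
      rw [← hn]
      refine Finset.card_lt_card ?_
      rw [Finset.ssubset_iff_of_subset Finset.sdiff_subset]
      exact ⟨v, hv, by simp⟩
    have h4 := ih _ hlt _ rfl h3
    have h5 := h4.union (HasPM.pair (hG v w hw1)) (by
      rw [Finset.disjoint_left]
      intro z hz hz'
      exact (Finset.mem_sdiff.mp hz).2 hz')
    have h6 : Z \ {v, w} ∪ {v, w} = Z := by
      rw [Finset.sdiff_union_of_subset]
      intro z hz
      rw [Finset.mem_insert, Finset.mem_singleton] at hz
      rcases hz with rfl | rfl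
      · exact hv
      · exact hwZ
    rwa [h6] at h5

/-! ### generic matrices -/

open Classical in
/-- the matrix `X` restricted to the edges of `G` -/
noncomputable def res (X : Matrix V V ℚ) (G : SimpleGraph V) : Matrix V V ℚ :=
  fun v w => if G.Adj v w then X v w else 0

omit [Fintype V] [DecidableEq V] in
theorem res_skew {X : Matrix V V ℚ} (hX : ∀ v w, X v w = - X w v) (G : SimpleGraph V) (v w : V) :
    res X G v w = - res X G w v := by
  unfold res
  by_cases h : G.Adj v w
  · rw [if_pos h, if_pos h.symm, hX]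
  · rw [if_neg h, if_neg (fun h' => h h'.symm), neg_zero]

omit [Fintype V] [DecidableEq V] in
theorem res_adj {X : Matrix V V ℚ} {G : SimpleGraph V} {v w : V} (h : res X G v w ≠ 0) :
    G.Adj v w := by
  unfold res at h
  by_contra hcon
  rw [if_neg hcon] at h
  exact h rfl

open Classical in
/-- matrix whose determinant vanishes iff `res X G` is singular on `Z` -/
noncomputable def padded {R : Type*} [CommRing R] (X : V × V → R) (G : SimpleGraph V)
    (Z : Finset V) : Matrix V V R :=
  fun v w => if v ∈ Z ∧ w ∈ Z then (if G.Adj v w then X (v, w) - X (w, v) else 0)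
    else if v = w then 1 else 0

theorem exists_generic (V : Type*) [Fintype V] [DecidableEq V] : ∃ X : Matrix V V ℚ, Skew X ∧
    ∀ (G : SimpleGraph V) (Z : Finset V), HasPM G Z → NS (res X G) Z := by
  classical
  -- the polynomial for one pair
  let p : SimpleGraph V × Finset V → MvPolynomial (V × V) ℚ := fun q =>
    (padded (fun i => (MvPolynomial.X i : MvPolynomial (V × V) ℚ)) q.1 q.2).det
  have hpad : ∀ (e : V × V → ℚ) (q : SimpleGraph V × Finset V),
      MvPolynomial.eval e (p q) = (padded e q.1 q.2).det := by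
    intro e q
    simp only [p]
    rw [RingHom.map_det]
    congr 1
    ext v w
    simp only [RingHom.mapMatrix_apply, Matrix.map_apply, padded]
    split_ifs <;> simp
  have hNS : ∀ (e : V × V → ℚ) (q : SimpleGraph V × Finset V), (padded e q.1 q.2).det ≠ 0 →
      NS (res (fun v w => e (v, w) - e (w, v)) q.1) q.2 := by
    intro e q hdet x hx hAx
    by_contra hx0
    apply hdet
    rw [← Matrix.exists_mulVec_eq_zero_iff]
    refine ⟨x, hx0, ?_⟩
    ext v
    by_cases hv : v ∈ q.2
    · rw [Pi.zero_apply, ← hAx v hv]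
      simp only [mulVec, dotProduct]
      refine Finset.sum_congr rfl fun w _ => ?_
      by_cases hw : w ∈ q.2
      · simp only [padded, hv, hw, and_self, if_true, res]
      · rw [hx w hw, mul_zero, mul_zero]
    · rw [Pi.zero_apply, mulVec, dotProduct]
      refine Finset.sum_eq_zero fun w _ => ?_
      simp only [padded, hv, false_and, if_false]
      by_cases hvw : v = w
      · subst hvw
        rw [hx v hv, mul_zero]
      · rw [if_neg hvw, zero_mul]
  have hne : ∀ q : SimpleGraph V × Finset V, HasPM q.1 q.2 → p q ≠ 0 := by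
    rintro ⟨G, Z⟩ ⟨f, hf⟩ h0
    let c : V → ℚ := fun v => ((Fintype.equivFin V v : ℕ) : ℚ)
    have hc : ∀ v w, c v = c w → v = w := by
      intro v w h
      simp only [c, Nat.cast_inj] at h
      exact (Fintype.equivFin V).injective (Fin.ext h)
    let e : V × V → ℚ := fun q => if q.2 = f q.1 then c q.1 else 0
    have h1 := hpad e (G, Z)
    rw [h0, map_zero] at h1
    have h2 : (padded e G Z).det = 0 := h1.symm
    rw [← Matrix.exists_mulVec_eq_zero_iff] at h2
    obtain ⟨x, hx0, hx⟩ := h2
    apply hx0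
    have hoff : ∀ v, v ∉ Z → x v = 0 := by
      intro v hv
      have := congrFun hx v
      rw [Pi.zero_apply, mulVec, dotProduct] at this
      rw [← this]
      rw [Finset.sum_eq_single v]
      · simp [padded, hv]
      · intro w _ hw
        simp only [padded, hv, false_and, if_false, if_neg (Ne.symm hw), zero_mul]
      · intro h; exact absurd (Finset.mem_univ _) h
    ext v
    by_cases hv : v ∈ Z
    · -- use the row of `f v`
      obtain ⟨h3, h4, h5⟩ := hf v hv
      have := congrFun hx (f v)
      rw [Pi.zero_apply, mulVec, dotProduct, Finset.sum_eq_single v] at this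
      · simp only [padded, h3, hv, and_self, if_true] at this
        rw [if_pos h4.symm] at this
        have h6 : e (f v, v) - e (v, f v) ≠ 0 := by
          simp only [e, h5, if_true]
          intro h
          exact h4.ne (hc v (f v) (by linarith))
        rcases mul_eq_zero.mp this with h | h
        · exact absurd h h6
        · exact h
      · intro w _ hw
        by_cases hwZ : w ∈ Z
        · have h6 : e (f v, w) = 0 := by
            simp only [e, h5, if_neg hw]
          have h7 : e (w, f v) = 0 := by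
            simp only [e]
            rw [if_neg]
            intro h8
            apply hw
            rw [← (hf w hwZ).2.2, ← h8, h5]
          simp only [padded, h3, hwZ, and_self, if_true, h6, h7, sub_self, ite_self, zero_mul]
        · rw [hoff w hwZ, mul_zero]
      · intro h; exact absurd (Finset.mem_univ _) h
    · exact hoff v hv
  -- the product
  let P : MvPolynomial (V × V) ℚ :=
    ∏ q ∈ (Finset.univ : Finset (SimpleGraph V × Finset V)).filter (fun q => HasPM q.1 q.2), p q
  have hP : P ≠ 0 := by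
    refine Finset.prod_ne_zero_iff.mpr fun q hq => hne q (Finset.mem_filter.mp hq).2
  obtain ⟨e, he⟩ : ∃ e : V × V → ℚ, MvPolynomial.eval e P ≠ 0 := by
    by_contra hcon
    push Not at hcon
    exact hP (MvPolynomial.funext fun e => by rw [hcon e, map_zero])
  refine ⟨fun v w => e (v, w) - e (w, v), fun v w => by ring, fun G Z hGZ => ?_⟩
  refine hNS e (G, Z) ?_
  rw [← hpad]
  simp only [P, map_prod] at he
  exact Finset.prod_ne_zero_iff.mp he (G, Z) (Finset.mem_filter.mpr ⟨Finset.mem_univ _, hGZ⟩)

end Pool.Agent.H9.MMN
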