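import Mathlib
import Pool.Agent.H9.MMN.Alt
import Pool.Agent.H9.MMN.Tutte

/-!
# Bypassing an edge

`byp G u v` is `G` together with all pairs `ab`, `a` a neighbour of `u` and `b` a neighbour of `v`.
-/

namespace Pool.Agent.H9.MMN

open Matrix

variable {V : Type*}

/-- bypass of the edge `uv` -/
def byp (G : SimpleGraph V) (u v : V) : SimpleGraph V where
  Adj x y := x ≠ y ∧ (G.Adj x y ∨ (G.Adj u x ∧ G.Adj v y) ∨ (G.Adj v x ∧ G.Adj u y))
  symm := by
    constructor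
    rintro x y ⟨h1, h2 | ⟨h2, h3⟩ | ⟨h2, h3⟩⟩
    · exact ⟨h1.symm, Or.inl h2.symm⟩
    · exact ⟨h1.symm, Or.inr (Or.inr ⟨h3, h2⟩)⟩
    · exact ⟨h1.symm, Or.inr (Or.inl ⟨h3, h2⟩)⟩
  loopless := by
    constructor
    rintro x ⟨h, -⟩
    exact h rfl

theorem byp_comm (G : SimpleGraph V) (u v : V) : byp G u v = byp G v u := by
  ext x y
  simp only [byp]
  tauto

variable {G : SimpleGraph V} {u v : V} {Z : Finset V}

theorem byp_of_adj {x y : V} (h : G.Adj x y) : (byp G u v).Adj x y := ⟨h.ne, Or.inl h⟩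

theorem HasPM.byp (h : HasPM G Z) : HasPM (byp G u v) Z :=
  h.mono' fun _ _ _ _ h => byp_of_adj h

/-- edges of the bypass at `u` are old -/
theorem byp_left {x : V} (_huv : G.Adj u v) (h : (byp G u v).Adj u x) : G.Adj u x := by
  obtain ⟨h1, h2 | ⟨h2, h3⟩ | ⟨h2, h3⟩⟩ := h
  · exact h2
  · exact absurd h2 (by simp)
  · exact h3

theorem byp_right {x : V} (huv : G.Adj u v) (h : (byp G u v).Adj v x) : G.Adj v x := by
  rw [byp_comm] at h
  exact byp_left huv.symm h

variable [DecidableEq V]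

theorem byp_hasPM_sdiff (huv : G.Adj u v) (hu : u ∈ Z) (hv : v ∈ Z) (h : HasPM (byp G u v) Z) :
    HasPM (byp G u v) (Z \ {u, v}) := by
  obtain ⟨f, hf⟩ := h
  by_cases hfu : f u = v
  · have := HasPM.sdiff_pair hf hu
    rwa [hfu] at this
  obtain ⟨h1, h2, h3⟩ := hf u hu
  obtain ⟨h4, h5, h6⟩ := hf v hv
  have h2' := byp_left huv h2
  have h5' := byp_right huv h5
  have hne : f u ≠ f v := by
    intro h
    apply huv.ne
    rw [← h3, ← h6, h]
  have hfvu : f v ≠ u := by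
    intro h
    apply hfu
    rw [← h, h6]
  have hadj : (byp G u v).Adj (f u) (f v) := ⟨hne, Or.inr (Or.inl ⟨h2', h5'⟩)⟩
  have h7 : HasPM (byp G u v) (((Z \ {u, f u}) \ {v, f v})) := by
    refine HasPM.of_closed hf (Finset.sdiff_subset.trans Finset.sdiff_subset) fun w hw => ?_
    simp only [Finset.mem_sdiff, Finset.mem_insert, Finset.mem_singleton, not_or] at hw ⊢
    obtain ⟨⟨w1, w2, w3⟩, w4, w5⟩ := hw
    refine ⟨⟨(hf w w1).1, ?_, ?_⟩, ?_, ?_⟩
    · intro h; exact w3 (by rw [← h, (hf w w1).2.2])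
    · intro h; exact w2 (by rw [← (hf w w1).2.2, h, h3])
    · intro h; exact w5 (by rw [← h, (hf w w1).2.2])
    · intro h; exact w4 (by rw [← (hf w w1).2.2, h, h6])
  have h8 : Z \ {u, v} = ((Z \ {u, f u}) \ {v, f v}) ∪ {f u, f v} := by
    ext z
    simp only [Finset.mem_sdiff, Finset.mem_insert, Finset.mem_singleton, not_or,
      Finset.mem_union]
    constructor
    · rintro ⟨a1, a2, a3⟩
      by_cases b1 : z = f u
      · exact Or.inr (Or.inl b1)
      · by_cases b2 : z = f v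
        · exact Or.inr (Or.inr b2)
        · exact Or.inl ⟨⟨a1, a2, b1⟩, a3, b2⟩
    · rintro (⟨⟨a1, a2, a3⟩, a4, a5⟩ | h | h)
      · exact ⟨a1, a2, a4⟩
      · subst h
        exact ⟨h1, h2.ne', hfu⟩
      · subst h
        exact ⟨h4, hfvu, h5.ne'⟩
  rw [h8]
  refine HasPM.union h7 (HasPM.pair hadj) ?_
  rw [Finset.disjoint_left]
  intro z hz hz'
  simp only [Finset.mem_sdiff, Finset.mem_insert, Finset.mem_singleton, not_or] at hz hz'
  rcases hz' with h | h
  · exact hz.1.2.2 h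
  · exact hz.2.2 h

theorem hasPM_of_sdiff_pair {H : SimpleGraph V} (huv : H.Adj u v) (hu : u ∈ Z) (hv : v ∈ Z)
    (h : HasPM H (Z \ {u, v})) : HasPM H Z := by
  have h5 := h.union (HasPM.pair huv) (by
      rw [Finset.disjoint_left]
      intro z hz hz'
      exact (Finset.mem_sdiff.mp hz).2 hz')
  have h6 : Z \ {u, v} ∪ {u, v} = Z := by
    rw [Finset.sdiff_union_of_subset]
    intro z hz
    rw [Finset.mem_insert, Finset.mem_singleton] at hz
    rcases hz with rfl | rfl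
    · exact hu
    · exact hv
  rwa [h6] at h5

theorem byp_hasPM_iff (huv : G.Adj u v) (hu : u ∈ Z) (hv : v ∈ Z) :
    HasPM (byp G u v) Z ↔ HasPM (byp G u v) (Z \ {u, v}) :=
  ⟨byp_hasPM_sdiff huv hu hv, hasPM_of_sdiff_pair (byp_of_adj huv) hu hv⟩

/-! ### Claim B -/

variable {B : Finset V} {C : Finset (Finset V)}

omit [DecidableEq V] in
theorem oddCount_eq (hodd : ∀ K ∈ C, Odd K.card) : oddCount C = C.card := by
  unfold oddCount
  rw [Finset.filter_true_of_mem hodd]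

theorem byp_mem_or (h : IsPart G Z B C) (hc : B.card < C.card) (hodd : ∀ K ∈ C, Odd K.card)
    (huv : G.Adj u v) (hu : u ∈ Z) (hv : v ∈ Z) (hH : HasPM (byp G u v) Z) : u ∈ B ∨ v ∈ B := by
  by_contra hcon
  push Not at hcon
  obtain ⟨hu', hv'⟩ := hcon
  obtain ⟨K, hK, huK⟩ := h.cover u hu hu'
  obtain ⟨L, hL, hvL⟩ := h.cover v hv hv'
  have hKL := h.nadj K hK L hL u huK v hvL huv
  subst hKL
  refine IsPart.not_hasPM (G := byp G u v) (Z := Z) (A := B) (C := C)
    ⟨h.sub, h.ne, h.mem, h.disj, h.cover, ?_⟩ (by rw [oddCount_eq hodd]; exact hc) hH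
  rintro L hL M hM x hx y hy ⟨hxy, h1 | ⟨h1, h2⟩ | ⟨h1, h2⟩⟩
  · exact h.nadj L hL M hM x hx y hy h1
  · rw [← h.nadj K hK L hL u huK x hx h1, ← h.nadj K hK M hM v hvL y hy h2]
  · rw [← h.nadj K hK L hL v hvL x hx h1, ← h.nadj K hK M hM u huK y hy h2]

theorem byp_not_singleton (h : IsPart G Z B C) (hc : B.card < C.card)
    (hodd : ∀ K ∈ C, Odd K.card) (huv : G.Adj u v) (hu : u ∈ Z) (hv : v ∈ Z)
    (hH : HasPM (byp G u v) Z) (huB : u ∈ B) : {v} ∉ C := by
  intro hvC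
  have hH' := byp_hasPM_sdiff huv hu hv hH
  have hvB : v ∉ B := (Finset.mem_sdiff.mp (h.mem _ hvC (Finset.mem_singleton_self v))).2
  -- neighbours of `v` lie in `B`
  have hnb : ∀ x ∈ Z, G.Adj v x → x ∈ B := by
    intro x hx hvx
    by_contra hxB
    obtain ⟨L, hL, hxL⟩ := h.cover x hx hxB
    have := h.nadj {v} hvC L hL v (Finset.mem_singleton_self v) x hxL hvx
    subst this
    exact hvx.ne (Finset.mem_singleton.mp hxL).symm
  refine IsPart.not_hasPM (G := byp G u v) (Z := Z \ {u, v}) (A := B.erase u)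
    (C := C.erase {v}) ⟨?_, ?_, ?_, ?_, ?_, ?_⟩ ?_ hH'
  · intro x hx
    rw [Finset.mem_erase] at hx
    rw [Finset.mem_sdiff, Finset.mem_insert, Finset.mem_singleton, not_or]
    exact ⟨h.sub hx.2, hx.1, fun h => hvB (h ▸ hx.2)⟩
  · exact fun K hK => h.ne K (Finset.mem_of_mem_erase hK)
  · intro K hK x hx
    rw [Finset.mem_erase] at hK
    have hxm := Finset.mem_sdiff.mp (h.mem K hK.2 hx)
    rw [Finset.mem_sdiff, Finset.mem_sdiff, Finset.mem_insert, Finset.mem_singleton, not_or,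
      Finset.mem_erase, not_and]
    refine ⟨⟨hxm.1, fun h => hxm.2 (h ▸ huB), ?_⟩, fun _ => hxm.2⟩
    rintro rfl
    exact hK.1 (h.disj K hK.2 _ hvC x hx (Finset.mem_singleton_self x))
  · exact fun K hK L hL => h.disj K (Finset.mem_of_mem_erase hK) L (Finset.mem_of_mem_erase hL)
  · intro z hz hzB
    rw [Finset.mem_sdiff, Finset.mem_insert, Finset.mem_singleton, not_or] at hz
    obtain ⟨K, hK, hzK⟩ := h.cover z hz.1 (fun h => hzB (Finset.mem_erase.mpr ⟨hz.2.1, h⟩))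
    refine ⟨K, Finset.mem_erase.mpr ⟨?_, hK⟩, hzK⟩
    rintro rfl
    exact hz.2.2 (Finset.mem_singleton.mp hzK)
  · rintro K hK L hL x hx y hy ⟨hxy, h1 | ⟨h1, h2⟩ | ⟨h1, h2⟩⟩
    · exact h.nadj K (Finset.mem_of_mem_erase hK) L (Finset.mem_of_mem_erase hL) x hx y hy h1
    · have hym := Finset.mem_sdiff.mp (h.mem L (Finset.mem_of_mem_erase hL) hy)
      exact absurd (hnb y hym.1 h2) hym.2
    · have hxm := Finset.mem_sdiff.mp (h.mem K (Finset.mem_of_mem_erase hK) hx)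
      exact absurd (hnb x hxm.1 h1) hxm.2
  · rw [oddCount_eq (fun K hK => hodd K (Finset.mem_of_mem_erase hK)),
      Finset.card_erase_of_mem huB, Finset.card_erase_of_mem hvC]
    have : 0 < B.card := Finset.card_pos.mpr ⟨u, huB⟩
    omega

end Pool.Agent.H9.MMN
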