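import Mathlib
import Pool.Agent.H9.MMN.Alt

/-!
# Linear algebra of the bypass
-/

namespace Pool.Agent.H9.MMN

open Matrix

variable {V : Type*} [Fintype V] [DecidableEq V] {A B : Matrix V V ℚ} {Z : Finset V}

/-- a singular principal submatrix which becomes nonsingular after removing two elements -/
theorem exists_kernel_pair (hA : Skew A) {s t : V} (hs : s ∈ Z) (ht : t ∈ Z) (hst : s ≠ t)
    (h : NS A (Z \ {s, t})) (hn : ¬ NS A Z) :
    ∃ x y : V → ℚ, (∀ v, v ∉ Z → x v = 0) ∧ (∀ v, v ∉ Z → y v = 0) ∧ x s = 1 ∧ x t = 0 ∧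
      y s = 0 ∧ y t = 1 ∧ (∀ v ∈ Z, (A *ᵥ x) v = 0) ∧ (∀ v ∈ Z, (A *ᵥ y) v = 0) ∧
      ∀ w : V → ℚ, (∀ v, v ∉ Z → w v = 0) → (∀ v ∈ Z, (A *ᵥ w) v = 0) →
        w = w s • x + w t • y := by
  obtain ⟨R, hR⟩ := h.exists_solve
  have mem : ∀ v, v ∈ Z \ {s, t} ↔ v ∈ Z ∧ v ≠ s ∧ v ≠ t := by
    intro v
    rw [Finset.mem_sdiff, Finset.mem_insert, Finset.mem_singleton, not_or]
  set es : V → ℚ := Pi.single s 1 with hes
  set et : V → ℚ := Pi.single t 1 with het
  obtain ⟨hx1, hx2⟩ := hR (-(A *ᵥ es))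
  obtain ⟨hy1, hy2⟩ := hR (-(A *ᵥ et))
  set x := es + R (-(A *ᵥ es)) with hx
  set y := et + R (-(A *ᵥ et)) with hy
  have hRs : ∀ r, R r s = 0 := fun r => (hR r).1 s (by rw [mem]; simp)
  have hRt : ∀ r, R r t = 0 := fun r => (hR r).1 t (by rw [mem]; simp)
  have xs : x s = 1 := by simp [hx, hes, hRs]
  have xt : x t = 0 := by simp [hx, hes, hRt, hst.symm]
  have ys : y s = 0 := by simp [hy, het, hRs, hst]
  have yt : y t = 1 := by simp [hy, het, hRt]
  have xZ : ∀ v, v ∉ Z → x v = 0 := by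
    intro v hv
    have h1 : v ≠ s := fun h => hv (h ▸ hs)
    have h2 : v ∉ Z \ {s, t} := fun h => hv ((mem v).mp h).1
    rw [hx, Pi.add_apply, hx1 v h2, hes, Pi.single_eq_of_ne h1, add_zero]
  have yZ : ∀ v, v ∉ Z → y v = 0 := by
    intro v hv
    have h1 : v ≠ t := fun h => hv (h ▸ ht)
    have h2 : v ∉ Z \ {s, t} := fun h => hv ((mem v).mp h).1
    rw [hy, Pi.add_apply, hy1 v h2, het, Pi.single_eq_of_ne h1, add_zero]
  have Ax : ∀ v ∈ Z \ {s, t}, (A *ᵥ x) v = 0 := by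
    intro v hv
    rw [hx, mulVec_add, Pi.add_apply, hx2 v hv, Pi.neg_apply]
    ring
  have Ay : ∀ v ∈ Z \ {s, t}, (A *ᵥ y) v = 0 := by
    intro v hv
    rw [hy, mulVec_add, Pi.add_apply, hy2 v hv, Pi.neg_apply]
    ring
  -- dot products
  have dx : ∀ z : V → ℚ, (∀ v ∈ Z \ {s, t}, z v = 0) → x ⬝ᵥ z = z s := by
    intro z hz
    rw [dotProduct, Finset.sum_eq_single s]
    · rw [xs, one_mul]
    · intro v _ hv
      by_cases hvt : v = t
      · rw [hvt, xt, zero_mul]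
      · by_cases hvZ : v ∈ Z
        · rw [hz v ((mem v).mpr ⟨hvZ, hv, hvt⟩), mul_zero]
        · rw [xZ v hvZ, zero_mul]
    · intro h; exact absurd (Finset.mem_univ _) h
  have dy : ∀ z : V → ℚ, (∀ v ∈ Z \ {s, t}, z v = 0) → y ⬝ᵥ z = z t := by
    intro z hz
    rw [dotProduct, Finset.sum_eq_single t]
    · rw [yt, one_mul]
    · intro v _ hv
      by_cases hvs : v = s
      · rw [hvs, ys, zero_mul]
      · by_cases hvZ : v ∈ Z
        · rw [hz v ((mem v).mpr ⟨hvZ, hvs, hv⟩), mul_zero]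
        · rw [yZ v hvZ, zero_mul]
    · intro h; exact absurd (Finset.mem_univ _) h
  have Axs : (A *ᵥ x) s = 0 := by rw [← dx _ Ax]; exact hA.dot_self x
  have Ayt : (A *ᵥ y) t = 0 := by rw [← dy _ Ay]; exact hA.dot_self y
  have Ays : (A *ᵥ y) s = - (A *ᵥ x) t := by rw [← dx _ Ay, ← dy _ Ax]; exact hA.dot x y
  have key : ∀ w : V → ℚ, (∀ v, v ∉ Z → w v = 0) → (∀ v ∈ Z \ {s, t}, (A *ᵥ w) v = 0) →
      w = w s • x + w t • y := by
    intro w hw hAw
    have := h (w - (w s • x + w t • y)) (by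
      intro v hv
      rw [mem, not_and_or, not_and_or, not_not, not_not] at hv
      simp only [Pi.sub_apply, Pi.add_apply, Pi.smul_apply, smul_eq_mul]
      rcases hv with hv | hv | hv
      · rw [hw v hv, xZ v hv, yZ v hv]; ring
      · rw [hv, xs, ys]; ring
      · rw [hv, xt, yt]; ring) (by
      intro v hv
      rw [mulVec_sub, mulVec_add, mulVec_smul, mulVec_smul]
      simp only [Pi.sub_apply, Pi.add_apply, Pi.smul_apply, smul_eq_mul]
      rw [hAw v hv, Ax v hv, Ay v hv]; ring)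
    exact sub_eq_zero.mp this
  have hc : (A *ᵥ x) t = 0 := by
    by_contra hc
    apply hn
    intro w hw hAw
    have hk := key w hw (fun v hv => hAw v ((mem v).mp hv).1)
    have e1 : (A *ᵥ w) t = w s * (A *ᵥ x) t + w t * (A *ᵥ y) t := by
      conv_lhs => rw [hk]
      rw [mulVec_add, mulVec_smul, mulVec_smul]
      simp only [Pi.add_apply, Pi.smul_apply, smul_eq_mul]
    have e2 : (A *ᵥ w) s = w s * (A *ᵥ x) s + w t * (A *ᵥ y) s := by
      conv_lhs => rw [hk]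
      rw [mulVec_add, mulVec_smul, mulVec_smul]
      simp only [Pi.add_apply, Pi.smul_apply, smul_eq_mul]
    rw [hAw t ht, Ayt, mul_zero, add_zero] at e1
    rw [hAw s hs, Axs, mul_zero, zero_add, Ays] at e2
    have h1 : w s = 0 := by
      rcases mul_eq_zero.mp e1.symm with h | h
      · exact h
      · exact absurd h hc
    have h2 : w t = 0 := by
      rcases mul_eq_zero.mp e2.symm with h | h
      · exact h
      · exact absurd (neg_eq_zero.mp h) hc
    rw [hk, h1, h2]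
    simp
  refine ⟨x, y, xZ, yZ, xs, xt, ys, yt, ?_, ?_, fun w hw hAw => key w hw
    (fun v hv => hAw v ((mem v).mp hv).1)⟩
  · intro v hv
    by_cases h1 : v = s
    · rw [h1, Axs]
    · by_cases h2 : v = t
      · rw [h2, hc]
      · exact Ax v ((mem v).mpr ⟨hv, h1, h2⟩)
  · intro v hv
    by_cases h1 : v = s
    · rw [h1, Ays, hc, neg_zero]
    · by_cases h2 : v = t
      · rw [h2, Ayt]
      · exact Ay v ((mem v).mpr ⟨hv, h1, h2⟩)

/-- dot product of a kernel vector with a vector vanishing off `a`, `b` -/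
theorem kernel_dot (hA : Skew A) {x w : V → ℚ} {a b : V} (hab : a ≠ b)
    (hx : ∀ v, v ∉ Z → x v = 0) (hAx : ∀ v ∈ Z, (A *ᵥ x) v = 0)
    (hw : ∀ v, v ∉ Z → w v = 0) (hAw : ∀ v ∈ Z \ {a, b}, (A *ᵥ w) v = 0) :
    x a * (A *ᵥ w) a + x b * (A *ᵥ w) b = 0 := by
  have h1 : w ⬝ᵥ (A *ᵥ x) = 0 := by
    rw [dotProduct]
    refine Finset.sum_eq_zero fun v _ => ?_
    by_cases hv : v ∈ Z
    · rw [hAx v hv, mul_zero]
    · rw [hw v hv, zero_mul]
  have h2 := hA.dot x w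
  rw [h1, neg_zero] at h2
  rw [dotProduct, Finset.sum_eq_add a b hab] at h2
  · exact h2
  · intro v _ hv
    by_cases hvZ : v ∈ Z
    · rw [hAw v (by
        rw [Finset.mem_sdiff, Finset.mem_insert, Finset.mem_singleton, not_or]
        exact ⟨hvZ, hv⟩), mul_zero]
    · rw [hx v hvZ, zero_mul]
  · intro h; exact absurd (Finset.mem_univ _) h
  · intro h; exact absurd (Finset.mem_univ _) h

theorem cramer2 {x1 y1 x2 y2 p q : ℚ} (hd : x1 * y2 - x2 * y1 ≠ 0) (h1 : x1 * p + x2 * q = 0)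
    (h2 : y1 * p + y2 * q = 0) : p = 0 ∧ q = 0 := by
  constructor
  · have : (x1 * y2 - x2 * y1) * p = 0 := by linear_combination y2 * h1 - x2 * h2
    rcases mul_eq_zero.mp this with h | h
    · exact absurd h hd
    · exact h
  · have : (x1 * y2 - x2 * y1) * q = 0 := by linear_combination x1 * h2 - y1 * h1
    rcases mul_eq_zero.mp this with h | h
    · exact absurd h hd
    · exact h

theorem NS_of_wedge (hA : Skew A) {x y : V → ℚ} {s t a b : V}
    (hx : ∀ v, v ∉ Z → x v = 0) (hy : ∀ v, v ∉ Z → y v = 0)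
    (hAx : ∀ v ∈ Z, (A *ᵥ x) v = 0) (hAy : ∀ v ∈ Z, (A *ᵥ y) v = 0)
    (hk : ∀ w : V → ℚ, (∀ v, v ∉ Z → w v = 0) → (∀ v ∈ Z, (A *ᵥ w) v = 0) →
        w = w s • x + w t • y)
    (hd : x a * y b - x b * y a ≠ 0) : a ≠ b ∧ NS A (Z \ {a, b}) := by
  have hab : a ≠ b := by
    rintro rfl
    exact hd (by ring)
  refine ⟨hab, ?_⟩
  intro w hw hAw
  have hwZ : ∀ v, v ∉ Z → w v = 0 := fun v hv => hw v (fun h => hv (Finset.mem_sdiff.mp h).1)
  have h1 := kernel_dot hA hab hx hAx hwZ hAw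
  have h2 := kernel_dot hA hab hy hAy hwZ hAw
  obtain ⟨h3, h4⟩ := cramer2 hd h1 h2
  have h5 := hk w hwZ (fun v hv => by
    by_cases h1 : v = a
    · rw [h1, h3]
    · by_cases h2 : v = b
      · rw [h2, h4]
      · exact hAw v (by
          rw [Finset.mem_sdiff, Finset.mem_insert, Finset.mem_singleton, not_or]
          exact ⟨hv, h1, h2⟩))
  have e1 : w a = w s * x a + w t * y a := by
    conv_lhs => rw [h5]
    simp
  have e2 : w b = w s * x b + w t * y b := by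
    conv_lhs => rw [h5]
    simp
  rw [hw a (by simp)] at e1
  rw [hw b (by simp)] at e2
  obtain ⟨h6, h7⟩ := cramer2 (x1 := x a) (y1 := x b) (x2 := y a) (y2 := y b) (p := w s) (q := w t)
    (by intro h; apply hd; linear_combination h) (by linear_combination -e1)
    (by linear_combination -e2)
  rw [h5, h6, h7]
  simp

/-- the second case: both vectors on the same side -/
theorem bypass_side (hA : Skew A) (hB : NS B Z) {P Q : V → Prop}
    (hPQ : ∀ z z', A z z' ≠ B z z' → (P z ∧ Q z') ∨ (Q z ∧ P z'))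
    {x y : V → ℚ} {s t a1 a2 : V} (h1 : a1 ∈ Z) (h2 : a2 ∈ Z)
    (hx : ∀ v, v ∉ Z → x v = 0) (hy : ∀ v, v ∉ Z → y v = 0)
    (hx0 : x ≠ 0)
    (hAx : ∀ v ∈ Z, (A *ᵥ x) v = 0) (hAy : ∀ v ∈ Z, (A *ᵥ y) v = 0)
    (hk : ∀ w : V → ℚ, (∀ v, v ∉ Z → w v = 0) → (∀ v ∈ Z, (A *ᵥ w) v = 0) →
        w = w s • x + w t • y)
    (hd : x a1 * y a2 - x a2 * y a1 ≠ 0)
    (hQ : ∀ b ∈ Z, Q b → x b = 0 ∧ y b = 0) :
    ∃ b1 b2, b1 ∈ Z ∧ b2 ∈ Z ∧ Q b1 ∧ Q b2 ∧ a1 ≠ a2 ∧ a1 ≠ b1 ∧ a1 ≠ b2 ∧ a2 ≠ b1 ∧ a2 ≠ b2 ∧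
      b1 ≠ b2 ∧ NS A ((Z \ {a1, a2}) \ {b1, b2}) := by
  classical
  obtain ⟨ha, hNS⟩ := NS_of_wedge hA hx hy hAx hAy hk hd
  obtain ⟨R, hR⟩ := hNS.exists_solve
  have mem : ∀ v, v ∈ Z \ {a1, a2} ↔ v ∈ Z ∧ v ≠ a1 ∧ v ≠ a2 := by
    intro v
    rw [Finset.mem_sdiff, Finset.mem_insert, Finset.mem_singleton, not_or]
  have hQa1 : ¬ Q a1 := by
    intro h
    obtain ⟨e1, e2⟩ := hQ a1 h1 h
    exact hd (by rw [e1, e2]; ring)
  have hQa2 : ¬ Q a2 := by
    intro h
    obtain ⟨e1, e2⟩ := hQ a2 h2 h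
    exact hd (by rw [e1, e2]; ring)
  by_contra hcon
  -- all inverse entries vanish
  have hvan : ∀ b1 ∈ Z, Q b1 → ∀ b2 ∈ Z, Q b2 →
      R (fun v => if v = b1 then 1 else 0) b2 = 0 := by
    intro b1 hb1 hQ1 b2 hb2 hQ2
    by_contra hne
    have m1 : b1 ∈ Z \ {a1, a2} :=
      (mem b1).mpr ⟨hb1, fun h => hQa1 (h ▸ hQ1), fun h => hQa2 (h ▸ hQ1)⟩
    have m2 : b2 ∈ Z \ {a1, a2} :=
      (mem b2).mpr ⟨hb2, fun h => hQa1 (h ▸ hQ2), fun h => hQa2 (h ▸ hQ2)⟩
    obtain ⟨h3, h4⟩ := hNS.sdiff_pair hA m1 m2 (hR _).1 (hR _).2 hne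
    exact hcon ⟨b1, b2, hb1, hb2, hQ1, hQ2, ha, ((mem b1).mp m1).2.1.symm,
      ((mem b2).mp m2).2.1.symm, ((mem b1).mp m1).2.2.symm, ((mem b2).mp m2).2.2.symm, h4, h3⟩
  -- the set of neighbours on the side `Q`
  let S : Finset V := Z.filter Q
  have memS : ∀ v, v ∈ S ↔ v ∈ Z ∧ Q v := fun v => Finset.mem_filter
  -- extension by zero
  let E : (S → ℚ) →ₗ[ℚ] (V → ℚ) :=
    { toFun := fun c v => if h : v ∈ S then c ⟨v, h⟩ else 0
      map_add' := by
        intro c d; ext v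
        by_cases hv : v ∈ S <;> simp [hv]
      map_smul' := by
        intro c d; ext v
        by_cases hv : v ∈ S <;> simp [hv] }
  have hE : ∀ c v (h : v ∈ S), E c v = c ⟨v, h⟩ := fun c v h => dif_pos h
  have hE' : ∀ c v, v ∉ S → E c v = 0 := fun c v h => dif_neg h
  have hEsum : ∀ c : S → ℚ, E c = ∑ b : S, c b • (fun v => if v = b.1 then (1 : ℚ) else 0) := by
    intro c
    ext v
    rw [Finset.sum_apply]
    by_cases hv : v ∈ S
    · rw [hE c v hv, Finset.sum_eq_single ⟨v, hv⟩]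
      · simp
      · intro b _ hb
        have : v ≠ b.1 := fun h => hb (Subtype.ext h.symm)
        simp [this]
      · intro h; exact absurd (Finset.mem_univ _) h
    · rw [hE' c v hv]
      symm
      refine Finset.sum_eq_zero fun b _ => ?_
      have : v ≠ b.1 := fun h => hv (h ▸ b.2)
      simp [this]
  -- `R (E c)` vanishes on `S`
  have hRE : ∀ c : S → ℚ, ∀ v ∈ S, R (E c) v = 0 := by
    intro c v hv
    rw [hEsum, map_sum, Finset.sum_apply]
    refine Finset.sum_eq_zero fun b _ => ?_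
    rw [map_smul, Pi.smul_apply, hvan b.1 ((memS _).mp b.2).1 ((memS _).mp b.2).2 v
      ((memS _).mp hv).1 ((memS _).mp hv).2, smul_zero]
  -- `A (R (E c)) = E c` on `Z`
  have hARE : ∀ c : S → ℚ, ∀ v ∈ Z, (A *ᵥ (R (E c))) v = E c v := by
    intro c
    obtain ⟨r1, r2⟩ := hR (E c)
    have rZ : ∀ v, v ∉ Z → R (E c) v = 0 := fun v hv => r1 v (fun h => hv ((mem v).mp h).1)
    -- values at `a1`, `a2`
    have dot0 : ∀ z : V → ℚ, (∀ v, v ∉ Z → z v = 0) → (∀ v ∈ Z, (A *ᵥ z) v = 0) →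
        (∀ b ∈ Z, Q b → z b = 0) →
        z a1 * (A *ᵥ (R (E c))) a1 + z a2 * (A *ᵥ (R (E c))) a2 = 0 := by
      intro z hz hAz hzQ
      have g1 : (R (E c)) ⬝ᵥ (A *ᵥ z) = 0 := by
        rw [dotProduct]
        refine Finset.sum_eq_zero fun v _ => ?_
        by_cases hv : v ∈ Z
        · rw [hAz v hv, mul_zero]
        · rw [rZ v hv, zero_mul]
      have g2 := hA.dot z (R (E c))
      rw [g1, neg_zero] at g2
      rw [dotProduct, Finset.sum_eq_add a1 a2 ha] at g2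
      · exact g2
      · intro v _ hv
        by_cases hvZ : v ∈ Z
        · rw [r2 v ((mem v).mpr ⟨hvZ, hv⟩)]
          by_cases hvQ : Q v
          · rw [hzQ v hvZ hvQ, zero_mul]
          · rw [hE' c v (fun h => hvQ ((memS v).mp h).2), mul_zero]
        · rw [hz v hvZ, zero_mul]
      · intro h; exact absurd (Finset.mem_univ _) h
      · intro h; exact absurd (Finset.mem_univ _) h
    obtain ⟨g3, g4⟩ := cramer2 hd (dot0 x hx hAx fun b hb hQb => (hQ b hb hQb).1)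
      (dot0 y hy hAy fun b hb hQb => (hQ b hb hQb).2)
    intro v hv
    by_cases hv1 : v = a1
    · rw [hv1, g3, hE' c a1 (fun h => hQa1 ((memS _).mp h).2)]
    · by_cases hv2 : v = a2
      · rw [hv2, g4, hE' c a2 (fun h => hQa2 ((memS _).mp h).2)]
      · exact r2 v ((mem v).mpr ⟨hv, hv1, hv2⟩)
  -- the map
  let Φ : ((S → ℚ) × ℚ) →ₗ[ℚ] (S → ℚ) :=
    { toFun := fun p b => (B *ᵥ (R (E p.1) + p.2 • x)) b.1
      map_add' := by
        intro p q; ext b
        simp only [Prod.fst_add, Prod.snd_add, map_add, Pi.add_apply, add_smul, mulVec_add]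
        ring
      map_smul' := by
        intro c p; ext b
        simp only [Prod.smul_fst, Prod.smul_snd, map_smul, Pi.smul_apply, mulVec_add,
          mulVec_smul, Pi.add_apply, smul_eq_mul, RingHom.id_apply]
        ring }
  have hΦ : LinearMap.ker Φ ≠ ⊥ := by
    apply LinearMap.ker_ne_bot_of_finrank_lt
    rw [Module.finrank_prod, Module.finrank_self]
    omega
  obtain ⟨p, hp, hp0⟩ := (Submodule.ne_bot_iff _).mp hΦ
  have hp' : ∀ b ∈ S, (B *ᵥ (R (E p.1) + p.2 • x)) b = 0 := fun b hb =>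
    congrFun (LinearMap.mem_ker.mp hp) ⟨b, hb⟩
  set w := R (E p.1) + p.2 • x with hw
  have hwZ : ∀ v, v ∉ Z → w v = 0 := by
    intro v hv
    have := (hR (E p.1)).1 v (fun h => hv ((mem v).mp h).1)
    simp [hw, this, hx v hv]
  have hwS : ∀ v ∈ S, w v = 0 := by
    intro v hv
    have e1 := (hQ v ((memS v).mp hv).1 ((memS v).mp hv).2).1
    simp [hw, hRE _ v hv, e1]
  have hAw : ∀ v ∈ Z, (A *ᵥ w) v = E p.1 v := by
    intro v hv
    rw [hw, mulVec_add, mulVec_smul, Pi.add_apply, Pi.smul_apply, hARE _ v hv, hAx v hv]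
    simp
  have hBw : ∀ v ∈ Z, (B *ᵥ w) v = 0 := by
    intro v hv
    by_cases hvQ : Q v
    · exact hp' v ((memS v).mpr ⟨hv, hvQ⟩)
    · have : (B *ᵥ w) v = (A *ᵥ w) v := by
        simp only [mulVec, dotProduct]
        refine Finset.sum_congr rfl fun z _ => ?_
        by_cases hz : w z = 0
        · rw [hz, mul_zero, mul_zero]
        · have hzZ : z ∈ Z := by
            by_contra h; exact hz (hwZ z h)
          have hzQ : ¬ Q z := fun h => hz (hwS z ((memS z).mpr ⟨hzZ, h⟩))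
          have : A v z = B v z := by
            by_contra hne
            rcases hPQ v z hne with ⟨-, h⟩ | ⟨h, -⟩
            · exact hzQ h
            · exact hvQ h
          rw [this]
      rw [this, hAw v hv, hE' _ v (fun h => hvQ ((memS v).mp h).2)]
  have hw0 : w = 0 := hB w hwZ hBw
  have hp1 : p.1 = 0 := by
    ext b
    have := hAw b.1 ((memS _).mp b.2).1
    rw [hw0, mulVec_zero, Pi.zero_apply, hE _ _ b.2] at this
    exact this.symm
  have hp2 : p.2 = 0 := by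
    rw [hp1, map_zero, map_zero, zero_add] at hw
    rw [hw0] at hw
    rcases smul_eq_zero.mp hw.symm with h | h
    · exact h
    · exact absurd h hx0
  exact hp0 (Prod.ext hp1 hp2)

/-- **Linear algebra of the bypass.** -/
theorem bypass_algebra (hA : Skew A) (hB : NS B Z) {P Q : V → Prop}
    (hPQ : ∀ z z', A z z' ≠ B z z' → (P z ∧ Q z') ∨ (Q z ∧ P z'))
    {s t : V} (hs : s ∈ Z) (ht : t ∈ Z) (hst : s ≠ t) (h : NS A (Z \ {s, t})) (hn : ¬ NS A Z) :
    (∃ a b, a ∈ Z ∧ b ∈ Z ∧ P a ∧ Q b ∧ a ≠ b ∧ NS A (Z \ {a, b})) ∨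
    (∃ a1 a2 b1 b2, a1 ∈ Z ∧ a2 ∈ Z ∧ b1 ∈ Z ∧ b2 ∈ Z ∧ P a1 ∧ P a2 ∧ Q b1 ∧ Q b2 ∧
      a1 ≠ a2 ∧ a1 ≠ b1 ∧ a1 ≠ b2 ∧ a2 ≠ b1 ∧ a2 ≠ b2 ∧ b1 ≠ b2 ∧
      NS A ((Z \ {a1, a2}) \ {b1, b2})) := by
  obtain ⟨x, y, xZ, yZ, xs, xt, ys, yt, hAx, hAy, hk⟩ := exists_kernel_pair hA hs ht hst h hn
  by_cases hall : ∀ a ∈ Z, ∀ b ∈ Z, P a → Q b → x a * y b - x b * y a = 0
  swap
  · push Not at hall
    obtain ⟨a, ha, b, hb, hPa, hQb, hne⟩ := hall
    obtain ⟨h1, h2⟩ := NS_of_wedge hA xZ yZ hAx hAy hk hne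
    exact Or.inl ⟨a, b, ha, hb, hPa, hQb, h1, h2⟩
  right
  -- spanning
  have hspan : ∀ α β : ℚ, (α ≠ 0 ∨ β ≠ 0) → ∃ z ∈ Z, (P z ∨ Q z) ∧ α * x z + β * y z ≠ 0 := by
    intro α β hαβ
    by_contra hcon
    push Not at hcon
    have hw : α • x + β • y = 0 := by
      refine hB _ (fun v hv => by simp [xZ v hv, yZ v hv]) fun v hv => ?_
      have : (B *ᵥ (α • x + β • y)) v = (A *ᵥ (α • x + β • y)) v := by
        simp only [mulVec, dotProduct]
        refine Finset.sum_congr rfl fun z _ => ?_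
        by_cases hz : (α • x + β • y) z = 0
        · rw [hz, mul_zero, mul_zero]
        · have hzZ : z ∈ Z := by
            by_contra h; exact hz (by simp [xZ z h, yZ z h])
          have hzPQ : ¬ (P z ∨ Q z) := fun h => hz (by simpa using hcon z hzZ h)
          have : A v z = B v z := by
            by_contra hne
            rcases hPQ v z hne with ⟨-, h⟩ | ⟨-, h⟩
            · exact hzPQ (Or.inr h)
            · exact hzPQ (Or.inl h)
          rw [this]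
      rw [this, mulVec_add, mulVec_smul, mulVec_smul]
      simp [hAx v hv, hAy v hv]
    have e1 := congrFun hw s
    have e2 := congrFun hw t
    simp [xs, ys] at e1
    simp [xt, yt] at e2
    rcases hαβ with h | h
    · exact h e1
    · exact h e2
  obtain ⟨z1, hz1, hPQ1, hne1⟩ := hspan 1 0 (Or.inl one_ne_zero)
  have hxz1 : x z1 ≠ 0 := by simpa using hne1
  obtain ⟨z2, hz2, hPQ2, hne2⟩ := hspan (- y z1) (x z1) (Or.inr hxz1)
  have hd : x z1 * y z2 - x z2 * y z1 ≠ 0 := by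
    intro h; apply hne2; linear_combination h
  have hx0 : x ≠ 0 := by
    intro h; rw [h] at xs; simp at xs
  -- vanishing of the other side
  have hvan : ∀ (z : V), x z1 * y z - x z * y z1 = 0 → x z2 * y z - x z * y z2 = 0 →
      x z = 0 ∧ y z = 0 := by
    intro z e1 e2
    obtain ⟨g1, g2⟩ := cramer2 (x1 := x z1) (x2 := y z1) (y1 := x z2) (y2 := y z2) (p := y z)
      (q := - x z) (by intro h; apply hd; linear_combination h) (by linear_combination e1)
      (by linear_combination e2)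
    exact ⟨neg_eq_zero.mp g2, g1⟩
  rcases hPQ1 with hP1 | hQ1
  · rcases hPQ2 with hP2 | hQ2
    · -- both in `P`
      obtain ⟨b1, b2, hb1, hb2, hQb1, hQb2, n1, n2, n3, n4, n5, n6, hNS⟩ :=
        bypass_side hA hB hPQ hz1 hz2 xZ yZ hx0 hAx hAy hk hd
          (fun b hb hQb => hvan b (hall z1 hz1 b hb hP1 hQb) (hall z2 hz2 b hb hP2 hQb))
      exact ⟨z1, z2, b1, b2, hz1, hz2, hb1, hb2, hP1, hP2, hQb1, hQb2, n1, n2, n3, n4, n5, n6, hNS⟩
    · exact absurd (hall z1 hz1 z2 hz2 hP1 hQ2) hd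
  · rcases hPQ2 with hP2 | hQ2
    · exact absurd (by linear_combination -(hall z2 hz2 z1 hz1 hP2 hQ1)) hd
    · -- both in `Q`
      obtain ⟨b1, b2, hb1, hb2, hPb1, hPb2, n1, n2, n3, n4, n5, n6, hNS⟩ :=
        bypass_side (P := Q) (Q := P) hA hB (fun z z' h => (hPQ z z' h).symm) hz1 hz2 xZ yZ hx0
          hAx hAy hk hd
          (fun b hb hPb => hvan b (by linear_combination -(hall b hb z1 hz1 hPb hQ1))
            (by linear_combination -(hall b hb z2 hz2 hPb hQ2)))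
      refine ⟨b1, b2, z1, z2, hb1, hb2, hz1, hz2, hPb1, hPb2, hQ1, hQ2, n6, n2.symm, n4.symm,
        n3.symm, n5.symm, n1, ?_⟩
      have : (Z \ {b1, b2}) \ {z1, z2} = (Z \ {z1, z2}) \ {b1, b2} := by
        rw [sdiff_sdiff_comm]
      rwa [this]

end Pool.Agent.H9.MMN
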