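import Mathlib
import Pool.Agent.H9.MMN.Alt

/-!
# Algebra of the contraction of free parts of a barrier
-/

namespace Pool.Agent.H9.MMN

open Matrix

variable {V : Type*} [Fintype V] [DecidableEq V]

/-- restriction to `D` -/
def rs (D : Finset V) : (V → ℚ) →ₗ[ℚ] (V → ℚ) where
  toFun g v := if v ∈ D then g v else 0
  map_add' g g' := by
    ext v
    by_cases hv : v ∈ D <;> simp [hv]
  map_smul' c g := by
    ext v
    by_cases hv : v ∈ D <;> simp [hv]

omit [Fintype V] in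
theorem rs_mem {D : Finset V} (g : V → ℚ) {v : V} (h : v ∈ D) : rs D g v = g v := if_pos h

omit [Fintype V] in
theorem rs_notMem {D : Finset V} (g : V → ℚ) {v : V} (h : v ∉ D) : rs D g v = 0 := if_neg h

theorem dot_rs {D : Finset V} (g r : V → ℚ) (h : ∀ v, v ∉ D → g v = 0) : g ⬝ᵥ r = g ⬝ᵥ rs D r := by
  refine dot_congr_supp (Z := D) h fun v hv => (rs_mem r hv).symm

/-- The situation: `K0` is a family of disjoint subsets of `U`, whose elements have no neighbours
in `W` except in the same set and in `D`. -/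
structure CData (A : Matrix V V ℚ) (U W D : Finset V) (K0 : Finset (Finset V))
    (w : Finset V → V) (R : Finset V → (V → ℚ) →ₗ[ℚ] (V → ℚ)) : Prop where
  skew : Skew A
  UW : U ⊆ W
  subU : ∀ K ∈ K0, K ⊆ U
  disjD : ∀ K ∈ K0, ∀ v ∈ K, v ∉ D
  disj : ∀ K ∈ K0, ∀ L ∈ K0, ∀ v, v ∈ K → v ∈ L → K = L
  wmem : ∀ K ∈ K0, w K ∈ K
  ns : ∀ K ∈ K0, NS A (K.erase (w K))
  zero : ∀ K ∈ K0, ∀ v ∈ K, ∀ z ∈ W, z ∉ K → z ∉ D → A v z = 0
  R1 : ∀ K ∈ K0, ∀ r, ∀ v, v ∉ K.erase (w K) → R K r v = 0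
  R2 : ∀ K ∈ K0, ∀ r, ∀ v ∈ K.erase (w K), (A *ᵥ R K r) v = r v

variable {A : Matrix V V ℚ} {U W D : Finset V} {K0 : Finset (Finset V)} {w : Finset V → V}
  {R : Finset V → (V → ℚ) →ₗ[ℚ] (V → ℚ)}

/-- correction on `K` for the values on `D` -/
noncomputable def XK (A : Matrix V V ℚ) (D : Finset V) (R : Finset V → (V → ℚ) →ₗ[ℚ] (V → ℚ))
    (K : Finset V) : (V → ℚ) →ₗ[ℚ] (V → ℚ) := -(R K ∘ₗ mulVecLin A ∘ₗ rs D)

/-- correction on `K` for the value at `w` -/
noncomputable def YK (A : Matrix V V ℚ) (R : Finset V → (V → ℚ) →ₗ[ℚ] (V → ℚ))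
    (w : Finset V → V) (K : Finset V) : V → ℚ := -(R K (A *ᵥ Pi.single (w K) 1))

/-- kernel vector of `A[K]` -/
noncomputable def hh (A : Matrix V V ℚ) (R : Finset V → (V → ℚ) →ₗ[ℚ] (V → ℚ))
    (w : Finset V → V) (K : Finset V) : V → ℚ := Pi.single (w K) 1 + YK A R w K

theorem XK_apply (K : Finset V) (g : V → ℚ) : XK A D R K g = -(R K (A *ᵥ rs D g)) := rfl

theorem XK_rs (K : Finset V) (g : V → ℚ) : XK A D R K (rs D g) = XK A D R K g := by
  rw [XK_apply, XK_apply]
  congr 3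
  ext v
  by_cases hv : v ∈ D
  · rw [rs_mem _ hv]
  · rw [rs_notMem _ hv, rs_notMem _ hv]

section

variable (h : CData A U W D K0 w R)

include h

theorem XK_off {K : Finset V} (hK : K ∈ K0) (g : V → ℚ) {v : V} (hv : v ∉ K.erase (w K)) :
    XK A D R K g v = 0 := by
  rw [XK_apply, Pi.neg_apply, h.R1 K hK _ v hv, neg_zero]

theorem XK_off' {K : Finset V} (hK : K ∈ K0) (g : V → ℚ) {v : V} (hv : v ∉ K) :
    XK A D R K g v = 0 := XK_off h hK g fun h' => hv (Finset.mem_of_mem_erase h')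

theorem YK_off {K : Finset V} (hK : K ∈ K0) {v : V} (hv : v ∉ K.erase (w K)) :
    YK A R w K v = 0 := by
  rw [YK, Pi.neg_apply, h.R1 K hK _ v hv, neg_zero]

theorem A_XK {K : Finset V} (hK : K ∈ K0) (g : V → ℚ) {v : V} (hv : v ∈ K.erase (w K)) :
    (A *ᵥ XK A D R K g) v = -(A *ᵥ rs D g) v := by
  rw [XK_apply, mulVec_neg, Pi.neg_apply, h.R2 K hK _ v hv]

theorem hh_off {K : Finset V} (hK : K ∈ K0) {v : V} (hv : v ∉ K) : hh A R w K v = 0 := by
  have h1 : v ≠ w K := fun h' => hv (h' ▸ h.wmem K hK)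
  rw [hh, Pi.add_apply, YK_off h hK (fun h' => hv (Finset.mem_of_mem_erase h')),
    Pi.single_eq_of_ne h1, add_zero]

theorem hh_w {K : Finset V} (hK : K ∈ K0) : hh A R w K (w K) = 1 := by
  rw [hh, Pi.add_apply, YK_off h hK (Finset.notMem_erase _ _), Pi.single_eq_same, add_zero]

/-- `hh ⬝ r = r (w K)` if `r` vanishes on `K \ w` -/
theorem hh_dot {K : Finset V} (hK : K ∈ K0) {r : V → ℚ} (hr : ∀ v ∈ K.erase (w K), r v = 0) :
    hh A R w K ⬝ᵥ r = r (w K) := by
  rw [dot_of_supp (Z := K) (b := w K) (fun v hv => hh_off h hK hv) (h.wmem K hK)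
    (fun v hv hne => hr v (Finset.mem_erase.mpr ⟨hne, hv⟩)), hh_w h hK, one_mul]

theorem A_hh {K : Finset V} (hK : K ∈ K0) {v : V} (hv : v ∈ K) : (A *ᵥ hh A R w K) v = 0 := by
  have h1 : ∀ v ∈ K.erase (w K), (A *ᵥ hh A R w K) v = 0 := by
    intro v hv
    rw [hh, mulVec_add, Pi.add_apply, YK, mulVec_neg, Pi.neg_apply, h.R2 K hK _ v hv,
      add_neg_cancel]
  by_cases hw : v = w K
  · rw [hw, ← hh_dot h hK h1]
    exact h.skew.dot_self _
  · exact h1 v (Finset.mem_erase.mpr ⟨hw, hv⟩)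

/-- vectors supported on `K` are orthogonal to `A hh` -/
theorem hh_dot_A {K : Finset V} (hK : K ∈ K0) {g : V → ℚ} (hg : ∀ v, v ∉ K → g v = 0) :
    hh A R w K ⬝ᵥ (A *ᵥ g) = 0 := by
  rw [h.skew.dot, dot_congr_supp (Z := K) (y' := 0) hg (fun v hv => A_hh h hK hv)]
  simp

/-- splitting of `A g` on `K` -/
theorem mulVec_split {K : Finset V} (hK : K ∈ K0) {g : V → ℚ} (hg : ∀ v, v ∉ W → g v = 0)
    {v : V} (hv : v ∈ K) : (A *ᵥ g) v = (A *ᵥ rs K g) v + (A *ᵥ rs D g) v := by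
  simp only [mulVec, dotProduct]
  rw [← Finset.sum_add_distrib]
  refine Finset.sum_congr rfl fun z _ => ?_
  by_cases hzK : z ∈ K
  · rw [rs_mem _ hzK, rs_notMem _ (h.disjD K hK z hzK)]; ring
  · rw [rs_notMem _ hzK]
    by_cases hzD : z ∈ D
    · rw [rs_mem _ hzD]; ring
    · rw [rs_notMem _ hzD]
      by_cases hzW : z ∈ W
      · rw [h.zero K hK v hv z hzW hzK hzD]; ring
      · rw [hg z hzW]; ring

/-- `A g` off `K ∪ D` for `g` supported on `K` -/
theorem mulVec_off {K : Finset V} (hK : K ∈ K0) {g : V → ℚ} (hg : ∀ v, v ∉ K → g v = 0)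
    {v : V} (hvW : v ∈ W) (hvK : v ∉ K) (hvD : v ∉ D) : (A *ᵥ g) v = 0 := by
  simp only [mulVec, dotProduct]
  refine Finset.sum_eq_zero fun z _ => ?_
  by_cases hz : z ∈ K
  · rw [h.skew v z, h.zero K hK z hz v hvW hvK hvD, neg_zero, zero_mul]
  · rw [hg z hz, mul_zero]

end

/-! ### the space `N` -/

/-- vectors with `A x = 0` on `U \ D` -/
def NN' (A : Matrix V V ℚ) (U W D : Finset V) : Submodule ℚ (V → ℚ) where
  carrier := {x | (∀ v, v ∉ W → x v = 0) ∧ ∀ u ∈ U, u ∉ D → (A *ᵥ x) u = 0}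
  add_mem' := by
    rintro x y ⟨h1, h2⟩ ⟨h3, h4⟩
    refine ⟨fun v hv => by simp [h1 v hv, h3 v hv], fun u hu hD => ?_⟩
    rw [mulVec_add, Pi.add_apply, h2 u hu hD, h4 u hu hD, add_zero]
  zero_mem' := ⟨fun v _ => rfl, fun u _ _ => by simp⟩
  smul_mem' := by
    rintro c x ⟨h1, h2⟩
    refine ⟨fun v hv => by simp [h1 v hv], fun u hu hD => ?_⟩
    rw [mulVec_smul, Pi.smul_apply, h2 u hu hD, smul_zero]

/-- restrictions to `D` of vectors with `A x = 0` on `U \ D` -/
def NN (A : Matrix V V ℚ) (U W D : Finset V) : Submodule ℚ (V → ℚ) := (NN' A U W D).map (rs D)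

theorem finrank_NN (h : CData A U W D K0 w R) (hU : NS A U) :
    Module.finrank ℚ (NN A U W D) + K0.card ≤ D.card := by
  -- the vectors `A hh` restricted to `D`
  let a : K0 → V → ℚ := fun K => rs D (A *ᵥ hh A R w K.1)
  let Ψ : (NN A U W D × (K0 → ℚ)) →ₗ[ℚ] (D → ℚ) :=
    { toFun := fun p v => p.1.1 v.1 + ∑ K : K0, p.2 K * a K v.1
      map_add' := by
        intro p q; ext v
        simp only [Prod.fst_add, Prod.snd_add, Submodule.coe_add, Pi.add_apply, add_mul,
          Finset.sum_add_distrib]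
        ring
      map_smul' := by
        intro c p; ext v
        simp only [Prod.smul_fst, Prod.smul_snd, Submodule.coe_smul, Pi.smul_apply, smul_eq_mul,
          RingHom.id_apply, mul_add, Finset.mul_sum, mul_assoc] }
  have hΨ : ∀ p v, Ψ p v = p.1.1 v.1 + ∑ K : K0, p.2 K * a K v.1 := fun p v => rfl
  have hinj : Function.Injective Ψ := by
    rw [injective_iff_map_eq_zero]
    rintro ⟨⟨g, hg⟩, c⟩ hp
    obtain ⟨x, ⟨hxW, hAx⟩, hxg⟩ := hg
    -- orthogonality
    have horth : ∀ K : K0, g ⬝ᵥ a K = 0 := by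
      intro K
      have h1 : x ⬝ᵥ (A *ᵥ hh A R w K.1) = 0 := by
        rw [h.skew.dot, dot_congr_supp (Z := K.1) (y' := 0) (fun v hv => hh_off h K.2 hv)
          (fun v hv => hAx v (h.subU K.1 K.2 hv) (h.disjD K.1 K.2 v hv))]
        simp
      rw [← h1, ← hxg]
      simp only [dotProduct]
      refine Finset.sum_congr rfl fun v _ => ?_
      by_cases hvD : v ∈ D
      · simp only [a]
        rw [rs_mem _ hvD, rs_mem _ hvD]
      · rw [rs_notMem _ hvD, zero_mul]
        by_cases hvW : v ∈ W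
        · by_cases hvK : v ∈ K.1
          · rw [A_hh h K.2 hvK, mul_zero]
          · rw [mulVec_off h K.2 (fun v hv => hh_off h K.2 hv) hvW hvK hvD, mul_zero]
        · rw [hxW v hvW, zero_mul]
    have hval : ∀ v, g v + ∑ K : K0, c K * a K v = 0 := by
      intro v
      by_cases hvD : v ∈ D
      · exact congrFun hp ⟨v, hvD⟩
      · rw [← hxg, rs_notMem _ hvD, zero_add]
        refine Finset.sum_eq_zero fun K _ => ?_
        simp only [a]
        rw [rs_notMem _ hvD, mul_zero]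
    have hgg : g ⬝ᵥ g = 0 := by
      have h1 : g = - ∑ K : K0, c K • a K := by
        ext v
        rw [Pi.neg_apply, Finset.sum_apply]
        simp only [Pi.smul_apply, smul_eq_mul]
        linarith [hval v]
      have h2 : g ⬝ᵥ (- ∑ K : K0, c K • a K) = 0 := by
        rw [dotProduct_neg, dotProduct_sum, neg_eq_zero]
        refine Finset.sum_eq_zero fun K _ => ?_
        rw [dotProduct_smul, horth K, smul_zero]
      rwa [← h1] at h2
    have hg0 : g = 0 := by
      ext v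
      rw [dotProduct] at hgg
      have := (Finset.sum_eq_zero_iff_of_nonneg (fun i _ => mul_self_nonneg (g i))).mp hgg v
        (Finset.mem_univ _)
      exact mul_self_eq_zero.mp this
    -- the combination of the kernel vectors
    have hH : ∑ K : K0, c K • hh A R w K.1 = 0 := by
      refine hU _ ?_ ?_
      · intro v hv
        rw [Finset.sum_apply]
        refine Finset.sum_eq_zero fun K _ => ?_
        rw [Pi.smul_apply, hh_off h K.2 (fun h' => hv (h.subU K.1 K.2 h')), smul_zero]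
      · intro v hv
        have e1 : A *ᵥ (∑ K : K0, c K • hh A R w K.1) = ∑ K : K0, c K • (A *ᵥ hh A R w K.1) := by
          have := map_sum (Matrix.mulVecLin A) (fun K : K0 => c K • hh A R w K.1) Finset.univ
          simp only [Matrix.mulVecLin_apply, mulVec_smul] at this
          exact this
        rw [e1, Finset.sum_apply]
        by_cases hvD : v ∈ D
        · have := hval v
          rw [hg0, Pi.zero_apply, zero_add] at this
          rw [← this]
          refine Finset.sum_congr rfl fun K _ => ?_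
          simp only [a]
          rw [rs_mem _ hvD]
          rfl
        · refine Finset.sum_eq_zero fun K _ => ?_
          rw [Pi.smul_apply]
          by_cases hvK : v ∈ K.1
          · rw [A_hh h K.2 hvK, smul_zero]
          · rw [mulVec_off h K.2 (fun v hv => hh_off h K.2 hv) (h.UW hv) hvK hvD, smul_zero]
    have hc0 : c = 0 := by
      ext K
      have := congrFun hH (w K.1)
      rw [Finset.sum_apply, Finset.sum_eq_single K] at this
      · rw [Pi.smul_apply, hh_w h K.2] at this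
        simpa using this
      · intro L _ hLK
        rw [Pi.smul_apply, hh_off h L.2 (fun h' => hLK (Subtype.ext
          (h.disj L.1 L.2 K.1 K.2 _ h' (h.wmem K.1 K.2)))), smul_zero]
      · intro h'; exact absurd (Finset.mem_univ _) h'
    ext1
    · exact Subtype.ext hg0
    · exact hc0
  have := LinearMap.finrank_le_finrank_of_injective hinj
  rw [Module.finrank_prod] at this
  simpa using this

/-- the form `q_K` on `N` -/
noncomputable def qK (A : Matrix V V ℚ) (U W D : Finset V)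
    (R : Finset V → (V → ℚ) →ₗ[ℚ] (V → ℚ)) (K : Finset V) :
    NN A U W D →ₗ[ℚ] NN A U W D →ₗ[ℚ] ℚ :=
  LinearMap.mk₂ ℚ (fun g g' => g.1 ⬝ᵥ (A *ᵥ XK A D R K g'.1))
    (fun g1 g2 g' => by rw [Submodule.coe_add, add_dotProduct])
    (fun c g g' => by rw [Submodule.coe_smul, smul_dotProduct])
    (fun g g1 g2 => by rw [Submodule.coe_add, map_add, mulVec_add, dotProduct_add])
    (fun c g g' => by rw [Submodule.coe_smul, map_smul, mulVec_smul, dotProduct_smul])

/-- a linear relation among the forms `q_K` -/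
theorem exists_relation (A : Matrix V V ℚ) (U W D : Finset V)
    (R : Finset V → (V → ℚ) →ₗ[ℚ] (V → ℚ)) (K1 : Finset (Finset V))
    (hcard : Module.finrank ℚ (NN A U W D) ^ 2 < K1.card) :
    ∃ c : Finset V → ℚ, (∀ K, K ∉ K1 → c K = 0) ∧ (∃ K ∈ K1, c K = 1) ∧
      ∀ g ∈ NN A U W D, ∀ g' ∈ NN A U W D,
        ∑ K ∈ K1, c K * (g ⬝ᵥ (A *ᵥ XK A D R K g')) = 0 := by
  let Φ : (K1 → ℚ) →ₗ[ℚ] (NN A U W D →ₗ[ℚ] NN A U W D →ₗ[ℚ] ℚ) :=
    { toFun := fun c => ∑ K : K1, c K • qK A U W D R K.1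
      map_add' := by
        intro c d
        simp only [Pi.add_apply, add_smul, Finset.sum_add_distrib]
      map_smul' := by
        intro r c
        simp only [Pi.smul_apply, smul_eq_mul, RingHom.id_apply, Finset.smul_sum, mul_smul] }
  have hker : LinearMap.ker Φ ≠ ⊥ := by
    apply LinearMap.ker_ne_bot_of_finrank_lt
    rw [Module.finrank_linearMap, Module.finrank_linearMap, Module.finrank_self]
    simp only [Module.finrank_fintype_fun_eq_card, Fintype.card_coe]
    calc Module.finrank ℚ (NN A U W D) * (Module.finrank ℚ (NN A U W D) * 1)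
        = Module.finrank ℚ (NN A U W D) ^ 2 := by ring
      _ < K1.card := hcard
  obtain ⟨c, hc, hc0⟩ := (Submodule.ne_bot_iff _).mp hker
  obtain ⟨K, hK⟩ : ∃ K, c K ≠ 0 := by
    by_contra hcon
    push Not at hcon
    exact hc0 (funext hcon)
  have hc' : ∑ K : K1, c K • qK A U W D R K.1 = 0 := hc
  refine ⟨fun L => if hL : L ∈ K1 then (c K)⁻¹ * c ⟨L, hL⟩ else 0, fun L hL => dif_neg hL,
    ⟨K.1, K.2, ?_⟩, ?_⟩
  · beta_reduce
    rw [dif_pos K.2]
    exact inv_mul_cancel₀ hK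
  · intro g hg g' hg'
    have h1 := congrArg (fun q => q ⟨g, hg⟩ ⟨g', hg'⟩) hc'
    simp only [LinearMap.zero_apply, LinearMap.sum_apply, LinearMap.smul_apply] at h1
    rw [← Finset.sum_coe_sort]
    have h2 : ∀ L : K1, (if hL : L.1 ∈ K1 then (c K)⁻¹ * c ⟨L.1, hL⟩ else 0) *
        (g ⬝ᵥ (A *ᵥ XK A D R L.1 g')) = (c K)⁻¹ * (c L • (qK A U W D R L.1 ⟨g, hg⟩) ⟨g', hg'⟩) := by
      intro L
      rw [dif_pos L.2, qK, LinearMap.mk₂_apply, smul_eq_mul, mul_assoc]
    rw [Finset.sum_congr rfl fun L _ => h2 L, ← Finset.mul_sum, h1, mul_zero]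

/-! ### the contracted matrix -/

/-- scaled matrix -/
noncomputable def A2 (A : Matrix V V ℚ) (K0 : Finset (Finset V)) (c : Finset V → ℚ) :
    Matrix V V ℚ := fun x z =>
  A x z * (1 + ∑ K ∈ K0, if x ∈ K ∧ z ∈ K then ((1 - c K)⁻¹ - 1) else 0)

/-- contracted parts -/
def cen (K0 : Finset (Finset V)) (c : Finset V → ℚ) : Finset (Finset V) :=
  K0.filter (fun K => c K = 1)

/-- removed vertices -/
def rem (K0 : Finset (Finset V)) (c : Finset V → ℚ) (w : Finset V → V) : Finset V :=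
  (cen K0 c).biUnion (fun K => K.erase (w K))

/-- lift from the contracted space -/
noncomputable def HH (A : Matrix V V ℚ) (R : Finset V → (V → ℚ) →ₗ[ℚ] (V → ℚ))
    (w : Finset V → V) (K0 : Finset (Finset V)) (c : Finset V → ℚ) : (V → ℚ) →ₗ[ℚ] (V → ℚ) where
  toFun g := g + ∑ K ∈ cen K0 c, g (w K) • YK A R w K
  map_add' g g' := by
    simp only [Pi.add_apply, add_smul, Finset.sum_add_distrib]
    abel
  map_smul' r g := by
    simp only [Pi.smul_apply, smul_eq_mul, RingHom.id_apply, smul_add, Finset.smul_sum, mul_smul]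

/-- contracted matrix -/
noncomputable def A3 (A : Matrix V V ℚ) (R : Finset V → (V → ℚ) →ₗ[ℚ] (V → ℚ))
    (w : Finset V → V) (K0 : Finset (Finset V)) (c : Finset V → ℚ) : Matrix V V ℚ := fun x z =>
  HH A R w K0 c (Pi.single x 1) ⬝ᵥ (A2 A K0 c *ᵥ HH A R w K0 c (Pi.single z 1))

omit [Fintype V] in
theorem A2_skew (hA : Skew A) (c : Finset V → ℚ) : Skew (A2 A K0 c) := by
  intro x z
  simp only [A2]
  rw [hA x z, neg_mul]
  congr 3
  refine Finset.sum_congr rfl fun K _ => ?_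
  simp only [and_comm]

theorem A3_skew (hA : Skew A) (c : Finset V → ℚ) : Skew (A3 A R w K0 c) := fun _ _ =>
  (A2_skew hA c).dot _ _

theorem A3_mulVec (c : Finset V → ℚ) (g : V → ℚ) (v : V) :
    (A3 A R w K0 c *ᵥ g) v =
      HH A R w K0 c (Pi.single v 1) ⬝ᵥ (A2 A K0 c *ᵥ HH A R w K0 c g) := by
  let Λ : (V → ℚ) →ₗ[ℚ] ℚ :=
    { toFun := fun g => HH A R w K0 c (Pi.single v 1) ⬝ᵥ (A2 A K0 c *ᵥ HH A R w K0 c g)
      map_add' := by
        intro g g'
        rw [map_add, mulVec_add, dotProduct_add]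
      map_smul' := by
        intro r g
        rw [map_smul, mulVec_smul, dotProduct_smul]; rfl }
  have h1 : g = ∑ z, g z • (Pi.single z 1 : V → ℚ) := by
    ext u
    rw [Finset.sum_apply, Finset.sum_eq_single u]
    · simp
    · intro b _ hb
      rw [Pi.smul_apply, Pi.single_eq_of_ne hb.symm, smul_zero]
    · intro h; exact absurd (Finset.mem_univ _) h
  change _ = Λ g
  conv_rhs => rw [h1, map_sum]
  rw [mulVec, dotProduct]
  refine Finset.sum_congr rfl fun z _ => ?_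
  rw [map_smul, smul_eq_mul, mul_comm]
  rfl

section

variable (h : CData A U W D K0 w R) (c : Finset V → ℚ)

include h

theorem A2_mulVec_mem {K : Finset V} (hK : K ∈ K0) {v : V} (hv : v ∈ K) (g : V → ℚ) :
    (A2 A K0 c *ᵥ g) v = (A *ᵥ g) v + ((1 - c K)⁻¹ - 1) * (A *ᵥ rs K g) v := by
  simp only [mulVec, dotProduct]
  rw [Finset.mul_sum, ← Finset.sum_add_distrib]
  refine Finset.sum_congr rfl fun z _ => ?_
  have : (∑ L ∈ K0, if v ∈ L ∧ z ∈ L then ((1 - c L)⁻¹ - 1) else 0) =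
      if z ∈ K then ((1 - c K)⁻¹ - 1) else 0 := by
    rw [Finset.sum_eq_single_of_mem K hK]
    · simp only [hv, true_and]
    · intro L hL hne
      rw [if_neg]
      rintro ⟨h1, -⟩
      exact hne (h.disj L hL K hK v h1 hv)
  simp only [A2]
  rw [this]
  by_cases hz : z ∈ K
  · rw [if_pos hz, rs_mem _ hz]; ring
  · rw [if_neg hz, rs_notMem _ hz]; ring

omit h in
theorem A2_mulVec_notMem {v : V} (hv : ∀ K ∈ K0, v ∉ K) (g : V → ℚ) :
    (A2 A K0 c *ᵥ g) v = (A *ᵥ g) v := by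
  simp only [mulVec, dotProduct]
  refine Finset.sum_congr rfl fun z _ => ?_
  have : (∑ L ∈ K0, if v ∈ L ∧ z ∈ L then ((1 - c L)⁻¹ - 1) else 0) = 0 := by
    refine Finset.sum_eq_zero fun L hL => ?_
    rw [if_neg]
    rintro ⟨h1, -⟩
    exact hv L hL h1
  simp only [A2]
  rw [this]
  ring

omit h in
theorem HH_apply (g : V → ℚ) (v : V) :
    HH A R w K0 c g v = g v + ∑ K ∈ cen K0 c, g (w K) * YK A R w K v := by
  change (g + ∑ K ∈ cen K0 c, g (w K) • YK A R w K) v = _
  rw [Pi.add_apply, Finset.sum_apply]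
  rfl

omit h [Fintype V] [DecidableEq V] in
theorem mem_cen {K : Finset V} : K ∈ cen K0 c ↔ K ∈ K0 ∧ c K = 1 := Finset.mem_filter

omit h in
theorem HH_single {v : V} (hv : ∀ K ∈ cen K0 c, v ≠ w K) :
    HH A R w K0 c (Pi.single v 1) = Pi.single v 1 := by
  ext u
  rw [HH_apply, Finset.sum_eq_zero, add_zero]
  intro K hK
  rw [Pi.single_eq_of_ne (hv K hK).symm, zero_mul]

theorem HH_single_w {K : Finset V} (hK : K ∈ cen K0 c) :
    HH A R w K0 c (Pi.single (w K) 1) = hh A R w K := by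
  have hK0 := ((mem_cen c).mp hK).1
  ext u
  rw [HH_apply, Finset.sum_eq_single_of_mem K hK, Pi.single_eq_same, one_mul]
  · rfl
  · intro L hL hne
    have hL0 := ((mem_cen c).mp hL).1
    rw [Pi.single_eq_of_ne (fun h' : w L = w K => hne
      (h.disj L hL0 K hK0 _ (h.wmem L hL0) (h' ▸ h.wmem K hK0))), zero_mul]

/-- value of the lift on a contracted part -/
theorem HH_on {K : Finset V} (hK : K ∈ cen K0 c) (g : V → ℚ) {v : V} (hv : v ∈ K) :
    HH A R w K0 c g v = g v + g (w K) * YK A R w K v := by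
  rw [HH_apply, Finset.sum_eq_single_of_mem K hK]
  intro L hL hne
  have hK0 := ((mem_cen c).mp hK).1
  have hL0 := ((mem_cen c).mp hL).1
  rw [YK_off h hL0 (fun h' => hne (h.disj L hL0 K hK0 v (Finset.mem_of_mem_erase h') hv)), mul_zero]

/-- value of the lift off the removed vertices -/
theorem HH_notMem (g : V → ℚ) {v : V} (hv : v ∉ rem K0 c w) : HH A R w K0 c g v = g v := by
  rw [HH_apply, Finset.sum_eq_zero, add_zero]
  intro K hK
  rw [YK_off h ((mem_cen c).mp hK).1 (fun h' => hv (Finset.mem_biUnion.mpr ⟨K, hK, h'⟩)), mul_zero]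

/-- **Nonsingularity of the contracted matrix.** -/
theorem NS_A3 (hrel : ∀ g ∈ NN A U W D, ∀ g' ∈ NN A U W D,
      ∑ K ∈ K0, c K * (g ⬝ᵥ (A *ᵥ XK A D R K g')) = 0)
    {Z : Finset V} (hUZ : U ⊆ Z) (hZW : Z ⊆ W) (hNS : NS A Z) :
    NS (A3 A R w K0 c) (Z \ rem K0 c w) := by
  intro x' hx' hAx'
  set x1 := HH A R w K0 c x' with hx1
  have hx'Z : ∀ v, v ∉ Z → x' v = 0 := fun v hv => hx' v fun h' => hv (Finset.mem_sdiff.mp h').1
  have hx1Z : ∀ v, v ∉ Z → x1 v = 0 := by
    intro v hv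
    have : v ∉ rem K0 c w := by
      intro h'
      obtain ⟨K, hK, hvK⟩ := Finset.mem_biUnion.mp h'
      exact hv (hUZ (h.subU K ((mem_cen c).mp hK).1 (Finset.mem_of_mem_erase hvK)))
    rw [hx1, HH_notMem h c _ this, hx'Z v hv]
  have hx1W : ∀ v, v ∉ W → x1 v = 0 := fun v hv => hx1Z v fun h' => hv (hZW h')
  have key : ∀ v ∈ Z, v ∉ rem K0 c w →
      HH A R w K0 c (Pi.single v 1) ⬝ᵥ (A2 A K0 c *ᵥ x1) = 0 := by
    intro v hv hv'
    rw [hx1, ← A3_mulVec]
    exact hAx' v (Finset.mem_sdiff.mpr ⟨hv, hv'⟩)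
  have hα : ∀ v ∈ Z, v ∉ rem K0 c w → (∀ K ∈ cen K0 c, v ≠ w K) → (A2 A K0 c *ᵥ x1) v = 0 := by
    intro v hv hv' hvc
    have := key v hv hv'
    rwa [HH_single c hvc, single_one_dotProduct] at this
  -- points of uncontracted parts
  have hunc : ∀ K ∈ K0, K ∉ cen K0 c → ∀ v ∈ K, v ∉ rem K0 c w ∧ ∀ L ∈ cen K0 c, v ≠ w L := by
    intro K hK hKc v hv
    constructor
    · intro h'
      obtain ⟨L, hL, hvL⟩ := Finset.mem_biUnion.mp h'
      exact hKc ((h.disj L ((mem_cen c).mp hL).1 K hK v (Finset.mem_of_mem_erase hvL) hv) ▸ hL)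
    · rintro L hL rfl
      exact hKc ((h.disj L ((mem_cen c).mp hL).1 K hK _
        (h.wmem L ((mem_cen c).mp hL).1) hv) ▸ hL)
  have hKZ : ∀ K ∈ K0, ∀ v ∈ K, v ∈ Z := fun K hK v hv => hUZ (h.subU K hK hv)
  have hA2K : ∀ K ∈ K0, K ∉ cen K0 c → ∀ v ∈ K, (A2 A K0 c *ᵥ x1) v = 0 := fun K hK hKc v hv =>
    hα v (hKZ K hK v hv) (hunc K hK hKc v hv).1 (hunc K hK hKc v hv).2
  have hβ : ∀ K ∈ K0, hh A R w K ⬝ᵥ (A2 A K0 c *ᵥ x1) = 0 := by
    intro K hK
    by_cases hKc : K ∈ cen K0 c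
    · rw [← HH_single_w h c hKc]
      refine key _ (hKZ K hK _ (h.wmem K hK)) ?_
      intro h'
      obtain ⟨L, hL, hvL⟩ := Finset.mem_biUnion.mp h'
      have := h.disj L ((mem_cen c).mp hL).1 K hK _ (Finset.mem_of_mem_erase hvL) (h.wmem K hK)
      subst this
      exact Finset.notMem_erase _ _ hvL
    · rw [dot_congr_supp (Z := K) (y' := 0) (fun v hv => hh_off h hK hv) (hA2K K hK hKc)]
      simp
  have hrsK : ∀ K : Finset V, ∀ g : V → ℚ, ∀ v, v ∉ K → rs K g v = 0 := fun K g v hv =>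
    rs_notMem g hv
  have hβ' : ∀ K ∈ K0, hh A R w K ⬝ᵥ (A *ᵥ rs D x1) = 0 := by
    intro K hK
    have h1 : hh A R w K ⬝ᵥ (A2 A K0 c *ᵥ x1) = hh A R w K ⬝ᵥ (A *ᵥ rs D x1 +
        (1 - c K)⁻¹ • (A *ᵥ rs K x1)) := by
      refine dot_congr_supp (Z := K) (fun v hv => hh_off h hK hv) fun v hv => ?_
      rw [A2_mulVec_mem h c hK hv, mulVec_split h hK hx1W hv, Pi.add_apply, Pi.smul_apply,
        smul_eq_mul]
      ring
    rw [hβ K hK, dotProduct_add, dotProduct_smul, hh_dot_A h hK (hrsK K x1), smul_zero,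
      add_zero] at h1
    exact h1.symm
  have hδ : ∀ K ∈ K0, rs K x1 = x1 (w K) • hh A R w K + (1 - c K) • XK A D R K x1 := by
    intro K hK
    by_cases hKc : K ∈ cen K0 c
    · have hc1 := ((mem_cen c).mp hKc).2
      rw [hc1, sub_self, zero_smul, add_zero]
      have hw1 : x1 (w K) = x' (w K) := by
        rw [hx1, HH_on h c hKc _ (h.wmem K hK), YK_off h hK (Finset.notMem_erase _ _), mul_zero,
          add_zero]
      ext v
      rw [Pi.smul_apply, smul_eq_mul]
      by_cases hv : v ∈ K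
      · rw [rs_mem _ hv, hw1]
        by_cases hvw : v = w K
        · rw [hvw, hw1, hh_w h hK, mul_one]
        · rw [hx1, HH_on h c hKc _ hv, hx' v, zero_add, hh, Pi.add_apply,
            Pi.single_eq_of_ne hvw, zero_add]
          rw [Finset.mem_sdiff, not_and_or, not_not]
          exact Or.inr (Finset.mem_biUnion.mpr ⟨K, hKc, Finset.mem_erase.mpr ⟨hvw, hv⟩⟩)
      · rw [rs_notMem _ hv, hh_off h hK hv, mul_zero]
    · have hne : 1 - c K ≠ 0 := by
        intro h'
        exact hKc ((mem_cen c).mpr ⟨hK, by linarith⟩)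
      have h1 : ∀ v ∈ K, (A *ᵥ rs K x1) v = -((1 - c K) * (A *ᵥ rs D x1) v) := by
        intro v hv
        have := hA2K K hK hKc v hv
        rw [A2_mulVec_mem h c hK hv, mulVec_split h hK hx1W hv] at this
        have h2 : (1 - c K) * ((A *ᵥ rs K x1) v + (A *ᵥ rs D x1) v +
            ((1 - c K)⁻¹ - 1) * (A *ᵥ rs K x1) v) = 0 := by rw [this, mul_zero]
        have h3 : (1 - c K) * (1 - c K)⁻¹ = 1 := mul_inv_cancel₀ hne
        linear_combination h2 - (A *ᵥ rs K x1) v * h3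
      have h4 := h.ns K hK (rs K x1 - (x1 (w K) • hh A R w K + (1 - c K) • XK A D R K x1)) (by
        intro v hv
        rw [Pi.sub_apply, Pi.add_apply, Pi.smul_apply, Pi.smul_apply, XK_off h hK _ hv, smul_zero,
          add_zero, smul_eq_mul]
        rw [Finset.mem_erase, not_and_or, not_not] at hv
        rcases hv with hv | hv
        · rw [hv, rs_mem _ (h.wmem K hK), hh_w h hK, mul_one, sub_self]
        · rw [rs_notMem _ hv, hh_off h hK hv, mul_zero, sub_self]) (by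
        intro v hv
        have hvK := Finset.mem_of_mem_erase hv
        rw [mulVec_sub, mulVec_add, mulVec_smul, mulVec_smul, Pi.sub_apply, Pi.add_apply,
          Pi.smul_apply, Pi.smul_apply, A_hh h hK hvK, A_XK h hK _ hv, h1 v hvK]
        simp only [smul_eq_mul]
        ring)
      exact sub_eq_zero.mp h4
  -- the corrected vector
  set x := x1 + ∑ K ∈ K0, c K • XK A D R K x1 with hx
  have hxv : ∀ v, x v = x1 v + ∑ K ∈ K0, c K * XK A D R K x1 v := by
    intro v
    rw [hx, Pi.add_apply, Finset.sum_apply]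
    rfl
  have hxv' : ∀ v, (∀ K ∈ K0, v ∉ K) → x v = x1 v := by
    intro v hv
    rw [hxv, Finset.sum_eq_zero, add_zero]
    intro K hK
    rw [XK_off' h hK _ (hv K hK), mul_zero]
  have hxZ : ∀ v, v ∉ Z → x v = 0 := by
    intro v hv
    rw [hxv' v (fun K hK hvK => hv (hKZ K hK v hvK)), hx1Z v hv]
  have hxW : ∀ v, v ∉ W → x v = 0 := fun v hv => hxZ v fun h' => hv (hZW h')
  have hxD : rs D x = rs D x1 := by
    ext v
    by_cases hv : v ∈ D
    · rw [rs_mem _ hv, rs_mem _ hv, hxv' v (fun K hK hvK => h.disjD K hK v hvK hv)]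
    · rw [rs_notMem _ hv, rs_notMem _ hv]
  have hxK : ∀ K ∈ K0, rs K x = x1 (w K) • hh A R w K + XK A D R K x1 := by
    intro K hK
    ext v
    by_cases hv : v ∈ K
    · have h1 := congrFun (hδ K hK) v
      rw [rs_mem _ hv, Pi.add_apply, Pi.smul_apply, Pi.smul_apply, smul_eq_mul, smul_eq_mul] at h1
      rw [rs_mem _ hv, hxv, Finset.sum_eq_single_of_mem K hK, h1, Pi.add_apply, Pi.smul_apply,
        smul_eq_mul]
      · ring
      · intro L hL hne
        rw [XK_off' h hL _ (fun h' => hne (h.disj L hL K hK v h' hv)), mul_zero]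
    · rw [rs_notMem _ hv, Pi.add_apply, Pi.smul_apply, hh_off h hK hv, XK_off' h hK _ hv,
        smul_zero, add_zero]
  have hAxK : ∀ K ∈ K0, ∀ v ∈ K, (A *ᵥ x) v = 0 := by
    intro K hK
    have h1 : ∀ v ∈ K, (A *ᵥ x) v = (A *ᵥ XK A D R K x1 + A *ᵥ rs D x1) v := by
      intro v hv
      rw [mulVec_split h hK hxW hv, hxK K hK, hxD, mulVec_add, mulVec_smul, Pi.add_apply,
        Pi.smul_apply, A_hh h hK hv, smul_zero, zero_add, Pi.add_apply]
    have h2 : ∀ v ∈ K.erase (w K), (A *ᵥ XK A D R K x1 + A *ᵥ rs D x1) v = 0 := by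
      intro v hv
      rw [Pi.add_apply, A_XK h hK _ hv, neg_add_cancel]
    intro v hv
    rw [h1 v hv]
    by_cases hvw : v = w K
    · rw [hvw, ← hh_dot h hK h2, dotProduct_add, hh_dot_A h hK (fun v hv => XK_off' h hK _ hv),
        hβ' K hK, add_zero]
    · exact h2 v (Finset.mem_erase.mpr ⟨hvw, hv⟩)
  -- points outside the parts
  have hout : ∀ v ∈ Z, (∀ K ∈ K0, v ∉ K) → (A *ᵥ x1) v = 0 := by
    intro v hv hvK
    rw [← A2_mulVec_notMem c hvK]
    refine hα v hv ?_ ?_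
    · intro h'
      obtain ⟨L, hL, hvL⟩ := Finset.mem_biUnion.mp h'
      exact hvK L ((mem_cen c).mp hL).1 (Finset.mem_of_mem_erase hvL)
    · rintro L hL rfl
      exact hvK L ((mem_cen c).mp hL).1 (h.wmem L ((mem_cen c).mp hL).1)
  have hAx : ∀ v, (A *ᵥ x) v = (A *ᵥ x1) v + ∑ K ∈ K0, c K * (A *ᵥ XK A D R K x1) v := by
    intro v
    have e1 : A *ᵥ (∑ K ∈ K0, c K • XK A D R K x1) = ∑ K ∈ K0, c K • (A *ᵥ XK A D R K x1) := by
      have := map_sum (Matrix.mulVecLin A) (fun K => c K • XK A D R K x1) K0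
      simp only [Matrix.mulVecLin_apply, mulVec_smul] at this
      exact this
    rw [hx, mulVec_add, Pi.add_apply, e1, Finset.sum_apply]
    rfl
  have hAxOff : ∀ v ∈ Z, v ∉ D → (A *ᵥ x) v = 0 := by
    intro v hv hvD
    by_cases hvK : ∃ K ∈ K0, v ∈ K
    · obtain ⟨K, hK, hvK⟩ := hvK
      exact hAxK K hK v hvK
    · push Not at hvK
      rw [hAx, hout v hv hvK, zero_add]
      refine Finset.sum_eq_zero fun K hK => ?_
      rw [mulVec_off h hK (fun v hv => XK_off' h hK _ hv) (hZW hv) (hvK K hK) hvD, mul_zero]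
  have hAxD : ∀ v ∈ Z, v ∈ D → (A *ᵥ x) v = ∑ K ∈ K0, c K * (A *ᵥ XK A D R K x1) v := by
    intro v hv hvD
    rw [hAx, hout v hv (fun K hK hvK => h.disjD K hK v hvK hvD), zero_add]
  have hgN : rs D x1 ∈ NN A U W D := by
    rw [← hxD]
    exact ⟨x, ⟨hxW, fun u hu huD => hAxOff u (hUZ hu) huD⟩, rfl⟩
  -- the dual solution
  obtain ⟨RZ, hRZ⟩ := hNS.exists_solve
  obtain ⟨hz1, hz2⟩ := hRZ (rs D x)
  set z := RZ (rs D x) with hz
  have hzN : rs D z ∈ NN A U W D := by
    refine ⟨z, ⟨fun v hv => hz1 v fun h' => hv (hZW h'), fun u hu huD => ?_⟩, rfl⟩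
    rw [hz2 u (hUZ hu), rs_notMem _ huD]
  have h1 : x ⬝ᵥ (A *ᵥ z) = x ⬝ᵥ rs D x := dot_congr_supp hxZ hz2
  have h2 : z ⬝ᵥ (A *ᵥ x) = 0 := by
    have e1 : z ⬝ᵥ (A *ᵥ x) = ∑ K ∈ K0, c K * (rs D z ⬝ᵥ (A *ᵥ XK A D R K (rs D x1))) := by
      have e2 : ∀ v, z v * (A *ᵥ x) v =
          ∑ K ∈ K0, c K * (rs D z v * (A *ᵥ XK A D R K (rs D x1)) v) := by
        intro v
        by_cases hvZ : v ∈ Z
        · by_cases hvD : v ∈ D
          · rw [hAxD v hvZ hvD, rs_mem _ hvD, Finset.mul_sum]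
            refine Finset.sum_congr rfl fun K _ => ?_
            rw [XK_rs]
            ring
          · rw [hAxOff v hvZ hvD, rs_notMem _ hvD, mul_zero]
            symm
            exact Finset.sum_eq_zero fun K _ => by ring
        · rw [hz1 v hvZ, zero_mul]
          symm
          refine Finset.sum_eq_zero fun K _ => ?_
          by_cases hvD : v ∈ D
          · rw [rs_mem _ hvD, hz1 v hvZ]; ring
          · rw [rs_notMem _ hvD]; ring
      rw [dotProduct, Finset.sum_congr rfl fun v _ => e2 v, Finset.sum_comm]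
      refine Finset.sum_congr rfl fun K _ => ?_
      rw [dotProduct, Finset.mul_sum]
    rw [e1]
    exact hrel _ hzN _ hgN
  have h3 : x ⬝ᵥ rs D x = 0 := by
    rw [← h1, h.skew.dot, h2, neg_zero]
  have hD0 : rs D x = 0 := by
    have e1 : x ⬝ᵥ rs D x = ∑ v, rs D x v * rs D x v := by
      rw [dotProduct]
      refine Finset.sum_congr rfl fun v _ => ?_
      by_cases hv : v ∈ D
      · rw [rs_mem _ hv]
      · rw [rs_notMem _ hv]; ring
    rw [e1] at h3
    ext v
    exact mul_self_eq_zero.mp ((Finset.sum_eq_zero_iff_of_nonneg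
      (fun i _ => mul_self_nonneg _)).mp h3 v (Finset.mem_univ _))
  have hXK0 : ∀ K, XK A D R K x1 = 0 := by
    intro K
    rw [← XK_rs, ← hxD, hD0, map_zero]
  have hxx1 : x = x1 := by
    rw [hx, Finset.sum_eq_zero, add_zero]
    intro K _
    rw [hXK0, smul_zero]
  have hx0 : x = 0 := by
    refine hNS x hxZ fun v hv => ?_
    by_cases hvD : v ∈ D
    · rw [hAxD v hv hvD]
      refine Finset.sum_eq_zero fun K _ => ?_
      rw [hXK0]
      simp
    · exact hAxOff v hv hvD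
  ext v
  by_cases hv : v ∈ rem K0 c w
  · exact hx' v fun h' => (Finset.mem_sdiff.mp h').2 hv
  · rw [← HH_notMem h c x' hv, ← hx1, ← hxx1, hx0]

end

end Pool.Agent.H9.MMN
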