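import Mathlib
import Pool.Agent.H9.MMN.CAlg
import Pool.Agent.H9.MMN.Tutte

/-!
# Contraction of free parts of a barrier
-/

namespace Pool.Agent.H9.MMN

open Matrix

variable {V : Type*}

/-- `x` represents `a` -/
def rep (C1 : Finset (Finset V)) (w : Finset V → V) (x a : V) : Prop :=
  a = x ∨ ∃ K ∈ C1, x = w K ∧ a ∈ K

/-- contracted graph -/
def conG (G : SimpleGraph V) (C1 : Finset (Finset V)) (w : Finset V → V) : SimpleGraph V where
  Adj x z := x ≠ z ∧ ∃ a b, G.Adj a b ∧ rep C1 w x a ∧ rep C1 w z b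
  symm := by
    constructor
    rintro x z ⟨h1, a, b, h2, h3, h4⟩
    exact ⟨h1.symm, b, a, h2.symm, h4, h3⟩
  loopless := by
    constructor
    rintro x ⟨h, -⟩
    exact h rfl

variable [DecidableEq V]

theorem conG_back {G : SimpleGraph V} {C1 : Finset (Finset V)} {w : Finset V → V} {Z : Finset V}
    (hdisj : ∀ K ∈ C1, ∀ L ∈ C1, ∀ v, v ∈ K → v ∈ L → K = L)
    (hnadj : ∀ K ∈ C1, ∀ L ∈ C1, ∀ x ∈ K, ∀ y ∈ L, G.Adj x y → K = L)
    (hw : ∀ K ∈ C1, w K ∈ K) (hsub : ∀ K ∈ C1, K ⊆ Z)
    (hfc : ∀ K ∈ C1, ∀ a ∈ K, HasPM G (K.erase a))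
    (hPM : HasPM (conG G C1 w) (Z \ C1.biUnion (fun K => K.erase (w K)))) : HasPM G Z := by
  classical
  obtain ⟨f, hf⟩ := hPM
  set Z' := Z \ C1.biUnion (fun K => K.erase (w K)) with hZ'
  have memZ' : ∀ v, v ∈ Z' ↔ v ∈ Z ∧ ∀ K ∈ C1, v ∈ K → v = w K := by
    intro v
    rw [hZ', Finset.mem_sdiff, Finset.mem_biUnion]
    constructor
    · rintro ⟨h1, h2⟩
      refine ⟨h1, fun K hK hvK => ?_⟩
      by_contra hne
      exact h2 ⟨K, hK, Finset.mem_erase.mpr ⟨hne, hvK⟩⟩
    · rintro ⟨h1, h2⟩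
      refine ⟨h1, ?_⟩
      rintro ⟨K, hK, hvK⟩
      exact (Finset.mem_erase.mp hvK).1 (h2 K hK (Finset.mem_erase.mp hvK).2)
  have hwinj : ∀ K ∈ C1, ∀ L ∈ C1, w K = w L → K = L := fun K hK L hL h =>
    hdisj K hK L hL _ (hw K hK) (h ▸ hw L hL)
  have hwZ' : ∀ K ∈ C1, w K ∈ Z' := by
    intro K hK
    rw [memZ']
    exact ⟨hsub K hK (hw K hK), fun L hL h => by rw [hdisj L hL K hK _ h (hw K hK)]⟩
  have claim2 : ∀ K ∈ C1, (∀ L ∈ C1, f (w K) ∉ L) ∧ ∃ a ∈ K, G.Adj a (f (w K)) := by
    intro K hK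
    obtain ⟨h1, ⟨hne, a, b, hab, ha, hb⟩, h3⟩ := hf (w K) (hwZ' K hK)
    have haK : a ∈ K := by
      rcases ha with rfl | ⟨L, hL, h4, h5⟩
      · exact hw K hK
      · rw [hwinj K hK L hL h4]; exact h5
    have hbf : b = f (w K) := by
      rcases hb with h | ⟨L, hL, h4, h5⟩
      · exact h
      · have := hnadj K hK L hL a haK b h5 hab
        subst this
        exact absurd h4.symm hne
    subst hbf
    refine ⟨fun L hL h => ?_, a, haK, hab⟩
    have := hnadj K hK L hL a haK _ h hab
    subst this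
    exact hne (((memZ' _).mp h1).2 K hK h).symm
  set M1 := Z'.filter (fun v => (∀ K ∈ C1, v ∉ K) ∧ ∀ K ∈ C1, f v ∉ K) with hM1
  have hPM1 : HasPM G M1 := by
    refine ⟨f, fun v hv => ?_⟩
    rw [hM1, Finset.mem_filter] at hv
    obtain ⟨h1, h2, h3⟩ := hv
    obtain ⟨g1, ⟨hne, a, b, hab, ha, hb⟩, g3⟩ := hf v h1
    have hav : a = v := by
      rcases ha with h | ⟨L, hL, h4, h5⟩
      · exact h
      · exact absurd (h4 ▸ hw L hL) (h2 L hL)
    have hbv : b = f v := by
      rcases hb with h | ⟨L, hL, h4, h5⟩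
      · exact h
      · exact absurd (h4 ▸ hw L hL) (h3 L hL)
    rw [hav, hbv] at hab
    refine ⟨?_, hab, g3⟩
    rw [hM1, Finset.mem_filter]
    exact ⟨g1, h3, fun K hK => by rw [g3]; exact h2 K hK⟩
  have hPMK : HasPM G (C1.biUnion (fun K => K ∪ {f (w K)})) := by
    refine HasPM.biUnion C1 _ ?_ ?_
    · intro K hK
      obtain ⟨h1, a, haK, ha⟩ := claim2 K hK
      have : K ∪ {f (w K)} = K.erase a ∪ {a, f (w K)} := by
        ext z
        simp only [Finset.mem_union, Finset.mem_singleton, Finset.mem_erase, Finset.mem_insert]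
        constructor
        · rintro (h | h)
          · by_cases hza : z = a
            · exact Or.inr (Or.inl hza)
            · exact Or.inl ⟨hza, h⟩
          · exact Or.inr (Or.inr h)
        · rintro (⟨-, h⟩ | rfl | h)
          · exact Or.inl h
          · exact Or.inl haK
          · exact Or.inr h
      rw [this]
      refine (hfc K hK a haK).union (HasPM.pair ha) ?_
      rw [Finset.disjoint_left]
      intro z hz hz'
      rw [Finset.mem_erase] at hz
      rw [Finset.mem_insert, Finset.mem_singleton] at hz'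
      rcases hz' with h | h
      · exact hz.1 h
      · exact h1 K hK (h ▸ hz.2)
    · intro K hK L hL hne
      rw [Finset.disjoint_left]
      intro z hz hz'
      rw [Finset.mem_union, Finset.mem_singleton] at hz hz'
      rcases hz with h | h
      · rcases hz' with h' | h'
        · exact hne (hdisj K hK L hL z h h')
        · exact (claim2 L hL).1 K hK (h' ▸ h)
      · rcases hz' with h' | h'
        · exact (claim2 K hK).1 L hL (h ▸ h')
        · have e : f (w K) = f (w L) := by rw [← h, ← h']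
          apply hne
          apply hwinj K hK L hL
          rw [← (hf _ (hwZ' K hK)).2.2, ← (hf _ (hwZ' L hL)).2.2, e]
  have hZ : Z = M1 ∪ C1.biUnion (fun K => K ∪ {f (w K)}) := by
    ext z
    rw [Finset.mem_union, Finset.mem_biUnion]
    constructor
    · intro hz
      by_cases h1 : ∃ K ∈ C1, z ∈ K
      · obtain ⟨K, hK, hzK⟩ := h1
        exact Or.inr ⟨K, hK, Finset.mem_union_left _ hzK⟩
      · push Not at h1
        have hz' : z ∈ Z' := (memZ' z).mpr ⟨hz, fun K hK h => absurd h (h1 K hK)⟩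
        by_cases h2 : ∃ K ∈ C1, f z ∈ K
        · obtain ⟨K, hK, hzK⟩ := h2
          have h3 := ((memZ' _).mp (hf z hz').1).2 K hK hzK
          refine Or.inr ⟨K, hK, Finset.mem_union_right _ ?_⟩
          rw [Finset.mem_singleton, ← h3, (hf z hz').2.2]
        · push Not at h2
          exact Or.inl (Finset.mem_filter.mpr ⟨hz', h1, h2⟩)
    · rintro (h | ⟨K, hK, h⟩)
      · exact ((memZ' z).mp (Finset.mem_filter.mp h).1).1
      · rw [Finset.mem_union, Finset.mem_singleton] at h
        rcases h with h | h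
        · exact hsub K hK h
        · rw [h]
          exact ((memZ' _).mp (hf _ (hwZ' K hK)).1).1
  rw [hZ]
  refine hPM1.union hPMK ?_
  rw [Finset.disjoint_left]
  intro z hz hz'
  rw [hM1, Finset.mem_filter] at hz
  obtain ⟨K, hK, h⟩ := Finset.mem_biUnion.mp hz'
  rw [Finset.mem_union, Finset.mem_singleton] at h
  rcases h with h | h
  · exact hz.2.1 K hK h
  · refine hz.2.2 K hK ?_
    rw [h, (hf _ (hwZ' K hK)).2.2]
    exact hw K hK

variable [Fintype V]

omit [Fintype V] in
/-- number of parts meeting the terminals -/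
theorem card_nonfree {G : SimpleGraph V} {U X B : Finset V} {C : Finset (Finset V)}
    (hpart : IsPart G (U ∪ X) B C) : C.card ≤ (C.filter (fun K => K ⊆ U)).card + X.card := by
  rw [← Finset.card_filter_add_card_filter_not (s := C) (fun K => K ⊆ U)]
  refine Nat.add_le_add_left ?_ _
  have hex : ∀ K ∈ C.filter (fun K => ¬ K ⊆ U), ∃ x, x ∈ K ∧ x ∈ X := by
    intro K hK
    obtain ⟨hKC, hKU⟩ := Finset.mem_filter.mp hK
    obtain ⟨x, hxK, hxU⟩ := Finset.not_subset.mp hKU
    refine ⟨x, hxK, ?_⟩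
    have := (Finset.mem_sdiff.mp (hpart.mem K hKC hxK)).1
    rcases Finset.mem_union.mp this with h | h
    · exact absurd h hxU
    · exact h
  rcases (C.filter (fun K => ¬ K ⊆ U)).eq_empty_or_nonempty with h0 | ⟨K0, hK0⟩
  · rw [h0]; simp
  have : Nonempty V := ⟨(hex K0 hK0).choose⟩
  choose! x hx1 hx2 using hex
  refine Finset.card_le_card_of_injOn x hx2 ?_
  intro K hK L hL h
  exact hpart.disj K (Finset.mem_filter.mp hK).1 L (Finset.mem_filter.mp hL).1 _ (hx1 K hK)
    (h ▸ hx1 L hL)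

/-- **Contraction.** -/
theorem contract (G : SimpleGraph V) {T U X B : Finset V} {C : Finset (Finset V)}
    (hUT : Disjoint U T) (hU : HasPM G U) (hX : X ⊆ T) (hpart : IsPart G (U ∪ X) B C)
    (hBC : B.card < C.card) (hfc : ∀ K ∈ C, ∀ v ∈ K, HasPM G (K.erase v))
    (hbig : T.card ^ 2 < (C.filter (fun K => K ⊆ U ∧ 3 ≤ K.card)).card) :
    ∃ (G' : SimpleGraph V) (U' : Finset V), U' ⊆ U ∧ U'.card < U.card ∧
      ∀ Y ⊆ T, (HasPM G (U ∪ Y) ↔ HasPM G' (U' ∪ Y)) := by
  classical
  obtain ⟨Ξ, hΞ, hgen⟩ := exists_generic V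
  set A := res Ξ G with hA
  have hskew : Skew A := fun v w => res_skew hΞ G v w
  set W := U ∪ T with hW
  set D := B ∪ (T \ X) with hD
  set K0 := C.filter (fun K => K ⊆ U) with hK0
  have hK0C : ∀ K ∈ K0, K ∈ C := fun K hK => (Finset.mem_filter.mp hK).1
  have hK0U : ∀ K ∈ K0, K ⊆ U := fun K hK => (Finset.mem_filter.mp hK).2
  have hCne : C.Nonempty := by
    rw [← Finset.card_pos]; omega
  obtain ⟨L0, hL0⟩ := hCne
  obtain ⟨v0, -⟩ := hpart.ne L0 hL0
  have : Nonempty V := ⟨v0⟩
  have hne : ∀ K ∈ C, ∃ v, v ∈ K := fun K hK => hpart.ne K hK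
  choose! w hw using hne
  have hNSK : ∀ K ∈ K0, NS A (K.erase (w K)) := fun K hK =>
    hgen G _ (hfc K (hK0C K hK) _ (hw K (hK0C K hK)))
  have hRex : ∀ K ∈ K0, ∃ R : (V → ℚ) →ₗ[ℚ] (V → ℚ), ∀ r, (∀ v, v ∉ K.erase (w K) → R r v = 0) ∧
      ∀ v ∈ K.erase (w K), (A *ᵥ (R r)) v = r v := fun K hK => (hNSK K hK).exists_solve
  choose! R hR using hRex
  have h : CData A U W D K0 w R :=
    { skew := hskew
      UW := Finset.subset_union_left
      subU := hK0U
      disjD := by
        intro K hK v hv hvD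
        rcases Finset.mem_union.mp hvD with h | h
        · exact (Finset.mem_sdiff.mp (hpart.mem K (hK0C K hK) hv)).2 h
        · exact Finset.disjoint_left.mp hUT (hK0U K hK hv) (Finset.mem_sdiff.mp h).1
      disj := fun K hK L hL v h1 h2 => hpart.disj K (hK0C K hK) L (hK0C L hL) v h1 h2
      wmem := fun K hK => hw K (hK0C K hK)
      ns := hNSK
      zero := by
        intro K hK v hv z hzW hzK hzD
        by_contra hne
        have hadj := res_adj hne
        rw [hD, Finset.mem_union, not_or, Finset.mem_sdiff, not_and, not_not] at hzD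
        have hzZ : z ∈ U ∪ X := by
          rcases Finset.mem_union.mp hzW with h | h
          · exact Finset.mem_union_left _ h
          · exact Finset.mem_union_right _ (hzD.2 h)
        obtain ⟨L, hL, hzL⟩ := hpart.cover z hzZ hzD.1
        have := hpart.nadj K (hK0C K hK) L hL v hv z hzL hadj
        exact hzK (this ▸ hzL)
      R1 := fun K hK r v hv => (hR K hK r).1 v hv
      R2 := fun K hK r v hv => (hR K hK r).2 v hv }
  have hNSU : NS A U := hgen G U hU
  -- dimension
  have hdim : Module.finrank ℚ (NN A U W D) ≤ T.card := by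
    have h1 := finrank_NN h hNSU
    have h2 : D.card ≤ B.card + (T.card - X.card) := by
      rw [hD, ← Finset.card_sdiff_of_subset hX]
      exact Finset.card_union_le _ _
    have h3 := card_nonfree hpart
    have h4 := Finset.card_le_card hX
    rw [← hK0] at h3
    omega
  have hbig' : Module.finrank ℚ (NN A U W D) ^ 2 <
      (C.filter (fun K => K ⊆ U ∧ 3 ≤ K.card)).card :=
    (Nat.pow_le_pow_left hdim 2).trans_lt hbig
  obtain ⟨c, hc0, ⟨K1, hK1, hcK1⟩, hrel⟩ := exists_relation A U W D R _ hbig'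
  have hsubK : C.filter (fun K => K ⊆ U ∧ 3 ≤ K.card) ⊆ K0 := by
    intro K hK
    rw [Finset.mem_filter] at hK
    exact Finset.mem_filter.mpr ⟨hK.1, hK.2.1⟩
  have hrel' : ∀ g ∈ NN A U W D, ∀ g' ∈ NN A U W D,
      ∑ K ∈ K0, c K * (g ⬝ᵥ (A *ᵥ XK A D R K g')) = 0 := by
    intro g hg g' hg'
    rw [← hrel g hg g' hg']
    symm
    refine Finset.sum_subset hsubK fun K _ hK => ?_
    rw [hc0 K hK, zero_mul]
  have hcenC : ∀ K ∈ cen K0 c, K ∈ C := fun K hK => hK0C K ((mem_cen c).mp hK).1
  have hremU : rem K0 c w ⊆ U := by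
    intro v hv
    obtain ⟨K, hK, hvK⟩ := Finset.mem_biUnion.mp hv
    exact hK0U K ((mem_cen c).mp hK).1 (Finset.mem_of_mem_erase hvK)
  have hcomm : ∀ Y ⊆ T, (U ∪ Y) \ rem K0 c w = (U \ rem K0 c w) ∪ Y := by
    intro Y hY
    rw [Finset.union_sdiff_distrib]
    congr 1
    rw [Finset.sdiff_eq_self_iff_disjoint]
    exact (hUT.symm.mono_left hY).mono_right hremU
  refine ⟨conG G (cen K0 c) w, U \ rem K0 c w, Finset.sdiff_subset, ?_, ?_⟩
  · refine Finset.card_lt_card ?_
    rw [Finset.ssubset_iff_of_subset Finset.sdiff_subset]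
    have hK1' := Finset.mem_filter.mp hK1
    have hK1c : K1 ∈ cen K0 c := (mem_cen c).mpr ⟨hsubK hK1, hcK1⟩
    have hne1 : (K1.erase (w K1)).Nonempty := by
      rw [← Finset.card_pos, Finset.card_erase_of_mem (hw K1 hK1'.1)]
      omega
    obtain ⟨v, hv⟩ := hne1
    have hvr : v ∈ rem K0 c w := Finset.mem_biUnion.mpr ⟨K1, hK1c, hv⟩
    exact ⟨v, hremU hvr, fun h' => (Finset.mem_sdiff.mp h').2 hvr⟩
  · intro Y hY
    rw [← hcomm Y hY]
    constructor
    · intro hPM
      have h1 : NS A (U ∪ Y) := hgen G _ hPM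
      have h2 := NS_A3 h c hrel' Finset.subset_union_left
        (Finset.union_subset_union_right hY) h1
      refine hasPM_of_NS (A3_skew hskew c) ?_ _ _ rfl h2
      intro x z hxz
      have hxz' : x ≠ z := by
        rintro rfl
        have := A3_skew (R := R) (w := w) (K0 := K0) hskew c x x
        apply hxz
        linarith
      have hex : ∃ a, HH A R w K0 c (Pi.single x 1) a *
          (A2 A K0 c *ᵥ HH A R w K0 c (Pi.single z 1)) a ≠ 0 := by
        by_contra hcon
        push Not at hcon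
        exact hxz (Finset.sum_eq_zero fun a _ => hcon a)
      obtain ⟨a, ha⟩ := hex
      have ha1 := left_ne_zero_of_mul ha
      have ha2 := right_ne_zero_of_mul ha
      have hex' : ∃ b, A2 A K0 c a b * HH A R w K0 c (Pi.single z 1) b ≠ 0 := by
        by_contra hcon
        push Not at hcon
        exact ha2 (Finset.sum_eq_zero fun b _ => hcon b)
      obtain ⟨b, hb⟩ := hex'
      have hb1 := left_ne_zero_of_mul (left_ne_zero_of_mul hb)
      have hb2 := right_ne_zero_of_mul hb
      have hrep : ∀ x a, HH A R w K0 c (Pi.single x 1) a ≠ 0 → rep (cen K0 c) w x a := by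
        intro x a hxa
        by_cases hx : ∃ K ∈ cen K0 c, x = w K
        · obtain ⟨K, hK, rfl⟩ := hx
          rw [HH_single_w h c hK] at hxa
          refine Or.inr ⟨K, hK, rfl, ?_⟩
          by_contra haK
          exact hxa (hh_off h ((mem_cen c).mp hK).1 haK)
        · push Not at hx
          rw [HH_single c hx] at hxa
          left
          by_contra hne
          exact hxa (Pi.single_eq_of_ne hne _)
      exact ⟨hxz', a, b, res_adj hb1, hrep x a ha1, hrep z b hb2⟩
    · intro hPM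
      refine conG_back (C1 := cen K0 c) (w := w)
        (fun K hK L hL v h1 h2 => hpart.disj K (hcenC K hK) L (hcenC L hL) v h1 h2)
        (fun K hK L hL => hpart.nadj K (hcenC K hK) L (hcenC L hL))
        (fun K hK => hw K (hcenC K hK))
        (fun K hK => (hK0U K ((mem_cen c).mp hK).1).trans Finset.subset_union_left)
        (fun K hK a ha => hfc K (hcenC K hK) a ha) hPM

end Pool.Agent.H9.MMN
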