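import Mathlib
import Pool.Agent.H9.MMN.Alt

/-!
# Few witnesses

For a family of sets `X` of terminals there is a subfamily of polynomial size which is good enough for
all small sets of removed vertices.
-/

namespace Pool.Agent.H9.MMN

open Matrix

/-- A small subfamily of a family of functions from a space of small dimension has the same common
zeros. -/
theorem exists_small_subfamily {Ω ι : Type*} (W : Submodule ℚ (Ω → ℚ))
    [FiniteDimensional ℚ W] (φ : ι → Ω → ℚ) (F : Finset ι) (hφ : ∀ i ∈ F, φ i ∈ W) :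
    ∃ B ⊆ F, B.card ≤ Module.finrank ℚ W ∧ ∀ ω, (∃ i ∈ F, φ i ω ≠ 0) → ∃ i ∈ B, φ i ω ≠ 0 := by
  classical
  rcases F.eq_empty_or_nonempty with rfl | ⟨i0, -⟩
  · exact ⟨∅, subset_rfl, by simp, fun ω h => by simp at h⟩
  have : Nonempty ι := ⟨i0⟩
  obtain ⟨b, hb, hspan, hli⟩ := exists_linearIndependent ℚ (φ '' (F : Set ι))
  have hfin : b.Finite := (F.finite_toSet.image φ).subset hb
  have hpre : ∀ f ∈ b, ∃ i ∈ F, φ i = f := fun f hf => hb hf
  choose! g hg1 hg2 using hpre
  let _ : Fintype b := hfin.fintype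
  refine ⟨b.toFinset.image g, ?_, ?_, ?_⟩
  · intro i hi
    obtain ⟨f, hf, rfl⟩ := Finset.mem_image.mp hi
    exact hg1 f (Set.mem_toFinset.mp hf)
  · refine Finset.card_image_le.trans ?_
    rw [← finrank_span_set_eq_card hli]
    refine Submodule.finrank_mono ?_
    rw [Submodule.span_le]
    intro f hf
    have := hφ (g f) (hg1 f hf)
    rwa [hg2 f hf] at this
  · rintro ω ⟨i, hi, hne⟩
    by_contra hcon
    push Not at hcon
    have h1 : φ i ∈ Submodule.span ℚ b := by
      rw [hspan]
      exact Submodule.subset_span ⟨i, hi, rfl⟩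
    have h2 : Submodule.span ℚ b ≤ LinearMap.ker (LinearMap.proj ω : (Ω → ℚ) →ₗ[ℚ] ℚ) := by
      rw [Submodule.span_le]
      intro f hf
      have := hcon (g f) (Finset.mem_image.mpr ⟨f, Set.mem_toFinset.mpr hf, rfl⟩)
      rw [hg2 f hf] at this
      exact this
    exact hne (h2 h1)

section Pow

variable {Ω : Type*} (P : Submodule ℚ (Ω → ℚ))

theorem pow_mono_of_one_mem (h1 : (1 : Ω → ℚ) ∈ P) {a b : ℕ} (hab : a ≤ b) : P ^ a ≤ P ^ b := by
  obtain ⟨c, rfl⟩ := Nat.exists_eq_add_of_le hab
  rw [pow_add]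
  intro x hx
  have h2 : (1 : Ω → ℚ) ∈ P ^ c := by
    have := Submodule.pow_mem_pow P h1 c
    rwa [one_pow] at this
  have := Submodule.mul_mem_mul hx h2
  rwa [mul_one] at this

theorem prod_mem_pow {ι : Type*} (s : Finset ι) (f : ι → Ω → ℚ) (e : ι → ℕ)
    (h : ∀ i ∈ s, f i ∈ P ^ e i) : ∏ i ∈ s, f i ∈ P ^ (∑ i ∈ s, e i) := by
  classical
  induction s using Finset.induction_on with
  | empty =>
    rw [Finset.prod_empty, Finset.sum_empty, pow_zero, Submodule.mem_one]
    exact ⟨1, map_one _⟩
  | insert a s ha ih =>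
    rw [Finset.prod_insert ha, Finset.sum_insert ha, pow_add]
    exact Submodule.mul_mem_mul (h a (Finset.mem_insert_self _ _))
      (ih fun i hi => h i (Finset.mem_insert_of_mem hi))

theorem det_mem_pow {n : Type*} [Fintype n] [DecidableEq n] (M : Matrix n n (Ω → ℚ)) (l : n → ℕ)
    (h : ∀ r c, M r c ∈ P ^ (l r + l c)) : M.det ∈ P ^ (2 * ∑ r, l r) := by
  rw [Matrix.det_apply]
  refine Submodule.sum_mem _ fun σ _ => ?_
  have h1 : ∏ i, M (σ i) i ∈ P ^ (∑ i, (l (σ i) + l i)) :=
    prod_mem_pow P Finset.univ _ _ fun i _ => h _ _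
  have h2 : ∑ i, (l (σ i) + l i) = 2 * ∑ r, l r := by
    rw [Finset.sum_add_distrib, Equiv.sum_comp σ l, two_mul]
  rw [h2] at h1
  rcases Int.units_eq_one_or (Equiv.Perm.sign σ) with h | h
  · rw [h, one_smul]; exact h1
  · rw [h, Units.smul_def, Units.val_neg, Units.val_one, neg_smul, one_smul]
    exact Submodule.neg_mem _ h1

end Pow

variable {V : Type*} [Fintype V] [DecidableEq V] {A : Matrix V V ℚ} {U T X : Finset V} {m : ℕ}

/-- column vectors -/
noncomputable def colv (A : Matrix V V ℚ) (R : (V → ℚ) →ₗ[ℚ] (V → ℚ)) (T : Finset V)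
    (s : Fin m → V) : Fin m ⊕ T → V → ℚ
  | Sum.inl j => R (Pi.single (s j) 1)
  | Sum.inr t => Pi.single t.1 1 - R (A *ᵥ Pi.single t.1 1)

/-- delta vectors -/
def dlv (T : Finset V) (s : Fin m → V) : Fin m ⊕ T → V → ℚ
  | Sum.inl j => Pi.single (s j) 1
  | Sum.inr _ => 0

/-- the small matrix -/
noncomputable def smat (A : Matrix V V ℚ) (R : (V → ℚ) →ₗ[ℚ] (V → ℚ)) (T X : Finset V)
    (s : Fin m → V) : Matrix (Fin m ⊕ T) (Fin m ⊕ T) ℚ
  | Sum.inl i, c => colv A R T s c (s i)
  | Sum.inr t, c => if t.1 ∈ X then (A *ᵥ colv A R T s c) t.1 - dlv T s c t.1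
      else colv A R T s c t.1

/-- the vector with coordinates `p` -/
noncomputable def xv (A : Matrix V V ℚ) (R : (V → ℚ) →ₗ[ℚ] (V → ℚ)) (T : Finset V)
    (s : Fin m → V) (p : Fin m ⊕ T → ℚ) : V → ℚ := ∑ c, p c • colv A R T s c

theorem smat_inl (R : (V → ℚ) →ₗ[ℚ] (V → ℚ)) (s : Fin m → V) (p : Fin m ⊕ T → ℚ) (i : Fin m) :
    (smat A R T X s *ᵥ p) (Sum.inl i) = xv A R T s p (s i) := by
  simp only [mulVec, dotProduct, xv, Finset.sum_apply, Pi.smul_apply, smul_eq_mul, smat]
  exact Finset.sum_congr rfl fun c _ => mul_comm _ _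

theorem mulVec_xv (R : (V → ℚ) →ₗ[ℚ] (V → ℚ)) (s : Fin m → V) (p : Fin m ⊕ T → ℚ) (v : V) :
    (A *ᵥ xv A R T s p) v = ∑ c, p c * (A *ᵥ colv A R T s c) v := by
  have h : A *ᵥ xv A R T s p = ∑ c, p c • (A *ᵥ colv A R T s c) := by
    have := map_sum (Matrix.mulVecLin A) (fun c => p c • colv A R T s c) Finset.univ
    simp only [Matrix.mulVecLin_apply, mulVec_smul] at this
    exact this
  rw [h, Finset.sum_apply]
  rfl

theorem smat_inr (R : (V → ℚ) →ₗ[ℚ] (V → ℚ)) (s : Fin m → V) (p : Fin m ⊕ T → ℚ) (t : T) :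
    (smat A R T X s *ᵥ p) (Sum.inr t) = if t.1 ∈ X then (A *ᵥ xv A R T s p) t.1
      - ∑ j, p (Sum.inl j) * (Pi.single (s j) 1 : V → ℚ) t.1 else xv A R T s p t.1 := by
  split_ifs with h
  · rw [mulVec_xv]
    simp only [mulVec, dotProduct, smat, h, if_true]
    rw [eq_sub_iff_add_eq]
    have h2 : ∑ j, p (Sum.inl j) * (Pi.single (s j) 1 : V → ℚ) t.1
        = ∑ c, p c * dlv T s c t.1 := by
      rw [Fintype.sum_sum_type]
      simp [dlv]
    rw [h2, ← Finset.sum_add_distrib]
    exact Finset.sum_congr rfl fun c _ => by ring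
  · simp only [mulVec, dotProduct, xv, Finset.sum_apply, Pi.smul_apply, smul_eq_mul, smat, h,
      if_false]
    exact Finset.sum_congr rfl fun c _ => mul_comm _ _

section

variable (hUT : Disjoint U T) {R : (V → ℚ) →ₗ[ℚ] (V → ℚ)}
    (hR : ∀ r, (∀ v, v ∉ U → R r v = 0) ∧ ∀ v ∈ U, (A *ᵥ (R r)) v = r v)

include hUT hR

omit hUT in
theorem colv_off (s : Fin m → V) (c : Fin m ⊕ T) {v : V} (hU : v ∉ U) (hT : v ∉ T) :
    colv A R T s c v = 0 := by
  cases c with
  | inl j => exact (hR _).1 v hU
  | inr t =>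
    have : v ≠ t.1 := fun h => hT (h ▸ t.2)
    simp only [colv, Pi.sub_apply]
    rw [(hR _).1 v hU, Pi.single_eq_of_ne this, sub_zero]

theorem colv_T_inl (s : Fin m → V) (j : Fin m) {t : V} (ht : t ∈ T) :
    colv A R T s (Sum.inl j) t = 0 :=
  (hR _).1 t (fun h => Finset.disjoint_left.mp hUT h ht)

theorem colv_T_inr (s : Fin m → V) (t' : T) {t : V} (ht : t ∈ T) :
    colv A R T s (Sum.inr t') t = (Pi.single t'.1 1 : V → ℚ) t := by
  simp only [colv, Pi.sub_apply]
  rw [(hR _).1 t (fun h => Finset.disjoint_left.mp hUT h ht), sub_zero]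

omit hUT in
theorem xv_off (s : Fin m → V) (p : Fin m ⊕ T → ℚ) {v : V} (hU : v ∉ U) (hT : v ∉ T) :
    xv A R T s p v = 0 := by
  rw [xv, Finset.sum_apply]
  refine Finset.sum_eq_zero fun c _ => ?_
  rw [Pi.smul_apply, colv_off hR s c hU hT, smul_zero]

theorem xv_T (s : Fin m → V) (p : Fin m ⊕ T → ℚ) (t : T) :
    xv A R T s p t.1 = p (Sum.inr t) := by
  rw [xv, Finset.sum_apply, Fintype.sum_sum_type]
  have h1 : ∑ j : Fin m, (p (Sum.inl j) • colv A R T s (Sum.inl j)) t.1 = 0 :=
    Finset.sum_eq_zero fun j _ => by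
      rw [Pi.smul_apply, colv_T_inl hUT hR s j t.2, smul_zero]
  rw [h1, zero_add, Finset.sum_eq_single t]
  · rw [Pi.smul_apply, colv_T_inr hUT hR s t t.2, Pi.single_eq_same]
    simp
  · intro t' _ hne
    rw [Pi.smul_apply, colv_T_inr hUT hR s t' t.2,
      Pi.single_eq_of_ne (fun h => hne (Subtype.ext h.symm)), smul_zero]
  · intro h; exact absurd (Finset.mem_univ _) h

omit hUT in
theorem mulVec_xv_U (s : Fin m → V) (p : Fin m ⊕ T → ℚ) {u : V} (hu : u ∈ U) :
    (A *ᵥ xv A R T s p) u = ∑ j, p (Sum.inl j) * (Pi.single (s j) 1 : V → ℚ) u := by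
  rw [mulVec_xv, Fintype.sum_sum_type]
  have h1 : ∑ t : T, p (Sum.inr t) * (A *ᵥ colv A R T s (Sum.inr t)) u = 0 :=
    Finset.sum_eq_zero fun t _ => by
      simp only [colv]
      rw [mulVec_sub, Pi.sub_apply, (hR _).2 u hu, sub_self, mul_zero]
  rw [h1, add_zero]
  refine Finset.sum_congr rfl fun j _ => ?_
  simp only [colv]
  rw [(hR _).2 u hu]

theorem det_ne_zero_of_NS {s : Fin m → V} (hs : Function.Injective s)
    (hsub : ∀ j, s j ∈ U ∪ X) (hX : X ⊆ T)
    (hNS : NS A ((U ∪ X) \ Finset.univ.image s)) : (smat A R T X s).det ≠ 0 := by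
  intro hdet
  rw [← Matrix.exists_mulVec_eq_zero_iff] at hdet
  obtain ⟨p, hp0, hp⟩ := hdet
  apply hp0
  set x := xv A R T s p with hx
  have h1 : ∀ i, x (s i) = 0 := fun i => by
    have := congrFun hp (Sum.inl i)
    rwa [smat_inl] at this
  have h2 : ∀ t : T, t.1 ∉ X → x t.1 = 0 := fun t ht => by
    have := congrFun hp (Sum.inr t)
    rw [smat_inr, if_neg ht] at this
    exact this
  have h3 : ∀ t : T, t.1 ∈ X → (A *ᵥ x) t.1 =
      ∑ j, p (Sum.inl j) * (Pi.single (s j) 1 : V → ℚ) t.1 := fun t ht => by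
    have := congrFun hp (Sum.inr t)
    rw [smat_inr, if_pos ht] at this
    exact sub_eq_zero.mp this
  have h4 : ∀ z ∈ U ∪ X, (A *ᵥ x) z = ∑ j, p (Sum.inl j) * (Pi.single (s j) 1 : V → ℚ) z := by
    intro z hz
    rcases Finset.mem_union.mp hz with h | h
    · exact mulVec_xv_U hR s p h
    · exact h3 ⟨z, hX h⟩ h
  have hx0 : x = 0 := by
    refine hNS x ?_ ?_
    · intro v hv
      by_cases hvU : v ∈ U
      · have : v ∈ Finset.univ.image s := by
          by_contra h
          exact hv (Finset.mem_sdiff.mpr ⟨Finset.mem_union_left _ hvU, h⟩)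
        obtain ⟨i, -, rfl⟩ := Finset.mem_image.mp this
        exact h1 i
      · by_cases hvX : v ∈ X
        · have : v ∈ Finset.univ.image s := by
            by_contra h
            exact hv (Finset.mem_sdiff.mpr ⟨Finset.mem_union_right _ hvX, h⟩)
          obtain ⟨i, -, rfl⟩ := Finset.mem_image.mp this
          exact h1 i
        · by_cases hvT : v ∈ T
          · exact h2 ⟨v, hvT⟩ hvX
          · exact xv_off hR s p hvU hvT
    · intro z hz
      obtain ⟨hz1, hz2⟩ := Finset.mem_sdiff.mp hz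
      rw [h4 z hz1]
      refine Finset.sum_eq_zero fun j _ => ?_
      rw [Pi.single_eq_of_ne (fun h => hz2 (Finset.mem_image.mpr ⟨j, Finset.mem_univ _, h.symm⟩)),
        mul_zero]
  ext c
  cases c with
  | inl j =>
    have := h4 (s j) (hsub j)
    rw [hx0, mulVec_zero, Pi.zero_apply, Finset.sum_eq_single j] at this
    · rw [Pi.single_eq_same, mul_one] at this
      exact this.symm
    · intro i _ hij
      rw [Pi.single_eq_of_ne (fun h => hij (hs h.symm)), mul_zero]
    · intro h; exact absurd (Finset.mem_univ _) h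
  | inr t =>
    rw [← xv_T hUT hR s p t, ← hx, hx0]
    rfl

theorem NS_of_det_ne_zero (hU : NS A U) {s : Fin m → V} (hs : Function.Injective s)
    (hsub : ∀ j, s j ∈ U ∪ T) (hX : X ⊆ T) (hdet : (smat A R T X s).det ≠ 0) :
    (∀ j, s j ∈ U ∪ X) ∧ NS A ((U ∪ X) \ Finset.univ.image s) := by
  have hker : ∀ p, smat A R T X s *ᵥ p = 0 → p = 0 := by
    intro p hp
    by_contra h
    exact hdet (Matrix.exists_mulVec_eq_zero_iff.mp ⟨p, h, hp⟩)
  constructor
  · intro j
    by_contra hj
    rw [Finset.mem_union, not_or] at hj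
    have hjT : s j ∈ T := by
      rcases Finset.mem_union.mp (hsub j) with h | h
      · exact absurd h hj.1
      · exact h
    have hx : xv A R T s (Pi.single (Sum.inl j) 1) = 0 := by
      rw [xv, Finset.sum_eq_single (Sum.inl j)]
      · rw [Pi.single_eq_same, one_smul]
        refine hU _ (fun v hv => (hR _).1 v hv) fun v hv => ?_
        simp only [colv]
        rw [(hR _).2 v hv, Pi.single_eq_of_ne (fun h : v = s j => hj.1 (h ▸ hv))]
      · intro c _ hc
        rw [Pi.single_eq_of_ne hc, zero_smul]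
      · intro h; exact absurd (Finset.mem_univ _) h
    have h0 := hker (Pi.single (Sum.inl j) 1) (by
      ext r
      cases r with
      | inl i => rw [smat_inl, hx]; rfl
      | inr t =>
        rw [smat_inr, hx, mulVec_zero]
        split_ifs with h
        · rw [Pi.zero_apply, zero_sub, Pi.zero_apply, neg_eq_zero]
          refine Finset.sum_eq_zero fun i _ => ?_
          by_cases hij : i = j
          · rw [hij, Pi.single_eq_of_ne (fun h' : t.1 = s j => hj.2 (h' ▸ h)), mul_zero]
          · rw [Pi.single_eq_of_ne (fun h' => hij (Sum.inl_injective h')), zero_mul]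
        · rfl)
    have := congrFun h0 (Sum.inl j)
    rw [Pi.single_eq_same] at this
    exact one_ne_zero this
  · intro x' hx' hAx'
    let p : Fin m ⊕ T → ℚ := fun c => match c with
      | Sum.inl j => (A *ᵥ x') (s j)
      | Sum.inr t => x' t.1
    have hpl : ∀ j, p (Sum.inl j) = (A *ᵥ x') (s j) := fun j => rfl
    have hpr : ∀ t : T, p (Sum.inr t) = x' t.1 := fun t => rfl
    have hsum : ∀ z ∈ U ∪ X, ∑ j, p (Sum.inl j) * (Pi.single (s j) 1 : V → ℚ) z
        = (A *ᵥ x') z := by
      intro z hz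
      by_cases h : z ∈ Finset.univ.image s
      · obtain ⟨i, -, rfl⟩ := Finset.mem_image.mp h
        rw [Finset.sum_eq_single i]
        · rw [Pi.single_eq_same, mul_one, hpl]
        · intro j _ hij
          rw [Pi.single_eq_of_ne (fun h => hij (hs h.symm)), mul_zero]
        · intro h; exact absurd (Finset.mem_univ _) h
      · rw [hAx' z (Finset.mem_sdiff.mpr ⟨hz, h⟩)]
        refine Finset.sum_eq_zero fun j _ => ?_
        rw [Pi.single_eq_of_ne (fun h' => h (Finset.mem_image.mpr ⟨j, Finset.mem_univ _, h'.symm⟩)),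
          mul_zero]
    have hxx : xv A R T s p = x' := by
      have hoff : ∀ v, v ∉ U → (xv A R T s p - x') v = 0 := by
        intro v hv
        rw [Pi.sub_apply]
        by_cases hvT : v ∈ T
        · have := xv_T hUT hR s p ⟨v, hvT⟩
          rw [this, hpr, sub_self]
        · rw [xv_off hR s p hv hvT, hx' v, sub_self]
          rw [Finset.mem_sdiff, Finset.mem_union, not_and_or, not_or]
          exact Or.inl ⟨hv, fun h => hvT (hX h)⟩
      have := hU _ hoff (fun u hu => by
        rw [mulVec_sub, Pi.sub_apply, mulVec_xv_U hR s p hu,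
          hsum u (Finset.mem_union_left _ hu), sub_self])
      exact sub_eq_zero.mp this
    have hp0 := hker p (by
      ext r
      cases r with
      | inl i =>
        rw [smat_inl, hxx]
        exact hx' _ (fun h => (Finset.mem_sdiff.mp h).2
          (Finset.mem_image.mpr ⟨i, Finset.mem_univ _, rfl⟩))
      | inr t =>
        rw [smat_inr, hxx]
        split_ifs with h
        · rw [hsum _ (Finset.mem_union_right _ h), sub_self]; rfl
        · refine hx' _ (fun h' => ?_)
          rw [Finset.mem_sdiff, Finset.mem_union] at h'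
          rcases h'.1 with h1 | h1
          · exact Finset.disjoint_left.mp hUT h1 t.2
          · exact h h1)
    rw [← hxx, hp0]
    ext v
    simp [xv]

end

open Pointwise in
/-- **Few witnesses.** -/
theorem exists_hitting (hUT : Disjoint U T) (hU : NS A U) (m : ℕ) (F : Finset (Finset V))
    (hF : ∀ X ∈ F, X ⊆ T) : ∃ B ⊆ F, B.card ≤ (1 + m * m + 2 * (m * T.card)) ^ (2 * m) ∧
      ∀ s : Fin m → V, Function.Injective s →
        (∃ X ∈ F, (∀ j, s j ∈ U ∪ X) ∧ NS A ((U ∪ X) \ Finset.univ.image s)) →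
        ∃ X ∈ B, (∀ j, s j ∈ U ∪ X) ∧ NS A ((U ∪ X) \ Finset.univ.image s) := by
  classical
  obtain ⟨R, hR⟩ := hU.exists_solve
  -- generators
  let g1 : Fin m × Fin m → ((Fin m → V) → ℚ) := fun q s => R (Pi.single (s q.2) 1) (s q.1)
  let g2 : Fin m × T → ((Fin m → V) → ℚ) := fun q s =>
    (Pi.single q.2.1 1 - R (A *ᵥ Pi.single q.2.1 1) : V → ℚ) (s q.1)
  let g3 : Fin m × T → ((Fin m → V) → ℚ) := fun q s =>
    (A *ᵥ R (Pi.single (s q.1) 1)) q.2.1 - (Pi.single (s q.1) 1 : V → ℚ) q.2.1
  let S : Finset ((Fin m → V) → ℚ) :=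
    insert 1 (Finset.univ.image g1 ∪ (Finset.univ.image g2 ∪ Finset.univ.image g3))
  have hScard : S.card ≤ 1 + m * m + 2 * (m * T.card) := by
    refine (Finset.card_insert_le _ _).trans ?_
    have e1 : (Finset.univ.image g1).card ≤ m * m := by
      refine Finset.card_image_le.trans ?_
      simp
    have e2 : (Finset.univ.image g2).card ≤ m * T.card := by
      refine Finset.card_image_le.trans ?_
      simp
    have e3 : (Finset.univ.image g3).card ≤ m * T.card := by
      refine Finset.card_image_le.trans ?_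
      simp
    have e4 := Finset.card_union_le (Finset.univ.image g1)
      (Finset.univ.image g2 ∪ Finset.univ.image g3)
    have e5 := Finset.card_union_le (Finset.univ.image g2) (Finset.univ.image g3)
    omega
  let P : Submodule ℚ ((Fin m → V) → ℚ) := Submodule.span ℚ (S : Set ((Fin m → V) → ℚ))
  have h1P : (1 : (Fin m → V) → ℚ) ∈ P := Submodule.subset_span (by simp [S])
  have hW : P ^ (2 * m) = Submodule.span ℚ ((S ^ (2 * m) : Finset ((Fin m → V) → ℚ)) :
      Set ((Fin m → V) → ℚ)) := by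
    rw [Submodule.span_pow, Finset.coe_pow]
  have : FiniteDimensional ℚ (P ^ (2 * m) : Submodule ℚ ((Fin m → V) → ℚ)) := by
    rw [hW]
    exact FiniteDimensional.span_finset ℚ _
  have hrank : Module.finrank ℚ (P ^ (2 * m) : Submodule ℚ ((Fin m → V) → ℚ)) ≤
      (1 + m * m + 2 * (m * T.card)) ^ (2 * m) := by
    rw [hW]
    refine (finrank_span_finset_le_card _).trans (Finset.card_pow_le.trans ?_)
    exact Nat.pow_le_pow_left hScard _
  -- the functions
  let M : Finset V → Matrix (Fin m ⊕ T) (Fin m ⊕ T) ((Fin m → V) → ℚ) :=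
    fun X r c s => smat A R T X s r c
  let φ : Finset V → (Fin m → V) → ℚ := fun X => (M X).det
  have hφ : ∀ X s, φ X s = (smat A R T X s).det := by
    intro X s
    have := RingHom.map_det (Pi.evalRingHom (fun _ : Fin m → V => ℚ) s) (M X)
    simp only [Pi.evalRingHom_apply] at this
    rw [show φ X s = (M X).det s from rfl, this]
    congr 1
  have hφW : ∀ X, φ X ∈ P ^ (2 * m) := by
    intro X
    have := det_mem_pow P (M X) (fun r => match r with | Sum.inl _ => 1 | Sum.inr _ => 0) ?_
    · rw [Fintype.sum_sum_type] at this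
      simpa using this
    · intro r c
      have hone : ∀ f ∈ P, ∀ n, 1 ≤ n → f ∈ P ^ n := by
        intro f hf n hn
        exact pow_mono_of_one_mem P h1P hn (by rwa [pow_one])
      cases r with
      | inl i =>
        cases c with
        | inl j =>
          refine hone _ (Submodule.subset_span ?_) _ (by norm_num)
          simp only [S, Finset.coe_insert, Finset.coe_union, Finset.coe_image, Finset.coe_univ,
            Set.image_univ]
          exact Or.inr (Or.inl ⟨(i, j), rfl⟩)
        | inr t =>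
          refine hone _ (Submodule.subset_span ?_) _ (by norm_num)
          simp only [S, Finset.coe_insert, Finset.coe_union, Finset.coe_image, Finset.coe_univ,
            Set.image_univ]
          exact Or.inr (Or.inr (Or.inl ⟨(i, t), rfl⟩))
      | inr t =>
        cases c with
        | inl j =>
          by_cases ht : t.1 ∈ X
          · refine hone _ (Submodule.subset_span ?_) _ (by norm_num)
            simp only [S, Finset.coe_insert, Finset.coe_union, Finset.coe_image, Finset.coe_univ,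
              Set.image_univ]
            refine Or.inr (Or.inr (Or.inr ⟨(j, t), ?_⟩))
            ext s
            simp only [M, smat, ht, if_true, colv, dlv, g3]
          · refine hone _ ?_ _ (by norm_num)
            have : M X (Sum.inr t) (Sum.inl j) = 0 := by
              ext s
              simp only [M, smat, ht, if_false]
              exact colv_T_inl hUT hR s j t.2
            rw [this]
            exact Submodule.zero_mem _
        | inr t' =>
          have : ∃ q : ℚ, M X (Sum.inr t) (Sum.inr t') = q • (1 : (Fin m → V) → ℚ) := by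
            by_cases ht : t.1 ∈ X
            · refine ⟨(A *ᵥ (Pi.single t'.1 1 - R (A *ᵥ Pi.single t'.1 1))) t.1, ?_⟩
              ext s
              simp only [M, smat, ht, if_true, colv, dlv]
              simp
            · refine ⟨(Pi.single t'.1 1 : V → ℚ) t.1, ?_⟩
              ext s
              simp only [M, smat, ht, if_false]
              rw [colv_T_inr hUT hR s t' t.2]
              simp
          obtain ⟨q, hq⟩ := this
          rw [hq]
          refine Submodule.smul_mem _ _ ?_
          have := Submodule.pow_mem_pow P h1P (0 + 0)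
          rwa [one_pow] at this
  obtain ⟨B, hBF, hBcard, hB⟩ := exists_small_subfamily (P ^ (2 * m)) φ F (fun X _ => hφW X)
  refine ⟨B, hBF, hBcard.trans hrank, ?_⟩
  rintro s hs ⟨X, hX, hsX, hNS⟩
  have hsT : ∀ j, s j ∈ U ∪ T := by
    intro j
    rcases Finset.mem_union.mp (hsX j) with h | h
    · exact Finset.mem_union_left _ h
    · exact Finset.mem_union_right _ (hF X hX h)
  obtain ⟨Y, hY, hYs⟩ := hB s ⟨X, hX, by
    rw [hφ]
    exact det_ne_zero_of_NS hUT hR hs hsX (hF X hX) hNS⟩
  rw [hφ] at hYs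
  exact ⟨Y, hY, NS_of_det_ne_zero hUT hR hU hs hsT (hF Y (hBF hY)) hYs⟩

end Pool.Agent.H9.MMN
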