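import Mathlib
import Pool.Agent.H9.MMN.Bypass
import Pool.Agent.H9.MMN.BypassAlg
import Pool.Agent.H9.MMN.Rank
import Pool.Agent.H9.MMN.Contract

/-!
# The number of nonterminals of a minimal network is polynomial
-/

namespace Pool.Agent.H9.MMN

open Matrix

variable {V : Type*} [Fintype V] [DecidableEq V]

theorem inj_two {W : Type*} {a b : W} (hab : a ≠ b) : Function.Injective ![a, b] := by
  intro i j hij
  fin_cases i <;> fin_cases j <;>
    first | rfl | exact absurd hij hab | exact absurd hij hab.symm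

theorem inj_four {W : Type*} {a b c d : W} (h1 : a ≠ b) (h2 : a ≠ c) (h3 : a ≠ d) (h4 : b ≠ c)
    (h5 : b ≠ d) (h6 : c ≠ d) : Function.Injective ![a, b, c, d] := by
  intro i j hij
  fin_cases i <;> fin_cases j <;>
    first | rfl | exact absurd hij h1 | exact absurd hij h1.symm | exact absurd hij h2
          | exact absurd hij h2.symm | exact absurd hij h3 | exact absurd hij h3.symm
          | exact absurd hij h4 | exact absurd hij h4.symm | exact absurd hij h5
          | exact absurd hij h5.symm | exact absurd hij h6 | exact absurd hij h6.symm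

theorem image_two {W : Type*} [DecidableEq W] (a b : W) :
    Finset.univ.image ![a, b] = {a, b} := by
  ext z
  simp only [Finset.mem_image, Finset.mem_univ, true_and, Fin.exists_fin_two,
    Matrix.cons_val_zero, Matrix.cons_val_one, Finset.mem_insert, Finset.mem_singleton]
  exact ⟨fun h => h.imp Eq.symm Eq.symm, fun h => h.imp Eq.symm Eq.symm⟩

theorem image_four {W : Type*} [DecidableEq W] (a b c d : W) :
    Finset.univ.image ![a, b, c, d] = {a, b, c, d} := by
  ext z
  simp only [Finset.mem_image, Finset.mem_univ, true_and, Finset.mem_insert,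
    Finset.mem_singleton]
  constructor
  · rintro ⟨i, rfl⟩
    fin_cases i <;> simp
  · rintro (rfl | rfl | rfl | rfl)
    · exact ⟨0, rfl⟩
    · exact ⟨1, rfl⟩
    · exact ⟨2, rfl⟩
    · exact ⟨3, rfl⟩

/-- vertices of `B ∩ U` not matched to a singleton part -/
def Bad (U : Finset V) (μ : V → V) (B : Finset V) (C : Finset (Finset V)) : Finset V :=
  (B ∩ U).filter (fun u => {μ u} ∉ C)

omit [Fintype V] in
/-- few bad vertices -/
theorem card_Bad {G : SimpleGraph V} {T U X B : Finset V} {C : Finset (Finset V)}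
    (hX : X ⊆ T) (hpart : IsPart G (U ∪ X) B C) (hBC : B.card < C.card)
    (hodd : ∀ K ∈ C, Odd K.card)
    (hbig : (C.filter (fun K => K ⊆ U ∧ 3 ≤ K.card)).card ≤ T.card ^ 2)
    {μ : V → V} (hμ : ∀ v ∈ U, μ v ∈ U ∧ G.Adj v (μ v) ∧ μ (μ v) = v) :
    (Bad U μ B C).card ≤ T.card + T.card ^ 2 := by
  classical
  have h1 := card_nonfree hpart
  have h2 := Finset.card_le_card hX
  -- singletons
  set S1 := U.filter (fun v => {v} ∈ C) with hS1
  have h3 : (C.filter (fun K => K ⊆ U)).card ≤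
      S1.card + (C.filter (fun K => K ⊆ U ∧ 3 ≤ K.card)).card := by
    have hsub : C.filter (fun K => K ⊆ U) ⊆
        S1.image (fun v => ({v} : Finset V)) ∪ C.filter (fun K => K ⊆ U ∧ 3 ≤ K.card) := by
      intro K hK
      obtain ⟨hKC, hKU⟩ := Finset.mem_filter.mp hK
      rw [Finset.mem_union]
      by_cases h3 : 3 ≤ K.card
      · exact Or.inr (Finset.mem_filter.mpr ⟨hKC, hKU, h3⟩)
      · left
        obtain ⟨m, hm⟩ := hodd K hKC
        have hc1 : K.card = 1 := by omega
        obtain ⟨v, rfl⟩ := Finset.card_eq_one.mp hc1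
        exact Finset.mem_image.mpr ⟨v, Finset.mem_filter.mpr
          ⟨hKU (Finset.mem_singleton_self v), hKC⟩, rfl⟩
    refine (Finset.card_le_card hsub).trans ((Finset.card_union_le _ _).trans ?_)
    exact Nat.add_le_add_right Finset.card_image_le _
  have h4 : S1.card ≤ ((B ∩ U).filter (fun u => ¬ {μ u} ∉ C)).card := by
    refine Finset.card_le_card_of_injOn μ ?_ ?_
    · intro v hv
      obtain ⟨hvU, hvC⟩ := Finset.mem_filter.mp (Finset.mem_coe.mp hv)
      obtain ⟨g1, g2, g3⟩ := hμ v hvU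
      rw [Finset.mem_coe, Finset.mem_filter, Finset.mem_inter, not_not, g3]
      refine ⟨⟨?_, g1⟩, hvC⟩
      by_contra hB
      obtain ⟨L, hL, hL'⟩ := hpart.cover (μ v) (Finset.mem_union_left _ g1) hB
      have := hpart.nadj {v} hvC L hL v (Finset.mem_singleton_self v) _ hL' g2
      subst this
      exact g2.ne (Finset.mem_singleton.mp hL').symm
    · intro v hv v' hv' h
      have hvU := (Finset.mem_filter.mp (Finset.mem_coe.mp hv)).1
      have hvU' := (Finset.mem_filter.mp (Finset.mem_coe.mp hv')).1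
      rw [← (hμ v hvU).2.2, ← (hμ v' hvU').2.2, h]
  have h5 := Finset.card_filter_add_card_filter_not (s := B ∩ U) (fun u => {μ u} ∉ C)
  have h6 : (B ∩ U).card ≤ B.card := Finset.card_le_card Finset.inter_subset_left
  unfold Bad
  omega

/-- for every matched pair there is a witness -/
theorem exists_witness {G : SimpleGraph V} {T U : Finset V} (hUT : Disjoint U T)
    (hU : HasPM G U)
    (hmin : ∀ (G' : SimpleGraph V) (U' : Finset V), U' ⊆ U →
      (∀ Y ⊆ T, (HasPM G (U ∪ Y) ↔ HasPM G' (U' ∪ Y))) → U.card ≤ U'.card)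
    {A : Matrix V V ℚ} {u v : V} (hu : u ∈ U) (hv : v ∈ U) (huv : G.Adj u v)
    {Ξ : Matrix V V ℚ} (hΞ : Skew Ξ)
    (hgen : ∀ (G : SimpleGraph V) (Z : Finset V), HasPM G Z → NS (res Ξ G) Z)
    (hA : A = res Ξ G) :
    ∃ X ⊆ T, ¬ HasPM G (U ∪ X) ∧
      ((∃ a b, a ∈ U ∪ X ∧ b ∈ U ∪ X ∧ G.Adj u a ∧ G.Adj v b ∧ a ≠ b ∧
          NS A ((U ∪ X) \ {a, b})) ∨
        (∃ a1 a2 b1 b2, a1 ∈ U ∪ X ∧ a2 ∈ U ∪ X ∧ b1 ∈ U ∪ X ∧ b2 ∈ U ∪ X ∧ G.Adj u a1 ∧
          G.Adj u a2 ∧ G.Adj v b1 ∧ G.Adj v b2 ∧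
          a1 ≠ a2 ∧ a1 ≠ b1 ∧ a1 ≠ b2 ∧ a2 ≠ b1 ∧ a2 ≠ b2 ∧ b1 ≠ b2 ∧
          NS A (((U ∪ X) \ {a1, a2}) \ {b1, b2}))) := by
  classical
  have huT : u ∉ T := Finset.disjoint_left.mp hUT hu
  have hvT : v ∉ T := Finset.disjoint_left.mp hUT hv
  set H := byp G u v with hH
  -- some witness
  let S := T.powerset.filter (fun X => HasPM H (U ∪ X) ∧ ¬ HasPM G (U ∪ X))
  have hS : S.Nonempty := by
    by_contra hcon
    have hall : ∀ X ⊆ T, HasPM H (U ∪ X) → HasPM G (U ∪ X) := by
      intro X hX hHX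
      by_contra hn
      exact hcon ⟨X, Finset.mem_filter.mpr ⟨Finset.mem_powerset.mpr hX, hHX, hn⟩⟩
    have := hmin H (U \ {u, v}) Finset.sdiff_subset (by
      intro Y hY
      have e : (U \ {u, v}) ∪ Y = (U ∪ Y) \ {u, v} := by
        rw [Finset.union_sdiff_distrib]
        congr 1
        symm
        rw [Finset.sdiff_eq_self_iff_disjoint, Finset.disjoint_left]
        intro z hz hz'
        rw [Finset.mem_insert, Finset.mem_singleton] at hz'
        rcases hz' with rfl | rfl
        · exact huT (hY hz)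
        · exact hvT (hY hz)
      rw [e, ← byp_hasPM_iff huv (Finset.mem_union_left _ hu) (Finset.mem_union_left _ hv)]
      exact ⟨fun h => h.byp, hall Y hY⟩)
    have hlt : (U \ {u, v}).card < U.card := by
      refine Finset.card_lt_card ?_
      rw [Finset.ssubset_iff_of_subset Finset.sdiff_subset]
      exact ⟨u, hu, by simp⟩
    omega
  obtain ⟨X, hXS, hXmin⟩ := Finset.exists_min_image S Finset.card hS
  obtain ⟨hXT, hHX, hGX⟩ := Finset.mem_filter.mp hXS
  rw [Finset.mem_powerset] at hXT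
  refine ⟨X, hXT, hGX, ?_⟩
  have hXne : X.Nonempty := by
    rw [Finset.nonempty_iff_ne_empty]
    rintro rfl
    rw [Finset.union_empty] at hGX
    exact hGX hU
  obtain ⟨s, hsX⟩ := hXne
  have hsU : s ∉ U := fun h => Finset.disjoint_left.mp hUT h (hXT hsX)
  obtain ⟨t, htZ, htU, hts, hPMst⟩ := alternating H _ (U ∪ X) U rfl Finset.subset_union_left
    hHX hU.byp s (Finset.mem_union_right _ hsX) hsU
  have htX : t ∈ X := by
    rcases Finset.mem_union.mp htZ with h | h
    · exact absurd h htU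
    · exact h
  have e : (U ∪ X) \ {s, t} = U ∪ (X \ {s, t}) := by
    rw [Finset.union_sdiff_distrib]
    congr 1
    rw [Finset.sdiff_eq_self_iff_disjoint, Finset.disjoint_left]
    intro z hz hz'
    rw [Finset.mem_insert, Finset.mem_singleton] at hz'
    rcases hz' with rfl | rfl
    · exact hsU hz
    · exact htU hz
  have hGst : HasPM G ((U ∪ X) \ {s, t}) := by
    by_contra hn
    rw [e] at hn hPMst
    have := hXmin (X \ {s, t}) (Finset.mem_filter.mpr
      ⟨Finset.mem_powerset.mpr (Finset.sdiff_subset.trans hXT), hPMst, hn⟩)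
    have hlt : (X \ {s, t}).card < X.card := by
      refine Finset.card_lt_card ?_
      rw [Finset.ssubset_iff_of_subset Finset.sdiff_subset]
      exact ⟨s, hsX, by simp⟩
    omega
  have hskew : Skew A := by rw [hA]; exact fun v w => res_skew hΞ G v w
  have hn : ¬ NS A (U ∪ X) := by
    intro h
    rw [hA] at h hskew
    exact hGX (hasPM_of_NS hskew (fun v w h => res_adj h) _ _ rfl h)
  refine bypass_algebra (A := A) (B := res Ξ H) (P := fun z => G.Adj u z) (Q := fun z => G.Adj v z)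
    hskew (hgen H _ hHX) ?_ (Finset.mem_union_right _ hsX) (Finset.mem_union_right _ htX) hts.symm
    (by rw [hA]; exact hgen G _ hGst) hn
  intro z z' hne
  rw [hA] at hne
  unfold res at hne
  by_cases h1 : G.Adj z z'
  · rw [if_pos h1, if_pos (byp_of_adj h1)] at hne
    exact absurd rfl hne
  · rw [if_neg h1] at hne
    have h2 : H.Adj z z' := by
      by_contra h2
      rw [if_neg h2] at hne
      exact hne rfl
    obtain ⟨h3, h4 | ⟨h4, h5⟩ | ⟨h4, h5⟩⟩ := h2
    · exact absurd h4 h1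
    · exact Or.inl ⟨h4, h5⟩
    · exact Or.inr ⟨h4, h5⟩

/-- bound for the number of nonterminals -/
def bd (k : ℕ) : ℕ := ((5 + 4 * k) ^ 4 + (17 + 8 * k) ^ 8) * (2 * (k + k ^ 2))

/-- **Size of a minimal network.** -/
theorem main_bound {G : SimpleGraph V} {T U : Finset V} (hUT : Disjoint U T)
    (hU : HasPM G U)
    (hmin : ∀ (G' : SimpleGraph V) (U' : Finset V), U' ⊆ U →
      (∀ Y ⊆ T, (HasPM G (U ∪ Y) ↔ HasPM G' (U' ∪ Y))) → U.card ≤ U'.card) :
    U.card ≤ bd T.card := by
  classical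
  obtain ⟨Ξ, hΞ, hgen⟩ := exists_generic V
  set A := res Ξ G with hA
  have hskew : Skew A := fun v w => res_skew hΞ G v w
  have hNSU : NS A U := hgen G U hU
  obtain ⟨μ, hμ⟩ := id hU
  -- barriers
  set F := T.powerset.filter (fun X => ¬ HasPM G (U ∪ X)) with hF
  have hFT : ∀ X ∈ F, X ⊆ T := fun X hX => Finset.mem_powerset.mp (Finset.mem_filter.mp hX).1
  have hFn : ∀ X ∈ F, ¬ HasPM G (U ∪ X) := fun X hX => (Finset.mem_filter.mp hX).2
  have hbar : ∀ X ∈ F, ∃ (B : Finset V) (C : Finset (Finset V)), IsPart G (U ∪ X) B C ∧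
      B.card < C.card ∧ (∀ K ∈ C, Odd K.card) ∧ ∀ K ∈ C, ∀ v ∈ K, HasPM G (K.erase v) :=
    fun X hX => exists_barrier G _ (hFn X hX)
  choose! B C hpart hBC hodd hfc using hbar
  have hbadc : ∀ X ∈ F, (Bad U μ (B X) (C X)).card ≤ T.card + T.card ^ 2 := by
    intro X hX
    refine card_Bad (hFT X hX) (hpart X hX) (hBC X hX) (hodd X hX) ?_ hμ
    by_contra hcon
    push Not at hcon
    obtain ⟨G', U', h1, h2, h3⟩ := contract G hUT hU (hFT X hX) (hpart X hX) (hBC X hX)
      (hfc X hX) hcon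
    have := hmin G' U' h1 h3
    omega
  obtain ⟨B2, hB2F, hB2c, hB2⟩ := exists_hitting hUT hNSU 2 F hFT
  obtain ⟨B4, hB4F, hB4c, hB4⟩ := exists_hitting hUT hNSU 4 F hFT
  have hcover : ∀ u ∈ U, ∃ X ∈ B2 ∪ B4, u ∈ Bad U μ (B X) (C X) ∨ μ u ∈ Bad U μ (B X) (C X) := by
    intro u hu
    obtain ⟨hv, huv, hμμ⟩ := hμ u hu
    set v := μ u with hvdef
    -- witness in the small family
    have hwit : ∃ X ∈ B2 ∪ B4, HasPM (byp G u v) (U ∪ X) := by
      obtain ⟨X, hXT, hGX, hcase⟩ := exists_witness (A := A) hUT hU hmin hu hv huv hΞ hgen hA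
      have hXF : X ∈ F := Finset.mem_filter.mpr ⟨Finset.mem_powerset.mpr hXT, hGX⟩
      rcases hcase with ⟨a, b, ha, hb, hua, hvb, hab, hNS⟩ |
        ⟨a1, a2, b1, b2, ha1, ha2, hb1, hb2, hua1, hua2, hvb1, hvb2, n1, n2, n3, n4, n5, n6, hNS⟩
      · have himg : Finset.univ.image ![a, b] = {a, b} := image_two a b
        obtain ⟨X1, hX1, hsX1, hNS1⟩ := hB2 ![a, b] (inj_two hab) ⟨X, hXF, by
            intro j
            fin_cases j
            · exact ha
            · exact hb, by rw [himg]; exact hNS⟩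
        rw [himg] at hNS1
        have hPM : HasPM G ((U ∪ X1) \ {a, b}) :=
          hasPM_of_NS hskew (fun v w h => res_adj h) _ _ rfl hNS1
        exact ⟨X1, Finset.mem_union_left _ hX1, hasPM_of_sdiff_pair
          (H := byp G u v) ⟨hab, Or.inr (Or.inl ⟨hua, hvb⟩)⟩ (hsX1 0) (hsX1 1) hPM.byp⟩
      · have himg : Finset.univ.image ![a1, a2, b1, b2] = {a1, a2, b1, b2} :=
          image_four a1 a2 b1 b2
        have hsd : ∀ Z : Finset V, (Z \ {a1, a2}) \ {b1, b2} = Z \ {a1, a2, b1, b2} := by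
          intro Z
          ext z
          simp only [Finset.mem_sdiff, Finset.mem_insert, Finset.mem_singleton]
          tauto
        obtain ⟨X1, hX1, hsX1, hNS1⟩ := hB4 ![a1, a2, b1, b2] (inj_four n1 n2 n3 n4 n5 n6) ⟨X, hXF, by
            intro j
            fin_cases j
            · exact ha1
            · exact ha2
            · exact hb1
            · exact hb2, by rw [himg, ← hsd]; exact hNS⟩
        rw [himg] at hNS1
        have hPM : HasPM G ((U ∪ X1) \ {a1, a2, b1, b2}) :=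
          hasPM_of_NS hskew (fun v w h => res_adj h) _ _ rfl hNS1
        have hsd' : (U ∪ X1) \ {a1, a2, b1, b2} = ((U ∪ X1) \ {a1, b1}) \ {a2, b2} := by
          ext z
          simp only [Finset.mem_sdiff, Finset.mem_insert, Finset.mem_singleton]
          tauto
        rw [hsd'] at hPM
        have hPM1 : HasPM (byp G u v) ((U ∪ X1) \ {a1, b1}) := by
          refine hasPM_of_sdiff_pair (u := a2) (v := b2) (H := byp G u v)
            ⟨n5, Or.inr (Or.inl ⟨hua2, hvb2⟩)⟩ ?_ ?_ hPM.byp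
          · rw [Finset.mem_sdiff, Finset.mem_insert, Finset.mem_singleton, not_or]
            exact ⟨hsX1 1, n1.symm, n4⟩
          · rw [Finset.mem_sdiff, Finset.mem_insert, Finset.mem_singleton, not_or]
            exact ⟨hsX1 3, n3.symm, n6.symm⟩
        exact ⟨X1, Finset.mem_union_right _ hX1, hasPM_of_sdiff_pair (u := a1) (v := b1)
          (H := byp G u v) ⟨n2, Or.inr (Or.inl ⟨hua1, hvb1⟩)⟩ (hsX1 0) (hsX1 2) hPM1⟩
    obtain ⟨X, hX, hHX⟩ := hwit
    have hXF : X ∈ F := by
      rcases Finset.mem_union.mp hX with h | h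
      · exact hB2F h
      · exact hB4F h
    refine ⟨X, hX, ?_⟩
    have huZ : u ∈ U ∪ X := Finset.mem_union_left _ hu
    have hvZ : v ∈ U ∪ X := Finset.mem_union_left _ hv
    rcases byp_mem_or (hpart X hXF) (hBC X hXF) (hodd X hXF) huv huZ hvZ hHX with h | h
    · left
      exact Finset.mem_filter.mpr ⟨Finset.mem_inter.mpr ⟨h, hu⟩,
        byp_not_singleton (hpart X hXF) (hBC X hXF) (hodd X hXF) huv huZ hvZ hHX h⟩
    · right
      refine Finset.mem_filter.mpr ⟨Finset.mem_inter.mpr ⟨h, hv⟩, ?_⟩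
      rw [hμμ]
      rw [byp_comm] at hHX
      exact byp_not_singleton (hpart X hXF) (hBC X hXF) (hodd X hXF) huv.symm hvZ huZ hHX h
  -- count
  have hsub : U ⊆ (B2 ∪ B4).biUnion
      (fun X => Bad U μ (B X) (C X) ∪ (Bad U μ (B X) (C X)).image μ) := by
    intro u hu
    obtain ⟨X, hX, h⟩ := hcover u hu
    refine Finset.mem_biUnion.mpr ⟨X, hX, Finset.mem_union.mpr ?_⟩
    rcases h with h | h
    · exact Or.inl h
    · exact Or.inr (Finset.mem_image.mpr ⟨μ u, h, (hμ u hu).2.2⟩)
  have h1 := Finset.card_le_card hsub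
  have h2 : ((B2 ∪ B4).biUnion
      (fun X => Bad U μ (B X) (C X) ∪ (Bad U μ (B X) (C X)).image μ)).card ≤
      (B2 ∪ B4).card * (2 * (T.card + T.card ^ 2)) := by
    refine Finset.card_biUnion_le_card_mul _ _ _ fun X hX => ?_
    have hXF : X ∈ F := by
      rcases Finset.mem_union.mp hX with h | h
      · exact hB2F h
      · exact hB4F h
    have e1 := Finset.card_union_le (Bad U μ (B X) (C X)) ((Bad U μ (B X) (C X)).image μ)
    have e2 : ((Bad U μ (B X) (C X)).image μ).card ≤ (Bad U μ (B X) (C X)).card :=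
      Finset.card_image_le
    have e3 := hbadc X hXF
    omega
  have h3 : (B2 ∪ B4).card ≤ (5 + 4 * T.card) ^ 4 + (17 + 8 * T.card) ^ 8 := by
    refine (Finset.card_union_le _ _).trans (Nat.add_le_add ?_ ?_)
    · refine hB2c.trans (le_of_eq ?_)
      norm_num
      ring
    · refine hB4c.trans (le_of_eq ?_)
      norm_num
      ring
  exact h1.trans (h2.trans (Nat.mul_le_mul_right _ h3))

end Pool.Agent.H9.MMN
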