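import Mathlib
import Pool.Agent.H9.MMN.Main

/-!
# Polynomial-size matching-mimicking networks: final assembly
-/

namespace Pool.Agent.H9.MMN

open Finset

/-- some equivalent network with few nonterminals -/
theorem exists_small {V : Type*} [Fintype V] [DecidableEq V] (T : Finset V) :
    ∀ (n : ℕ) (G : SimpleGraph V) (U : Finset V), U.card = n → Disjoint U T → HasPM G U →
      ∃ (G' : SimpleGraph V) (U' : Finset V), Disjoint U' T ∧ U'.card ≤ bd T.card ∧
        ∀ Y ⊆ T, (HasPM G (U ∪ Y) ↔ HasPM G' (U' ∪ Y)) := by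
  intro n
  induction n using Nat.strong_induction_on with
  | _ n ih =>
    intro G U hn hUT hU
    by_cases hmin : ∀ (G' : SimpleGraph V) (U' : Finset V), U' ⊆ U →
      (∀ Y ⊆ T, (HasPM G (U ∪ Y) ↔ HasPM G' (U' ∪ Y))) → U.card ≤ U'.card
    · exact ⟨G, U, hUT, main_bound hUT hU hmin, fun Y _ => Iff.rfl⟩
    · push Not at hmin
      obtain ⟨G', U', hU', heq, hlt⟩ := hmin
      have hPM : HasPM G' U' := by
        have := (heq ∅ (Finset.empty_subset _)).mp (by rwa [Finset.union_empty])
        rwa [Finset.union_empty] at this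
      obtain ⟨G'', U'', h1, h2, h3⟩ := ih _ (hn ▸ hlt) G' U' rfl (hUT.mono_left hU') hPM
      exact ⟨G'', U'', h1, h2, fun Y hY => (heq Y hY).trans (h3 Y hY)⟩

/-- matchings along embeddings -/
theorem hasPM_map {W W' : Type*} (e : W ↪ W') (G' : SimpleGraph W') (Z : Finset W) :
    HasPM G' (Z.map e) ↔ HasPM (G'.comap e) Z := by
  classical
  constructor
  · rintro ⟨f, hf⟩
    rcases Z.eq_empty_or_nonempty with rfl | ⟨z0, -⟩
    · exact HasPM.empty _
    have : Nonempty W := ⟨z0⟩
    have hex : ∀ z ∈ Z, ∃ z' ∈ Z, e z' = f (e z) := by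
      intro z hz
      obtain ⟨z', hz', h⟩ := Finset.mem_map.mp (hf (e z) (Finset.mem_map_of_mem e hz)).1
      exact ⟨z', hz', h⟩
    choose! g hg1 hg2 using hex
    refine ⟨g, fun z hz => ⟨hg1 z hz, ?_, ?_⟩⟩
    · rw [SimpleGraph.comap_adj, hg2 z hz]
      exact (hf _ (Finset.mem_map_of_mem e hz)).2.1
    · apply e.injective
      rw [hg2 _ (hg1 z hz), hg2 z hz]
      exact (hf _ (Finset.mem_map_of_mem e hz)).2.2
  · rintro ⟨f, hf⟩
    refine ⟨Function.extend e (e ∘ f) id, fun w' hw' => ?_⟩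
    obtain ⟨z, hz, rfl⟩ := Finset.mem_map.mp hw'
    obtain ⟨h1, h2, h3⟩ := hf z hz
    rw [e.injective.extend_apply, Function.comp_apply]
    refine ⟨Finset.mem_map_of_mem e h1, h2, ?_⟩
    rw [e.injective.extend_apply, Function.comp_apply, h3]

/-! ### twisting -/

/-- a pendant vertex is attached at each terminal -/
def tw {W : Type*} {k : ℕ} (G : SimpleGraph W) (t : Fin k → W) : SimpleGraph (W ⊕ Fin k) where
  Adj x y := match x, y with
    | Sum.inl a, Sum.inl b => G.Adj a b
    | Sum.inl a, Sum.inr i => a = t i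
    | Sum.inr i, Sum.inl a => a = t i
    | Sum.inr _, Sum.inr _ => False
  symm := by
    constructor
    rintro (a | i) (b | j) h
    · exact h.symm
    · exact h
    · exact h
    · exact h
  loopless := by
    constructor
    rintro (a | i) h
    · exact G.loopless.irrefl a h
    · exact h

/-- new nonterminals -/
def tU {W : Type*} [DecidableEq W] {k : ℕ} (U : Finset W) (t : Fin k → W) (D : Finset (Fin k)) :
    Finset (W ⊕ Fin k) := (U ∪ D.image t).map ⟨Sum.inl, Sum.inl_injective⟩

/-- new terminals -/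
def tt {W : Type*} {k : ℕ} (t : Fin k → W) (D : Finset (Fin k)) (i : Fin k) : W ⊕ Fin k :=
  if i ∈ D then Sum.inr i else Sum.inl (t i)

theorem tt_injective {W : Type*} {k : ℕ} {t : Fin k → W} (ht : Function.Injective t)
    (D : Finset (Fin k)) : Function.Injective (tt t D) := by
  intro i j hij
  unfold tt at hij
  split_ifs at hij with h1 h2 h2
  · exact Sum.inr_injective hij
  · exact ht (Sum.inl_injective hij)

theorem tt_notMem {W : Type*} [DecidableEq W] {k : ℕ} {t : Fin k → W}
    (ht : Function.Injective t) (U : Finset W) (hU : ∀ i, t i ∉ U) (D : Finset (Fin k))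
    (i : Fin k) : tt t D i ∉ tU U t D := by
  unfold tt tU
  intro h
  obtain ⟨x, hx, h1⟩ := Finset.mem_map.mp h
  by_cases h2 : i ∈ D
  · rw [if_pos h2] at h1
    cases h1
  · rw [if_neg h2] at h1
    have h3 : x = t i := Sum.inl_injective h1
    subst h3
    rcases Finset.mem_union.mp hx with h4 | h4
    · exact hU i h4
    · obtain ⟨j, hj, h5⟩ := Finset.mem_image.mp h4
      exact h2 (ht h5 ▸ hj)

theorem twist {W : Type*} [DecidableEq W] {k : ℕ} {t : Fin k → W}
    (ht : Function.Injective t) (G : SimpleGraph W) (U : Finset W) (hU : ∀ i, t i ∉ U)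
    (D S : Finset (Fin k)) :
    HasPM (tw G t) (tU U t D ∪ S.image (tt t D)) ↔ HasPM G (U ∪ (symmDiff D S).image t) := by
  set e : W ↪ W ⊕ Fin k := ⟨Sum.inl, Sum.inl_injective⟩ with he
  have hcomap : (tw G t).comap e = G := by
    ext a b
    rfl
  rw [show HasPM G (U ∪ (symmDiff D S).image t) ↔
    HasPM (tw G t) ((U ∪ (symmDiff D S).image t).map e) by rw [hasPM_map, hcomap]]
  set Z1 := tU U t D ∪ S.image (tt t D) with hZ1
  set Z2 := (U ∪ (symmDiff D S).image t).map e with hZ2
  have mem1l : ∀ a, Sum.inl a ∈ Z1 ↔ a ∈ U ∨ (∃ i ∈ D, t i = a) ∨ ∃ i ∈ S, i ∉ D ∧ t i = a := by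
    intro a
    rw [hZ1, Finset.mem_union, tU, Finset.mem_map, Finset.mem_image]
    constructor
    · rintro (⟨x, hx, h⟩ | ⟨i, hi, h⟩)
      · have : x = a := Sum.inl_injective h
        subst this
        rcases Finset.mem_union.mp hx with h1 | h1
        · exact Or.inl h1
        · exact Or.inr (Or.inl (by simpa using h1))
      · unfold tt at h
        split_ifs at h with h1
        exact Or.inr (Or.inr ⟨i, hi, h1, Sum.inl_injective h⟩)
    · rintro (h | ⟨i, hi, h⟩ | ⟨i, hi, h1, h⟩)
      · exact Or.inl ⟨a, Finset.mem_union_left _ h, rfl⟩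
      · exact Or.inl ⟨a, Finset.mem_union_right _ (Finset.mem_image.mpr ⟨i, hi, h⟩), rfl⟩
      · exact Or.inr ⟨i, hi, by rw [tt, if_neg h1, h]⟩
  have mem1r : ∀ i, Sum.inr i ∈ Z1 ↔ i ∈ D ∧ i ∈ S := by
    intro i
    rw [hZ1, Finset.mem_union, tU, Finset.mem_map, Finset.mem_image]
    constructor
    · rintro (⟨x, hx, h⟩ | ⟨j, hj, h⟩)
      · cases h
      · unfold tt at h
        split_ifs at h with h1
        have := Sum.inr_injective h
        subst this
        exact ⟨h1, hj⟩
    · rintro ⟨h1, h2⟩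
      exact Or.inr ⟨i, h2, by rw [tt, if_pos h1]⟩
  have mem2l : ∀ a, Sum.inl a ∈ Z2 ↔ a ∈ U ∨ (∃ i ∈ D, i ∉ S ∧ t i = a) ∨
      ∃ i ∈ S, i ∉ D ∧ t i = a := by
    intro a
    rw [hZ2, Finset.mem_map]
    constructor
    · rintro ⟨x, hx, h⟩
      have : x = a := Sum.inl_injective h
      subst this
      rcases Finset.mem_union.mp hx with h1 | h1
      · exact Or.inl h1
      · obtain ⟨i, hi, h2⟩ := Finset.mem_image.mp h1
        rw [Finset.mem_symmDiff] at hi
        rcases hi with ⟨h3, h4⟩ | ⟨h3, h4⟩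
        · exact Or.inr (Or.inl ⟨i, h3, h4, h2⟩)
        · exact Or.inr (Or.inr ⟨i, h3, h4, h2⟩)
    · rintro (h | ⟨i, hi, h1, h⟩ | ⟨i, hi, h1, h⟩)
      · exact ⟨a, Finset.mem_union_left _ h, rfl⟩
      · exact ⟨a, Finset.mem_union_right _ (Finset.mem_image.mpr
          ⟨i, Finset.mem_symmDiff.mpr (Or.inl ⟨hi, h1⟩), h⟩), rfl⟩
      · exact ⟨a, Finset.mem_union_right _ (Finset.mem_image.mpr
          ⟨i, Finset.mem_symmDiff.mpr (Or.inr ⟨hi, h1⟩), h⟩), rfl⟩
  have mem2r : ∀ i, Sum.inr i ∉ Z2 := by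
    intro i h
    obtain ⟨x, -, h⟩ := Finset.mem_map.mp h
    cases h
  have hsub : Z2 ⊆ Z1 := by
    rintro (a | i) h
    · rw [mem2l] at h
      rw [mem1l]
      rcases h with h | ⟨i, hi, -, h⟩ | h
      · exact Or.inl h
      · exact Or.inr (Or.inl ⟨i, hi, h⟩)
      · exact Or.inr (Or.inr h)
    · exact absurd h (mem2r i)
  have hdiff : ∀ a, Sum.inl a ∈ Z1 → Sum.inl a ∉ Z2 → ∃ i ∈ D, i ∈ S ∧ t i = a := by
    intro a h1 h2
    rw [mem1l] at h1
    rw [mem2l] at h2
    rcases h1 with h | ⟨i, hi, h⟩ | h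
    · exact absurd (Or.inl h) h2
    · by_cases hS : i ∈ S
      · exact ⟨i, hi, hS, h⟩
      · exact absurd (Or.inr (Or.inl ⟨i, hi, hS, h⟩)) h2
    · exact absurd (Or.inr (Or.inr h)) h2
  have hti : ∀ i ∈ D, i ∈ S → Sum.inl (t i) ∉ Z2 := by
    intro i hi hS h
    rw [mem2l] at h
    rcases h with h | ⟨j, hj, h1, h⟩ | ⟨j, hj, h1, h⟩
    · exact hU i h
    · exact h1 (ht h ▸ hS)
    · exact h1 (ht h ▸ hi)
  constructor
  · rintro ⟨f, hf⟩
    have hfi : ∀ i ∈ D, i ∈ S → f (Sum.inr i) = Sum.inl (t i) := by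
      intro i hi hS
      obtain ⟨-, h2, -⟩ := hf (Sum.inr i) ((mem1r i).mpr ⟨hi, hS⟩)
      cases hfv : f (Sum.inr i) with
      | inl a =>
        rw [hfv] at h2
        have : a = t i := h2
        rw [this]
      | inr j =>
        rw [hfv] at h2
        exact absurd h2 (fun h : False => h)
    refine HasPM.of_closed hf hsub ?_
    rintro (a | i) hv
    · have hv1 := hsub hv
      obtain ⟨g1, g2, g3⟩ := hf _ hv1
      cases hfv : f (Sum.inl a) with
      | inl b =>
        rw [hfv] at g1 g3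
        by_contra hcon
        obtain ⟨i, hi, hS, h⟩ := hdiff b g1 hcon
        have h4 := hfi i hi hS
        have h5 := (hf (Sum.inr i) ((mem1r i).mpr ⟨hi, hS⟩)).2.2
        rw [h4, h, g3] at h5
        cases h5
      | inr i =>
        rw [hfv] at g1 g3
        obtain ⟨hi, hS⟩ := (mem1r i).mp g1
        rw [hfi i hi hS] at g3
        rw [← g3] at hv
        exact absurd hv (hti i hi hS)
    · exact absurd hv (mem2r i)
  · intro h
    have h1 : HasPM (tw G t) ((D ∩ S).biUnion
        (fun i => ({Sum.inl (t i), Sum.inr i} : Finset (W ⊕ Fin k)))) := by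
      refine HasPM.biUnion _ _ (fun i _ => HasPM.pair rfl) fun i _ j _ hij => ?_
      rw [Finset.disjoint_left]
      intro z hz hz'
      rw [Finset.mem_insert, Finset.mem_singleton] at hz hz'
      rcases hz with rfl | rfl
      · rcases hz' with h | h
        · exact hij (ht (Sum.inl_injective h))
        · cases h
      · rcases hz' with h | h
        · cases h
        · exact hij (Sum.inr_injective h)
    have h2 : Z1 = Z2 ∪ (D ∩ S).biUnion
        (fun i => ({Sum.inl (t i), Sum.inr i} : Finset (W ⊕ Fin k))) := by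
      ext z
      constructor
      · intro hz
        rw [Finset.mem_union, Finset.mem_biUnion]
        by_cases hz2 : z ∈ Z2
        · exact Or.inl hz2
        · right
          cases z with
          | inl a =>
            obtain ⟨i, hi, hS, h⟩ := hdiff a hz hz2
            exact ⟨i, Finset.mem_inter.mpr ⟨hi, hS⟩, by rw [h]; simp⟩
          | inr i =>
            exact ⟨i, Finset.mem_inter.mpr ((mem1r i).mp hz), by simp⟩
      · intro hz
        rw [Finset.mem_union, Finset.mem_biUnion] at hz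
        rcases hz with hz | ⟨i, hi, hz⟩
        · exact hsub hz
        · obtain ⟨hi, hS⟩ := Finset.mem_inter.mp hi
          rw [Finset.mem_insert, Finset.mem_singleton] at hz
          rcases hz with rfl | rfl
          · exact (mem1l _).mpr (Or.inr (Or.inl ⟨i, hi, rfl⟩))
          · exact (mem1r _).mpr ⟨hi, hS⟩
    rw [h2]
    refine h.union h1 ?_
    rw [Finset.disjoint_left]
    intro z hz hz'
    obtain ⟨i, hi, hz'⟩ := Finset.mem_biUnion.mp hz'
    obtain ⟨hi, hS⟩ := Finset.mem_inter.mp hi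
    rw [Finset.mem_insert, Finset.mem_singleton] at hz'
    rcases hz' with rfl | rfl
    · exact hti i hi hS hz
    · exact mem2r i hz

/-- small network on `Fin n` -/
theorem exists_network {W : Type*} [Fintype W] [DecidableEq W] {k : ℕ} (G : SimpleGraph W)
    (t : Fin k ↪ W) (U : Finset W) (hU : ∀ i, t i ∉ U) :
    ∃ (n : ℕ) (G' : SimpleGraph (Fin n)) (t' : Fin k ↪ Fin n), n ≤ bd k + 2 * k + 1 ∧
      ∀ S : Finset (Fin k), HasPM G (U ∪ S.image t) ↔
        HasPM G' ((univ \ univ.image t') ∪ S.image t') := by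
  by_cases hS0 : ∃ S0 : Finset (Fin k), HasPM G (U ∪ S0.image t)
  swap
  · push Not at hS0
    refine ⟨k + 1, ⊥, Fin.castSuccEmb, by omega, fun S => ?_⟩
    refine iff_of_false (hS0 S) ?_
    rintro ⟨f, hf⟩
    have hlast : Fin.last k ∈ (univ \ univ.image (Fin.castSuccEmb : Fin k ↪ Fin (k + 1))) ∪
        S.image (Fin.castSuccEmb : Fin k ↪ Fin (k + 1)) := by
      rw [Finset.mem_union, Finset.mem_sdiff]
      left
      refine ⟨Finset.mem_univ _, fun h => ?_⟩
      obtain ⟨i, -, hi⟩ := Finset.mem_image.mp h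
      exact (Fin.castSucc_lt_last i).ne hi
    exact (hf _ hlast).2.1
  obtain ⟨D, hD⟩ := hS0
  -- first twist
  set G1 := tw G t with hG1
  set U1 := tU U t D with hU1
  set t1 := tt t D with ht1
  have ht1i : Function.Injective t1 := tt_injective t.injective D
  have ht1U : ∀ i, t1 i ∉ U1 := tt_notMem t.injective U hU D
  have hb1 : ∀ S : Finset (Fin k), HasPM G1 (U1 ∪ S.image t1) ↔ HasPM G (U ∪ (symmDiff D S).image t) :=
    fun S => twist t.injective G U hU D S
  have hPM1 : HasPM G1 U1 := by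
    have := (hb1 ∅).mpr (by
      rw [← Finset.bot_eq_empty, symmDiff_bot]; exact hD)
    rwa [Finset.image_empty, Finset.union_empty] at this
  set T1 := univ.image t1 with hT1
  have hT1c : T1.card = k := by
    rw [hT1, Finset.card_image_of_injective _ ht1i, Finset.card_univ, Fintype.card_fin]
  have hdisj1 : Disjoint U1 T1 := by
    rw [Finset.disjoint_left]
    intro x hx hx'
    obtain ⟨i, -, rfl⟩ := Finset.mem_image.mp hx'
    exact ht1U i hx
  obtain ⟨G2, U2, hdisj2, hcard2, hb2⟩ := exists_small T1 _ G1 U1 rfl hdisj1 hPM1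
  rw [hT1c] at hcard2
  have ht1U2 : ∀ i, t1 i ∉ U2 := fun i h => Finset.disjoint_left.mp hdisj2 h
    (Finset.mem_image.mpr ⟨i, Finset.mem_univ _, rfl⟩)
  -- second twist
  set G3 := tw G2 t1 with hG3
  set U3 := tU U2 t1 D with hU3
  set t3 := tt t1 D with ht3
  have ht3i : Function.Injective t3 := tt_injective ht1i D
  have ht3U : ∀ i, t3 i ∉ U3 := tt_notMem ht1i U2 ht1U2 D
  have hb3 : ∀ S : Finset (Fin k), HasPM G3 (U3 ∪ S.image t3) ↔ HasPM G (U ∪ S.image t) := by
    intro S
    rw [twist ht1i G2 U2 ht1U2 D S, ← hb2 _ (Finset.image_subset_image (Finset.subset_univ _)),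
      hb1, symmDiff_symmDiff_cancel_left]
  -- compression
  set Z3 := U3 ∪ univ.image t3 with hZ3
  have hZ3c : Z3.card ≤ bd k + 2 * k := by
    have e1 : U3.card ≤ U2.card + k := by
      rw [hU3, tU, Finset.card_map]
      refine (Finset.card_union_le _ _).trans (Nat.add_le_add_left ?_ _)
      refine Finset.card_image_le.trans ?_
      have := Finset.card_le_univ D
      rwa [Fintype.card_fin] at this
    have e2 : (univ.image t3).card ≤ k := by
      refine Finset.card_image_le.trans ?_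
      rw [Finset.card_univ, Fintype.card_fin]
    have e3 := Finset.card_union_le U3 (univ.image t3)
    rw [← hZ3] at e3
    omega
  let e0 : Fin Z3.card ≃ Z3 := (Finset.equivFin Z3).symm
  let e : Fin Z3.card ↪ (W ⊕ Fin k) ⊕ Fin k := e0.toEmbedding.trans (Function.Embedding.subtype _)
  have hmem3 : ∀ i, t3 i ∈ Z3 := fun i => Finset.mem_union_right _
    (Finset.mem_image.mpr ⟨i, Finset.mem_univ _, rfl⟩)
  let t' : Fin k ↪ Fin Z3.card := ⟨fun i => e0.symm ⟨t3 i, hmem3 i⟩, by
    intro i j hij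
    have := e0.symm.injective hij
    exact ht3i (Subtype.mk.inj this)⟩
  have het' : ∀ i, e (t' i) = t3 i := by
    intro i
    change (e0 (e0.symm ⟨t3 i, hmem3 i⟩)).1 = _
    rw [Equiv.apply_symm_apply]
  refine ⟨Z3.card, G3.comap e, t', by omega, fun S => ?_⟩
  rw [← hb3 S, ← hasPM_map]
  have hset : ((univ \ univ.image t') ∪ S.image t').map e = U3 ∪ S.image t3 := by
    ext z
    rw [Finset.mem_map, Finset.mem_union]
    constructor
    · rintro ⟨x, hx, rfl⟩
      rcases Finset.mem_union.mp hx with h | h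
      · have hxZ : e x ∈ Z3 := (e0 x).2
        rcases Finset.mem_union.mp hxZ with h1 | h1
        · exact Or.inl h1
        · exfalso
          obtain ⟨i, -, hi⟩ := Finset.mem_image.mp h1
          apply (Finset.mem_sdiff.mp h).2
          refine Finset.mem_image.mpr ⟨i, Finset.mem_univ _, ?_⟩
          apply e.injective
          rw [het', hi]
      · obtain ⟨i, hi, rfl⟩ := Finset.mem_image.mp h
        exact Or.inr (Finset.mem_image.mpr ⟨i, hi, (het' i).symm⟩)
    · rintro (h | h)
      · have hz : z ∈ Z3 := Finset.mem_union_left _ h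
        refine ⟨e0.symm ⟨z, hz⟩, Finset.mem_union_left _ (Finset.mem_sdiff.mpr
          ⟨Finset.mem_univ _, fun h' => ?_⟩), ?_⟩
        · obtain ⟨i, -, hi⟩ := Finset.mem_image.mp h'
          have : t3 i = z := by
            rw [← het' i, hi]
            change (e0 (e0.symm ⟨z, hz⟩)).1 = _
            rw [Equiv.apply_symm_apply]
          exact ht3U i (this ▸ h)
        · change (e0 (e0.symm ⟨z, hz⟩)).1 = _
          rw [Equiv.apply_symm_apply]
      · obtain ⟨i, hi, rfl⟩ := Finset.mem_image.mp h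
        exact ⟨t' i, Finset.mem_union_right _ (Finset.mem_image.mpr ⟨i, hi, rfl⟩), het' i⟩
  rw [hset]

/-- perfect matchings of an induced subgraph -/
theorem induce_iff {V : Type*} [Fintype V] (G : SimpleGraph V) (s : Set V)
    (Z : Finset V) (hZ : ∀ v, v ∈ Z ↔ v ∈ s) :
    (∃ M : (G.induce s).Subgraph, M.IsPerfectMatching) ↔ HasPM G Z := by
  classical
  have : Fintype s := Fintype.ofFinite _
  rw [exists_isPerfectMatching_iff]
  have h1 : (G.induce s) = G.comap (Function.Embedding.subtype (· ∈ s)) := rfl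
  rw [h1]
  rw [← hasPM_map]
  have h2 : (Finset.univ : Finset s).map (Function.Embedding.subtype (· ∈ s)) = Z := by
    ext v
    rw [Finset.mem_map, hZ]
    constructor
    · rintro ⟨x, -, rfl⟩
      exact x.2
    · intro hv
      exact ⟨⟨v, hv⟩, Finset.mem_univ _, rfl⟩
  rw [h2]

theorem mem_active {W : Type*} [Fintype W] [DecidableEq W] {k : ℕ} (r : Fin k ↪ W)
    (S : Set (Fin k)) [DecidablePred (· ∉ S)] (v : W) :
    v ∈ (univ \ univ.image r) ∪ (univ.filter (· ∉ S)).image r ↔ v ∈ (r '' S)ᶜ := by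
  rw [Finset.mem_union, Finset.mem_sdiff, Finset.mem_image, Finset.mem_image,
    Set.mem_compl_iff, Set.mem_image]
  constructor
  · rintro (⟨-, h1⟩ | ⟨i, hi, rfl⟩)
    · rintro ⟨i, -, hi⟩
      exact h1 ⟨i, Finset.mem_univ _, hi⟩
    · rintro ⟨j, hj, hji⟩
      rw [r.injective hji] at hj
      exact (Finset.mem_filter.mp hi).2 hj
  · intro h1
    by_cases h2 : ∃ i, r i = v
    · obtain ⟨i, rfl⟩ := h2
      exact Or.inr ⟨i, Finset.mem_filter.mpr ⟨Finset.mem_univ _, fun h3 => h1 ⟨i, h3, rfl⟩⟩, rfl⟩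
    · exact Or.inl ⟨Finset.mem_univ _, fun ⟨i, _, hi⟩ => h2 ⟨i, hi⟩⟩

theorem final (k : ℕ) {V : Type*} [Finite V] (G : SimpleGraph V) (t : Fin k ↪ V) :
    ∃ (n : ℕ) (G' : SimpleGraph (Fin n)) (t' : Fin k ↪ Fin n), n ≤ bd k + 2 * k + 1 ∧
      ∀ S : Set (Fin k),
        (∃ M : (G.induce (t '' S)ᶜ).Subgraph, M.IsPerfectMatching) ↔
        ∃ M : (G'.induce (t' '' S)ᶜ).Subgraph, M.IsPerfectMatching := by
  classical
  have : Fintype V := Fintype.ofFinite V
  obtain ⟨n, G', t', hn, h⟩ := exists_network G t (univ \ univ.image t) (by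
    intro i hi
    exact (Finset.mem_sdiff.mp hi).2 (Finset.mem_image.mpr ⟨i, Finset.mem_univ _, rfl⟩))
  refine ⟨n, G', t', hn, fun S => ?_⟩
  rw [induce_iff G _ _ (mem_active t S), induce_iff G' _ _ (mem_active t' S)]
  exact h _

end Pool.Agent.H9.MMN
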